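import Mathlib
import Pool.Agent.Lib.MP_0a1b52_lc_RK.Defs

/-!
# Local proofs with many sets: definitions

Blocks of coordinates are given by `γ : U → Option J` (the block `j` consists of the `u` with
`γ u = some j`, the coordinates with `γ u = none` belong to no block).
-/

set_option autoImplicit false

namespace Pool.Agent.RQ

open Finset

/-- each block has exactly one coordinate at which all `x k` are true -/
def One {U J : Type} {P : ℕ} (γ : U → Option J) (x : Fin P → U → Bool) : Prop :=
  ∀ j, ∃! u, γ u = some j ∧ ∀ k, x k u = true

/-- `f` agrees with `b` outside the blocks -/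
def Off {U J C : Type} (γ : U → Option J) (b f : U → C) : Prop := ∀ u, γ u = none → f u = b u

open Classical in
/-- the size of the block `j` -/
noncomputable def bc {U J : Type} [Fintype U] (γ : U → Option J) (j : J) : ℕ :=
  (univ.filter fun u => γ u = some j).card

open Classical in
/-- the sign of `(x, Y)`: `-1` to the number of coordinates in blocks at which all `x k` and `Y` are
true -/
noncomputable def sgn {U J : Type} [Fintype U] {P : ℕ} (γ : U → Option J) (x : Fin P → U → Bool)
    (Y : U → Bool) : ℝ :=
  ∏ u, if γ u ≠ none ∧ (∀ k, x k u = true) ∧ Y u = true then -1 else 1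

open Classical in
/-- the pairs `(x, Y)` which agree with `(b, bY)` outside the blocks and have exactly one common
coordinate in each block -/
noncomputable def Adm {U J : Type} [Fintype U] {P : ℕ} (γ : U → Option J) (b : Fin P → U → Bool)
    (bY : U → Bool) : Finset ((Fin P → U → Bool) × (U → Bool)) :=
  univ.filter fun q => One γ q.1 ∧ (∀ k, Off γ (b k) (q.1 k)) ∧ Off γ bY q.2

open Classical in
/-- the `a` which agree with `b0` outside the blocks and have exactly one common coordinate with `x`
in each block -/
noncomputable def Nx {U J : Type} [Fintype U] {P : ℕ} (γ : U → Option J) (b0 : U → Bool)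
    (x : Fin P → U → Bool) : Finset (U → Bool) :=
  univ.filter fun a => Off γ b0 a ∧ One γ (Fin.cons a x : Fin (P + 1) → U → Bool)

open Classical in
/-- the factor of the block `j` for `a`, `a'` and `x`: `1` if `a`, `a'` have a common coordinate
with `x` in the block -/
noncomputable def wt {U J : Type} [Fintype U] {P : ℕ} (γ : U → Option J) (a a' : U → Bool)
    (x : Fin P → U → Bool) (j : J) : ℝ :=
  if ∃ u, γ u = some j ∧ a u = true ∧ a' u = true ∧ ∀ k, x k u = true then 1 else
    (2 ^ P - 1) ^ 2 / (Real.sqrt ((univ.filter fun u => γ u = some j ∧ a u = true ∧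
      a' u = false).card) * Real.sqrt ((univ.filter fun u => γ u = some j ∧ a u = false ∧
      a' u = true).card))

/-! ## Inputs: `G` groups of `B` coordinates -/

/-- in each group the sets `x k` have exactly one common coordinate -/
def Prom {ι : Type} {B P : ℕ} (x : Fin P → ι × Fin B → Bool) : Prop :=
  ∀ τ, ∃! s, ∀ k, x k (τ, s) = true

open Classical in
/-- the inputs `(x, Y)` with exactly one common coordinate of the `x k` in each group, which does
not belong to `Y` -/
noncomputable def ZZ (ι : Type) [Fintype ι] (B P : ℕ) :
    Finset ((Fin P → ι × Fin B → Bool) × (ι × Fin B → Bool)) :=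
  univ.filter fun q => Prom q.1 ∧ ∀ u, (∀ k, q.1 k u = true) → q.2 u = false

end Pool.Agent.RQ
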