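import Mathlib
import Pool.Agent.Lib.MP_0a1b52_lc_RQ.Defs
import Pool.Agent.Lib.MP_0a1b52_lc_RP.Bad

/-!
# Reading patterns with many sets, module Arith: the parameters of the system of gadgets
-/

set_option autoImplicit false

open Finset

namespace Pool.Agent.RQ

private theorem arith_pow {x y : ℝ} (hxy : x < y) (C : ℝ) :
    ∀ᶠ n : ℕ in Filter.atTop, C * (n : ℝ) ^ x ≤ (n : ℝ) ^ y := by
  have h1 : Filter.Tendsto (fun n : ℕ => ((n : ℝ)) ^ (y - x)) Filter.atTop Filter.atTop :=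
    (tendsto_rpow_atTop (by linarith)).comp tendsto_natCast_atTop_atTop
  filter_upwards [h1.eventually_ge_atTop C, Filter.eventually_ge_atTop 1] with n hn h1n
  have hn0 : (0 : ℝ) < n := by exact_mod_cast h1n
  have h2 : (n : ℝ) ^ y = (n : ℝ) ^ (y - x) * (n : ℝ) ^ x := by
    rw [← Real.rpow_add hn0]
    congr 1
    ring
  rw [h2]
  exact mul_le_mul_of_nonneg_right hn (Real.rpow_nonneg hn0.le x)

private theorem arith_term (M n N k i j : ℕ) (e c t : ℝ) (hc : 0 ≤ c) (hn : 1 ≤ n)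
    (hN : (n : ℝ) / 2 ≤ N) (hNn : (N : ℝ) ≤ n) (hG : (M : ℝ) ≤ (n : ℝ) ^ (2 - e))
    (ht : (2 - e) * k + i - j ≤ t) :
    (M : ℝ) ^ k * c * (N : ℝ) ^ i / (N : ℝ) ^ j ≤ c * 2 ^ j * (n : ℝ) ^ t := by
  have hn1 : (1 : ℝ) ≤ n := by exact_mod_cast hn
  have hn0 : (0 : ℝ) < n := by linarith
  have hN0 : (0 : ℝ) < N := by linarith
  have e1 : (M : ℝ) ^ k ≤ (n : ℝ) ^ ((2 - e) * k) := by
    rw [Real.rpow_mul hn0.le, Real.rpow_natCast]
    exact pow_le_pow_left₀ (by positivity) hG k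
  have e2 : (N : ℝ) ^ i ≤ (n : ℝ) ^ (i : ℝ) := by
    rw [Real.rpow_natCast]
    exact pow_le_pow_left₀ hN0.le hNn i
  have e3 : ((N : ℝ) ^ j)⁻¹ ≤ 2 ^ j * (n : ℝ) ^ (-(j : ℝ)) := by
    rw [Real.rpow_neg hn0.le, Real.rpow_natCast, ← inv_pow, ← inv_pow, ← mul_pow]
    refine pow_le_pow_left₀ (by positivity) ?_ j
    rw [← div_eq_mul_inv, inv_le_comm₀ hN0 (by positivity), inv_div]
    exact hN
  have e4 : (n : ℝ) ^ ((2 - e) * k + i - j) =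
      (n : ℝ) ^ ((2 - e) * k) * (n : ℝ) ^ (i : ℝ) * (n : ℝ) ^ (-(j : ℝ)) := by
    rw [← Real.rpow_add hn0, ← Real.rpow_add hn0]
    congr 1
  calc (M : ℝ) ^ k * c * (N : ℝ) ^ i / (N : ℝ) ^ j
      = (M : ℝ) ^ k * c * (N : ℝ) ^ i * ((N : ℝ) ^ j)⁻¹ := div_eq_mul_inv _ _
    _ ≤ (n : ℝ) ^ ((2 - e) * k) * c * (n : ℝ) ^ (i : ℝ) *
        (2 ^ j * (n : ℝ) ^ (-(j : ℝ))) := by gcongr
    _ = c * 2 ^ j * (n : ℝ) ^ ((2 - e) * k + i - j) := by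
        rw [e4]
        ring
    _ ≤ c * 2 ^ j * (n : ℝ) ^ t := by
        refine mul_le_mul_of_nonneg_left ?_ (by positivity)
        exact Real.rpow_le_rpow_of_exponent_le hn1 ht

private theorem arith_bad (a h : ℕ) (e : ℝ) (he : 0 < e) (he1 : e ≤ 1)
    (ha : 1 + e ≤ e * a) (hh : 2 + e ≤ e * h) :
    ∃ (C : ℝ) (D : ℕ), 0 < C ∧ 2 ≤ D ∧ ∀ n N M g : ℕ, 1 ≤ n → 1 ≤ g → (n : ℝ) / 2 ≤ N →
      (N : ℝ) ≤ n → (M : ℝ) ≤ (n : ℝ) ^ (2 - e) →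
      Pool.Agent.RP.bad M g N a h ≤ C * (g : ℝ) ^ D * (n : ℝ) ^ (2 - 2 * e) := by
  have hcard := Pool.Agent.RP.pairs_card h
  set m : ℕ := Fintype.card (Pool.Agent.RP.Pairs h) with hm
  refine ⟨6 + 2 ^ (2 * a) + 2 ^ (2 * m), 4 + 3 * a + 2 * m, by positivity, by omega, ?_⟩
  intro n N M g hn hg hN hNn hM
  have hn1 : (1 : ℝ) ≤ n := by exact_mod_cast hn
  have hn0 : (0 : ℝ) < n := by linarith
  have hg1 : (1 : ℝ) ≤ g := by exact_mod_cast hg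
  have hh1 : 1 ≤ h := by
    rcases Nat.eq_zero_or_pos h with h0 | h0
    · subst h0
      exfalso
      push_cast at hh
      linarith
    · exact h0
  have hmr : 2 * (m : ℝ) = h * (h - 1) := by
    have := congrArg (Nat.cast : ℕ → ℝ) hcard
    push_cast [Nat.cast_sub hh1] at this
    exact this
  have t1 := arith_term M n N 1 0 1 e ((g : ℝ) ^ 2) (2 - 2 * e) (by positivity) hn hN hNn hM
    (by push_cast; linarith)
  have t2 := arith_term M n N 2 0 2 e ((g : ℝ) ^ 4) (2 - 2 * e) (by positivity) hn hN hNn hM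
    (by push_cast; linarith)
  have t3 := arith_term M n N (a + 1) 1 (2 * a) e ((g : ℝ) ^ (3 * a)) (2 - 2 * e)
    (by positivity) hn hN hNn hM (by push_cast; linarith)
  have t4 := arith_term M n N m h (2 * m) e (((g : ℝ) ^ 2) ^ m) (2 - 2 * e)
    (by positivity) hn hN hNn hM (by
      push_cast
      have h2 : (0 : ℝ) ≤ h := by positivity
      have h3 : (h : ℝ) * 2 ≤ h * (e * (h - 1)) :=
        mul_le_mul_of_nonneg_left (by linarith) h2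
      have h4 : (h : ℝ) ≤ e * m := by
        have : e * (2 * (m : ℝ)) = h * (e * (h - 1)) := by
          rw [hmr]
          ring
        linarith
      linarith)
  rw [Pool.Agent.RP.bad, ← hm]
  have e1 : (M : ℝ) * (g : ℝ) ^ 2 / N =
      (M : ℝ) ^ 1 * (g : ℝ) ^ 2 * (N : ℝ) ^ 0 / (N : ℝ) ^ 1 := by
    simp
  have e2 : (M : ℝ) ^ 2 * (g : ℝ) ^ 4 / (N : ℝ) ^ 2 =
      (M : ℝ) ^ 2 * (g : ℝ) ^ 4 * (N : ℝ) ^ 0 / (N : ℝ) ^ 2 := by
    simp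
  have e3 : (M : ℝ) ^ (a + 1) * (g : ℝ) ^ (3 * a) * N / (N : ℝ) ^ (2 * a) =
      (M : ℝ) ^ (a + 1) * (g : ℝ) ^ (3 * a) * (N : ℝ) ^ 1 / (N : ℝ) ^ (2 * a) := by
    simp
  have e4 : ((M : ℝ) * (g : ℝ) ^ 2) ^ m * (N : ℝ) ^ h / (N : ℝ) ^ (2 * m) =
      (M : ℝ) ^ m * ((g : ℝ) ^ 2) ^ m * (N : ℝ) ^ h / (N : ℝ) ^ (2 * m) := by
    rw [mul_pow]
  rw [e1, e2, e3, e4]
  have h5 : (0 : ℝ) ≤ (n : ℝ) ^ (2 - 2 * e) := by positivity
  have g2 : (g : ℝ) ^ 2 ≤ (g : ℝ) ^ (4 + 3 * a + 2 * m) :=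
    pow_le_pow_right₀ hg1 (by omega)
  have g4 : (g : ℝ) ^ 4 ≤ (g : ℝ) ^ (4 + 3 * a + 2 * m) :=
    pow_le_pow_right₀ hg1 (by omega)
  have g3 : (g : ℝ) ^ (3 * a) ≤ (g : ℝ) ^ (4 + 3 * a + 2 * m) :=
    pow_le_pow_right₀ hg1 (by omega)
  have gm : ((g : ℝ) ^ 2) ^ m ≤ (g : ℝ) ^ (4 + 3 * a + 2 * m) := by
    rw [← pow_mul]
    exact pow_le_pow_right₀ hg1 (by omega)
  set Y : ℝ := (g : ℝ) ^ (4 + 3 * a + 2 * m) with hY
  calc _ ≤ (g : ℝ) ^ 2 * 2 ^ 1 * (n : ℝ) ^ (2 - 2 * e) +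
      (g : ℝ) ^ 4 * 2 ^ 2 * (n : ℝ) ^ (2 - 2 * e) +
      (g : ℝ) ^ (3 * a) * 2 ^ (2 * a) * (n : ℝ) ^ (2 - 2 * e) +
      ((g : ℝ) ^ 2) ^ m * 2 ^ (2 * m) * (n : ℝ) ^ (2 - 2 * e) :=
        add_le_add (add_le_add (add_le_add t1 t2) t3) t4
    _ ≤ Y * 2 ^ 1 * (n : ℝ) ^ (2 - 2 * e) + Y * 2 ^ 2 * (n : ℝ) ^ (2 - 2 * e) +
      Y * 2 ^ (2 * a) * (n : ℝ) ^ (2 - 2 * e) +
      Y * 2 ^ (2 * m) * (n : ℝ) ^ (2 - 2 * e) := by
        gcongr
    _ = _ := by ring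

/-- powers of `z + log n` are at most small powers of `n` -/
private theorem arith_log (z D : ℕ) (hD : 2 ≤ D) {s : ℝ} (hs : 0 < s) :
    ∀ᶠ n : ℕ in Filter.atTop, ((z : ℝ) + Real.logb 2 n) ^ D ≤ (n : ℝ) ^ s := by
  have hD0 : (0 : ℝ) < D := by
    have : (2 : ℝ) ≤ D := by exact_mod_cast hD
    linarith
  set r : ℝ := s / (2 * D) with hr
  have hr0 : 0 < r := by positivity
  have hl2 : (0 : ℝ) < Real.log 2 := Real.log_pos (by norm_num)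
  filter_upwards [Filter.eventually_ge_atTop 1,
    arith_pow (show s / 2 < s by linarith) (((z : ℝ) + 1 / (r * Real.log 2)) ^ D)] with n hn f
  have hn1 : (1 : ℝ) ≤ n := by exact_mod_cast hn
  have hn0 : (0 : ℝ) < n := by linarith
  have h1 : (1 : ℝ) ≤ (n : ℝ) ^ r := Real.one_le_rpow hn1 hr0.le
  have h2 : Real.logb 2 n ≤ 1 / (r * Real.log 2) * (n : ℝ) ^ r := by
    have h3 := Real.log_le_rpow_div hn0.le hr0
    rw [Real.logb, div_le_iff₀ hl2]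
    refine h3.trans (le_of_eq ?_)
    field_simp
  have h4 : (z : ℝ) ≤ z * (n : ℝ) ^ r := le_mul_of_one_le_right (by positivity) h1
  have h5 : (0 : ℝ) ≤ Real.logb 2 n := Real.logb_nonneg (by norm_num) hn1
  calc ((z : ℝ) + Real.logb 2 n) ^ D
      ≤ (((z : ℝ) + 1 / (r * Real.log 2)) * (n : ℝ) ^ r) ^ D := by
        refine pow_le_pow_left₀ (by positivity) ?_ D
        rw [add_mul]
        linarith
    _ = ((z : ℝ) + 1 / (r * Real.log 2)) ^ D * (n : ℝ) ^ (s / 2) := by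
        rw [mul_pow, ← Real.rpow_natCast ((n : ℝ) ^ r) D, ← Real.rpow_mul hn0.le]
        congr 2
        rw [hr]
        field_simp
    _ ≤ (n : ℝ) ^ s := f

theorem arith (ε : ℝ) (hε : 0 < ε) (hε1 : ε ≤ 1) : ∃ a h z n₀ : ℕ, 1 ≤ a ∧ 2 ≤ h ∧
    a * h ^ 2 ≤ z ∧ ∀ n ≥ n₀, ∀ K : ℕ, 1 ≤ K → (K : ℝ) ≤ ε / 16 * Real.logb 2 n →
      z + 2 * K ≤ Nat.sqrt n ∧ 1 ≤ n - (Nat.sqrt n + 2) ∧
      (n : ℝ) ^ (-(ε / (16 * K))) * ((n - (Nat.sqrt n + 2) : ℕ) : ℝ) ^ 2 +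
        2 * (Nat.sqrt n + 2) * n ≤ 2 * (n : ℝ) ^ (2 - ε / (16 * K)) ∧
      ∃ (G B : ℕ) (b : ℝ), 0 < B ∧ 0 < b ∧
        Pool.Agent.RP.bad (G * B) (z + 2 * K) (n - (Nat.sqrt n + 2)) a h ≤ b ∧
        (4 : ℝ) ^ (K + 1) / B ≤ ((n : ℝ) ^ (-(ε / (16 * K)))) ^ K / 2 ∧
        2 * (2 : ℝ) ^ (2 * b) * (2 : ℝ) ^ (-(((n : ℝ) ^ (-(ε / (16 * K)))) ^ K * G / 4)) ≤
          (2 : ℝ) ^ (-((n : ℝ) ^ (2 - 7 / 8 * ε))) := by
  obtain ⟨e, he, he2⟩ : ∃ e : ℝ, 0 < e ∧ 2 * e = ε := ⟨ε / 2, by positivity, by ring⟩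
  have he1 : e ≤ 1 := by linarith
  obtain ⟨a, ha⟩ := exists_nat_ge (1 / e + 1)
  obtain ⟨h, hh⟩ := exists_nat_ge (2 / e + 1)
  have ha' : 1 + e ≤ e * a := by
    have := mul_le_mul_of_nonneg_left ha he.le
    rw [mul_add, mul_one_div_cancel he.ne'] at this
    linarith
  have hh' : 2 + e ≤ e * h := by
    have h1 := mul_le_mul_of_nonneg_left hh he.le
    rw [mul_add, mul_div_cancel₀ _ he.ne'] at h1
    linarith
  have ha1 : 1 ≤ a := by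
    rcases Nat.eq_zero_or_pos a with h0 | h0
    · subst h0
      exfalso
      push_cast at ha'
      linarith
    · exact h0
  have hh2 : 2 ≤ h := by
    by_contra hcon
    have h1 : h ≤ 1 := by omega
    have h2 : (h : ℝ) ≤ 1 := by exact_mod_cast h1
    nlinarith
  set z : ℕ := a * h ^ 2 with hz
  have hz1 : 1 ≤ z := by
    rw [hz]
    exact Nat.mul_pos ha1 (by positivity)
  obtain ⟨C, D, hC, hD, hbad⟩ := arith_bad a h e he he1 ha' hh'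
  have hε16 : 0 < ε / 16 := by positivity
  have ev := (Filter.eventually_ge_atTop 100).and ((arith_log z D hD hε16).and
    ((arith_pow (show (3 / 2 : ℝ) < 2 - ε / 16 by linarith) 6).and
    ((arith_pow (show (0 : ℝ) < 2 - 11 / 16 * ε by linarith) 90).and
    ((arith_pow (show (0 : ℝ) < 2 - 3 / 4 * ε by linarith) 120).and
    ((arith_pow (show 2 - 7 / 8 * ε < 2 - 3 / 4 * ε by linarith) 120).and
    (arith_pow (show 2 - 15 / 16 * ε < 2 - 3 / 4 * ε by linarith) (240 * C)))))))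
  obtain ⟨n₀, hn₀⟩ := Filter.eventually_atTop.1 ev
  refine ⟨a, h, z, n₀, ha1, hh2, le_rfl, ?_⟩
  intro n hn K hK1 hK
  obtain ⟨hn100, fL, f1, f2, f3, f4, f5⟩ := hn₀ n hn
  have hnr : (100 : ℝ) ≤ n := by exact_mod_cast hn100
  have hn0 : (0 : ℝ) < n := by linarith
  have hn1 : (1 : ℝ) ≤ n := by linarith
  have hK0 : (0 : ℝ) < K := by exact_mod_cast hK1
  have hK1r : (1 : ℝ) ≤ K := by exact_mod_cast hK1
  have hlog : (0 : ℝ) ≤ Real.logb 2 n := Real.logb_nonneg (by norm_num) hn1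
  have hs1 : Nat.sqrt n * Nat.sqrt n ≤ n := Nat.sqrt_le n
  have hs10 : 10 ≤ Nat.sqrt n := Nat.le_sqrt.2 (by omega)
  have hsn : Nat.sqrt n * 10 ≤ n := le_trans (Nat.mul_le_mul_left _ hs10) hs1
  have hNn : n - (Nat.sqrt n + 2) ≤ n := Nat.sub_le _ _
  have hN2 : n ≤ 2 * (n - (Nat.sqrt n + 2)) := by omega
  have hNr : (((n - (Nat.sqrt n + 2) : ℕ)) : ℝ) ≤ n := by exact_mod_cast hNn
  have hN2r : (n : ℝ) / 2 ≤ ((n - (Nat.sqrt n + 2) : ℕ) : ℝ) := by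
    have : (n : ℝ) ≤ 2 * ((n - (Nat.sqrt n + 2) : ℕ) : ℝ) := by exact_mod_cast hN2
    linarith
  -- the size of `g = z + 2K`
  have hgL : ((z + 2 * K : ℕ) : ℝ) ≤ (z : ℝ) + Real.logb 2 n := by
    push_cast
    have h1 : ε / 16 * Real.logb 2 n ≤ 1 / 2 * Real.logb 2 n :=
      mul_le_mul_of_nonneg_right (by linarith) hlog
    linarith
  have hg1 : (1 : ℝ) ≤ ((z + 2 * K : ℕ) : ℝ) := by
    have : 1 ≤ z + 2 * K := by omega
    exact_mod_cast this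
  have hgD : ((z + 2 * K : ℕ) : ℝ) ^ D ≤ (n : ℝ) ^ (ε / 16) :=
    (pow_le_pow_left₀ (by positivity) hgL D).trans fL
  have hg2 : ((z + 2 * K : ℕ) : ℝ) ^ 2 ≤ n := by
    refine (pow_le_pow_right₀ hg1 hD).trans (hgD.trans ?_)
    calc (n : ℝ) ^ (ε / 16) ≤ (n : ℝ) ^ (1 : ℝ) :=
          Real.rpow_le_rpow_of_exponent_le hn1 (by linarith)
      _ = n := Real.rpow_one _
  have hsq : z + 2 * K ≤ Nat.sqrt n := by
    rw [Nat.le_sqrt']
    exact_mod_cast hg2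
  have hδ : ε / (16 * K) ≤ ε / 16 :=
    div_le_div_of_nonneg_left hε.le (by norm_num) (by linarith)
  refine ⟨hsq, by omega, ?_, ?_⟩
  · have g1 : (n : ℝ) ^ (2 - ε / (16 * K)) = (n : ℝ) ^ (-(ε / (16 * K))) * (n : ℝ) ^ 2 := by
      rw [← Real.rpow_natCast, ← Real.rpow_add hn0]
      congr 1
      push_cast
      ring
    have g2 : (n : ℝ) ^ (-(ε / (16 * K))) * ((n - (Nat.sqrt n + 2) : ℕ) : ℝ) ^ 2 ≤
        (n : ℝ) ^ (2 - ε / (16 * K)) := by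
      rw [g1]
      refine mul_le_mul_of_nonneg_left ?_ (by positivity)
      exact pow_le_pow_left₀ (by positivity) hNr 2
    have g3 : ((Nat.sqrt n : ℕ) : ℝ) ≤ (n : ℝ) ^ (1 / 2 : ℝ) := by
      rw [← Real.sqrt_eq_rpow]
      exact Real.nat_sqrt_le_real_sqrt
    have g4 : (n : ℝ) ^ (3 / 2 : ℝ) = (n : ℝ) ^ (1 / 2 : ℝ) * n := by
      nth_rewrite 3 [← Real.rpow_one (n : ℝ)]
      rw [← Real.rpow_add hn0]
      norm_num
    have g5 : (10 : ℝ) ≤ (Nat.sqrt n : ℕ) := by exact_mod_cast hs10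
    have g7 : (n : ℝ) ^ (2 - ε / 16) ≤ (n : ℝ) ^ (2 - ε / (16 * K)) :=
      Real.rpow_le_rpow_of_exponent_le hn1 (by linarith)
    have g6 : (2 * (((Nat.sqrt n : ℕ) : ℝ) + 2) * n : ℝ) ≤ (n : ℝ) ^ (2 - ε / (16 * K)) := by
      refine le_trans ?_ (f1.trans g7)
      rw [g4, ← mul_assoc]
      refine mul_le_mul_of_nonneg_right ?_ hn0.le
      linarith
    linarith
  · have hρ : ((n : ℝ) ^ (-(ε / (16 * K)))) ^ K = (n : ℝ) ^ (-(ε / 16)) := by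
      rw [← Real.rpow_natCast, ← Real.rpow_mul hn0.le]
      congr 1
      field_simp
    rw [hρ]
    have h4K : (4 : ℝ) ^ K ≤ (n : ℝ) ^ (ε / 8) := by
      have h1 : (4 : ℝ) ^ K = (2 : ℝ) ^ (2 * (K : ℝ)) := by
        rw [Real.rpow_mul (by norm_num), Real.rpow_natCast]
        norm_num
      have h2 : (n : ℝ) ^ (ε / 8) = (2 : ℝ) ^ (Real.logb 2 n * (ε / 8)) := by
        rw [Real.rpow_mul (by norm_num), Real.rpow_logb (by norm_num) (by norm_num) hn0]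
      rw [h1, h2]
      refine Real.rpow_le_rpow_of_exponent_le (by norm_num) ?_
      linarith
    have h4K1 : (1 : ℝ) ≤ (4 : ℝ) ^ K := one_le_pow₀ (by norm_num)
    have hx1 : (1 : ℝ) ≤ (n : ℝ) ^ (ε / 16) := Real.one_le_rpow hn1 hε16.le
    have hx0 : (0 : ℝ) < (n : ℝ) ^ (ε / 16) := by linarith
    set x : ℝ := 8 * (4 : ℝ) ^ K * (n : ℝ) ^ (ε / 16) with hx
    have hx8 : 8 ≤ x := by
      rw [hx]
      nlinarith
    have hB0 : 0 < ⌈x⌉₊ := Nat.ceil_pos.2 (by linarith)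
    have hBx : x ≤ (⌈x⌉₊ : ℝ) := Nat.le_ceil x
    have hB0r : (0 : ℝ) < (⌈x⌉₊ : ℝ) := by exact_mod_cast hB0
    have hB9 : (⌈x⌉₊ : ℝ) ≤ 9 * (n : ℝ) ^ (3 / 16 * ε) := by
      have h1 : (⌈x⌉₊ : ℝ) < x + 1 := Nat.ceil_lt_add_one (by linarith)
      have h2 : (n : ℝ) ^ (3 / 16 * ε) = (n : ℝ) ^ (ε / 8) * (n : ℝ) ^ (ε / 16) := by
        rw [← Real.rpow_add hn0]
        congr 1
        ring
      have h3 : (4 : ℝ) ^ K * (n : ℝ) ^ (ε / 16) ≤ (n : ℝ) ^ (3 / 16 * ε) := by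
        rw [h2]
        exact mul_le_mul_of_nonneg_right h4K hx0.le
      have h5 : (1 : ℝ) ≤ (4 : ℝ) ^ K * (n : ℝ) ^ (ε / 16) := by nlinarith
      have h6 : x = 8 * ((4 : ℝ) ^ K * (n : ℝ) ^ (ε / 16)) := by
        rw [hx]
        ring
      linarith
    set B : ℕ := ⌈x⌉₊ with hB
    set G : ℕ := ⌊(n : ℝ) ^ (2 - e) / B⌋₊ with hG
    have hGB : ((G * B : ℕ) : ℝ) ≤ (n : ℝ) ^ (2 - e) := by
      push_cast
      rw [← le_div_iff₀ hB0r]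
      exact Nat.floor_le (by positivity)
    have hGl : (n : ℝ) ^ (2 - 11 / 16 * ε) / 10 ≤ (G : ℝ) := by
      have h1 := Nat.sub_one_lt_floor ((n : ℝ) ^ (2 - e) / B)
      rw [← hG] at h1
      have h2 : (n : ℝ) ^ (2 - 11 / 16 * ε) / 9 ≤ (n : ℝ) ^ (2 - e) / B := by
        rw [div_le_div_iff₀ (by norm_num) hB0r]
        have h3 : (n : ℝ) ^ (2 - e) = (n : ℝ) ^ (2 - 11 / 16 * ε) * (n : ℝ) ^ (3 / 16 * ε) := by
          rw [← Real.rpow_add hn0]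
          congr 1
          linarith
        rw [h3]
        have h4 : (0 : ℝ) ≤ (n : ℝ) ^ (2 - 11 / 16 * ε) := by positivity
        nlinarith [mul_le_mul_of_nonneg_left hB9 h4]
      rw [Real.rpow_zero, mul_one] at f2
      linarith
    refine ⟨G, B, C * (n : ℝ) ^ (2 - 15 / 16 * ε), hB0, by positivity, ?_, ?_, ?_⟩
    · refine (hbad n _ _ _ (by omega) (by omega) hN2r hNr hGB).trans ?_
      have h1 : (n : ℝ) ^ (2 - 15 / 16 * ε) = (n : ℝ) ^ (ε / 16) * (n : ℝ) ^ (2 - 2 * e) := by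
        rw [← Real.rpow_add hn0]
        congr 1
        linarith
      rw [h1, mul_assoc]
      refine mul_le_mul_of_nonneg_left ?_ hC.le
      exact mul_le_mul_of_nonneg_right hgD (by positivity)
    · rw [Real.rpow_neg hn0.le, div_le_iff₀ hB0r]
      have h1 : (8 * (4 : ℝ) ^ K * (n : ℝ) ^ (ε / 16)) ≤ (B : ℝ) := hBx
      have h2 := mul_le_mul_of_nonneg_left h1 (inv_nonneg.2 hx0.le)
      have h3 : ((n : ℝ) ^ (ε / 16))⁻¹ * (8 * (4 : ℝ) ^ K * (n : ℝ) ^ (ε / 16)) =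
          8 * (4 : ℝ) ^ K := by
        field_simp
      rw [h3] at h2
      rw [pow_succ]
      linarith
    · have hρG : (n : ℝ) ^ (2 - 3 / 4 * ε) / 40 ≤ (n : ℝ) ^ (-(ε / 16)) * (G : ℝ) / 4 := by
        have h1 : (n : ℝ) ^ (2 - 3 / 4 * ε) =
            (n : ℝ) ^ (-(ε / 16)) * (n : ℝ) ^ (2 - 11 / 16 * ε) := by
          rw [← Real.rpow_add hn0]
          congr 1
          ring
        have h2 := mul_le_mul_of_nonneg_left hGl (Real.rpow_nonneg hn0.le (-(ε / 16)))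
        rw [h1]
        linarith
      rw [Real.rpow_zero, mul_one] at f3
      have h2 : (2 : ℝ) * (2 : ℝ) ^ (2 * (C * (n : ℝ) ^ (2 - 15 / 16 * ε))) *
          (2 : ℝ) ^ (-((n : ℝ) ^ (-(ε / 16)) * (G : ℝ) / 4)) =
          (2 : ℝ) ^ (1 + 2 * (C * (n : ℝ) ^ (2 - 15 / 16 * ε)) +
            -((n : ℝ) ^ (-(ε / 16)) * (G : ℝ) / 4)) := by
        rw [Real.rpow_add (by norm_num), Real.rpow_add (by norm_num), Real.rpow_one]
      rw [h2]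
      refine Real.rpow_le_rpow_of_exponent_le (by norm_num) ?_
      linarith

end Pool.Agent.RQ
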