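import Mathlib
import Pool.Agent.Lib.MP_0a1b52_lc_RQ.Defs

set_option autoImplicit false

namespace Pool.Agent.RQ

open Finset

open Classical in
private theorem fib {V C : Type} [Fintype V] [Fintype C] [DecidableEq C] (M : Finset V)
    (y0 : V → C) (c0 : C)
    (f : Finset V → ℝ) :
    (∑ y : V → C, if (∀ u, u ∉ M → y u = y0 u) then f (M.filter fun u => y u = c0) else 0) =
      ∑ I ∈ M.powerset, ((Fintype.card C : ℝ) - 1) ^ (M.card - I.card) * f I := by
  rw [← Finset.sum_filter]
  rw [← Finset.sum_fiberwise_of_maps_to (t := M.powerset)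
    (g := fun y : V → C => M.filter fun u => y u = c0)
    (fun y _ => mem_powerset.2 (filter_subset _ _))]
  refine sum_congr rfl fun I hI => ?_
  have hIM : I ⊆ M := mem_powerset.1 hI
  have h1 : (∑ y ∈ (univ.filter fun y : V → C => ∀ u, u ∉ M → y u = y0 u) with
      (M.filter fun u => y u = c0) = I, f (M.filter fun u => y u = c0)) =
      ∑ y ∈ (univ.filter fun y : V → C => ∀ u, u ∉ M → y u = y0 u) with
      (M.filter fun u => y u = c0) = I, f I :=
    sum_congr rfl fun y hy => by rw [(mem_filter.1 hy).2]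
  rw [h1, sum_const, nsmul_eq_mul]
  congr 1
  have h2 : ((univ.filter fun y : V → C => ∀ u, u ∉ M → y u = y0 u).filter
      fun y => (M.filter fun u => y u = c0) = I) =
      Fintype.piFinset (fun u => if u ∈ M then (if u ∈ I then {c0} else univ.erase c0)
        else {y0 u}) := by
    ext y
    simp only [mem_filter, mem_univ, true_and, Fintype.mem_piFinset]
    constructor
    · rintro ⟨ha, hb⟩ u
      by_cases hu : u ∈ M
      · by_cases hi : u ∈ I
        · have : y u = c0 := by
            rw [← hb, mem_filter] at hi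
            exact hi.2
          simp [hu, hi, this]
        · have : y u ≠ c0 := fun h => hi (by rw [← hb, mem_filter]; exact ⟨hu, h⟩)
          simp [hu, hi, this]
      · simp [hu, ha u hu]
    · intro h
      constructor
      · intro u hu
        have := h u
        simpa [hu] using this
      · ext u
        rw [mem_filter]
        have := h u
        by_cases hu : u ∈ M
        · by_cases hi : u ∈ I
          · simp [hu, hi] at this
            simp [hu, hi, this]
          · simp [hu, hi] at this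
            simp [hu, hi, this]
        · constructor
          · exact fun h' => absurd h'.1 hu
          · exact fun h' => absurd (hIM h') hu
  rw [h2, Fintype.card_piFinset]
  have h3 : ∀ u, (if u ∈ M then (if u ∈ I then {c0} else univ.erase c0) else {y0 u} :
      Finset C).card = if u ∈ M \ I then Fintype.card C - 1 else 1 := by
    intro u
    by_cases hu : u ∈ M
    · by_cases hi : u ∈ I
      · simp [hu, hi]
      · simp [hu, hi, card_erase_of_mem, card_univ]
    · simp [hu]
  rw [prod_congr rfl fun u _ => h3 u, prod_ite_mem, univ_inter, prod_const,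
    card_sdiff_of_subset hIM]
  have h4 : 1 ≤ Fintype.card C := Fintype.card_pos_iff.2 ⟨c0⟩
  push_cast [Nat.cast_sub h4]
  rfl

open Classical in
private theorem fib' {V C : Type} [Fintype V] [Fintype C] [DecidableEq C] (c0 : C)
    (f : Finset V → ℝ) :
    (∑ y : V → C, f (univ.filter fun u => y u = c0)) =
      ∑ I : Finset V, ((Fintype.card C : ℝ) - 1) ^ (Fintype.card V - I.card) * f I := by
  have := fib (univ : Finset V) (fun _ => c0) c0 f
  simpa only [mem_univ, not_true_eq_false, false_imp_iff, implies_true, if_true,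
    Finset.powerset_univ, Finset.card_univ] using this

/-- columns -/
private def col (V : Type) (P : ℕ) :
    ((V → Bool) × (Fin P → V → Bool)) ≃ (V → Bool × (Fin P → Bool)) where
  toFun q u := (q.1 u, fun k => q.2 k u)
  invFun y := (fun u => (y u).1, fun k u => (y u).2 k)
  left_inv _ := rfl
  right_inv _ := rfl

/-- pairs -/
private def par (V : Type) : ((V → Bool) × (V → Bool)) ≃ (V → Bool × Bool) where
  toFun q u := (q.1 u, q.2 u)
  invFun y := (fun u => (y u).1, fun u => (y u).2)
  left_inv _ := rfl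
  right_inv _ := rfl

open Classical in
theorem block_card (V : Type) [Fintype V] (P : ℕ) :
    ((univ.filter fun q : (V → Bool) × (Fin P → V → Bool) =>
      ∃! u, q.1 u = true ∧ ∀ k, q.2 k u = true).card : ℝ) =
      Fintype.card V * (2 ^ (P + 1) - 1) ^ (Fintype.card V - 1) := by
  set c0 : Bool × (Fin P → Bool) := (true, fun _ => true) with hc0
  have h1 : ((univ.filter fun q : (V → Bool) × (Fin P → V → Bool) =>
      ∃! u, q.1 u = true ∧ ∀ k, q.2 k u = true).card : ℝ) =
      ∑ y : V → Bool × (Fin P → Bool), (fun I : Finset V => if I.card = 1 then (1 : ℝ) else 0)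
        (univ.filter fun u => y u = c0) := by
    rw [← (col V P).sum_comp, Finset.card_filter]
    push_cast
    refine sum_congr rfl fun q _ => ?_
    have h2 : (∃! u, q.1 u = true ∧ ∀ k, q.2 k u = true) ↔
        (univ.filter fun u => col V P q u = c0).card = 1 := by
      rw [Finset.card_eq_one]
      constructor
      · rintro ⟨u, hu, hun⟩
        refine ⟨u, ?_⟩
        ext v
        rw [mem_filter, mem_singleton]
        constructor
        · rintro ⟨-, hv⟩
          refine hun v ?_
          have h3 := congrArg Prod.fst hv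
          have h4 := congrArg Prod.snd hv
          exact ⟨h3, fun k => congrFun h4 k⟩
        · rintro rfl
          refine ⟨mem_univ _, ?_⟩
          exact Prod.ext hu.1 (funext hu.2)
      · rintro ⟨u, hu⟩
        have hu' : u ∈ (univ.filter fun u => col V P q u = c0) := by rw [hu]; simp
        have h3 := (mem_filter.1 hu').2
        refine ⟨u, ⟨congrArg Prod.fst h3, fun k => congrFun (congrArg Prod.snd h3) k⟩, ?_⟩
        intro v hv
        have : v ∈ (univ.filter fun u => col V P q u = c0) :=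
          mem_filter.2 ⟨mem_univ _, Prod.ext hv.1 (funext hv.2)⟩
        rw [hu, mem_singleton] at this
        exact this
    by_cases h : ∃! u, q.1 u = true ∧ ∀ k, q.2 k u = true
    · rw [if_pos h, if_pos (h2.1 h)]
    · rw [if_neg h, if_neg (fun h' => h (h2.2 h'))]
  have h8 : ∑ y : V → Bool × (Fin P → Bool), (fun I : Finset V => if I.card = 1 then (1 : ℝ) else 0)
        (univ.filter fun u => y u = c0) = _ :=
    (by convert fib' c0 (fun I : Finset V => if I.card = 1 then (1 : ℝ) else 0))
  rw [h1, h8]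
  have h5 : ((Fintype.card (Bool × (Fin P → Bool)) : ℕ) : ℝ) = 2 ^ (P + 1) := by
    simp [pow_succ, mul_comm]
  rw [h5]
  have h6 : ∀ I : Finset V, ((2 : ℝ) ^ (P + 1) - 1) ^ (Fintype.card V - I.card) *
      (if I.card = 1 then (1 : ℝ) else 0) =
      if I.card = 1 then ((2 : ℝ) ^ (P + 1) - 1) ^ (Fintype.card V - 1) else 0 := by
    intro I
    by_cases h : I.card = 1
    · rw [if_pos h, if_pos h, h, mul_one]
    · rw [if_neg h, if_neg h, mul_zero]
  rw [sum_congr rfl fun I _ => h6 I, ← sum_filter, sum_const, nsmul_eq_mul]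
  congr 1
  have h7 : (univ.filter fun I : Finset V => I.card = 1) = powersetCard 1 univ := by
    ext I
    simp [mem_powersetCard]
  rw [h7, card_powersetCard, card_univ, Nat.choose_one_right]

private theorem binom (m : ℕ) :
    ∑ i ∈ range (m + 1), (m.choose i : ℝ) * (3 ^ (m - i) * (1 / (1 + i))) ≤
      4 ^ (m + 1) / (m + 1) := by
  have h1 : ∀ i ∈ range (m + 1), (m.choose i : ℝ) * (3 ^ (m - i) * (1 / (1 + i))) =
      ((m + 1).choose (i + 1) : ℝ) * 3 ^ (m - i) / (m + 1) := by
    intro i _
    have h := Nat.add_one_mul_choose_eq m i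
    have h' : ((m : ℝ) + 1) * m.choose i = (m + 1).choose (i + 1) * ((i : ℝ) + 1) := by
      have := congrArg (Nat.cast : ℕ → ℝ) h
      push_cast at this
      exact this
    have hi : (0 : ℝ) < 1 + i := by positivity
    have hm : (0 : ℝ) < (m : ℝ) + 1 := by positivity
    rw [eq_div_iff hm.ne']
    have h9 : (m.choose i : ℝ) * (3 ^ (m - i) * (1 / (1 + i))) * (m + 1) =
        (((m : ℝ) + 1) * m.choose i) * 3 ^ (m - i) / (1 + i) := by ring
    rw [h9, h', div_eq_iff hi.ne']
    ring
  rw [sum_congr rfl h1, ← sum_div]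
  refine div_le_div_of_nonneg_right ?_ (by positivity)
  have h2 : (4 : ℝ) ^ (m + 1) = ∑ j ∈ range (m + 1 + 1),
      (1 : ℝ) ^ j * 3 ^ (m + 1 - j) * ((m + 1).choose j) := by
    rw [← add_pow]; norm_num
  rw [h2, sum_range_succ' _ (m + 1)]
  have h3 : ∀ i ∈ range (m + 1), ((m + 1).choose (i + 1) : ℝ) * 3 ^ (m - i) =
      (1 : ℝ) ^ (i + 1) * 3 ^ (m + 1 - (i + 1)) * ((m + 1).choose (i + 1)) := by
    intro i _
    rw [Nat.add_sub_add_right, one_pow]
    ring
  rw [sum_congr rfl h3]
  have : (0 : ℝ) ≤ (1 : ℝ) ^ 0 * 3 ^ (m + 1 - 0) * ((m + 1).choose 0) := by positivity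
  linarith

open Classical in
private theorem dsum {V : Type} [Fintype V] (T : Finset V) (s s' : V) :
    (∑ a : V → Bool, ∑ a' : V → Bool,
      if (∀ u ∈ T, (a u = true ↔ u = s)) ∧ (∀ u ∈ T, (a' u = true ↔ u = s')) then
        (1 / (1 + ((Tᶜ).filter fun u => a u = true ∧ a' u = false).card) : ℝ) else 0) ≤
      4 ^ ((Tᶜ).card + 1) / ((Tᶜ).card + 1) := by
  have h1 : (∑ a : V → Bool, ∑ a' : V → Bool,
      if (∀ u ∈ T, (a u = true ↔ u = s)) ∧ (∀ u ∈ T, (a' u = true ↔ u = s')) then
        (1 / (1 + ((Tᶜ).filter fun u => a u = true ∧ a' u = false).card) : ℝ) else 0) =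
      ∑ y : V → Bool × Bool, if (∀ u, u ∉ Tᶜ → y u = (decide (u = s), decide (u = s'))) then
        (fun I : Finset V => (1 / (1 + (I.card : ℝ)))) ((Tᶜ).filter fun u => y u = (true, false))
        else 0 := by
    rw [← (par V).sum_comp, ← Fintype.sum_prod_type']
    refine sum_congr rfl fun q _ => ?_
    have h2 : ((∀ u ∈ T, (q.1 u = true ↔ u = s)) ∧ (∀ u ∈ T, (q.2 u = true ↔ u = s'))) ↔
        (∀ u, u ∉ Tᶜ → par V q u = (decide (u = s), decide (u = s'))) := by
      constructor
      · rintro ⟨ha, hb⟩ u hu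
        rw [mem_compl, not_not] at hu
        refine Prod.ext ?_ ?_
        · have := ha u hu
          show q.1 u = decide (u = s)
          rw [Bool.eq_iff_iff, this, decide_eq_true_iff]
        · have := hb u hu
          show q.2 u = decide (u = s')
          rw [Bool.eq_iff_iff, this, decide_eq_true_iff]
      · intro h
        constructor
        · intro u hu
          have h3 := congrArg Prod.fst (h u (by rw [mem_compl, not_not]; exact hu))
          have h4 : q.1 u = decide (u = s) := h3
          rw [h4, decide_eq_true_iff]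
        · intro u hu
          have h3 := congrArg Prod.snd (h u (by rw [mem_compl, not_not]; exact hu))
          have h4 : q.2 u = decide (u = s') := h3
          rw [h4, decide_eq_true_iff]
    have h5 : ((Tᶜ).filter fun u => q.1 u = true ∧ q.2 u = false) =
        (Tᶜ).filter fun u => par V q u = (true, false) := by
      refine filter_congr fun u _ => ?_
      constructor
      · rintro ⟨ha, hb⟩
        exact Prod.ext ha hb
      · intro h
        exact ⟨congrArg Prod.fst h, congrArg Prod.snd h⟩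
    by_cases h : (∀ u ∈ T, (q.1 u = true ↔ u = s)) ∧ (∀ u ∈ T, (q.2 u = true ↔ u = s'))
    · rw [if_pos h, if_pos (h2.1 h), h5]
    · rw [if_neg h, if_neg (fun h' => h (h2.2 h'))]
  have h8 : (∑ y : V → Bool × Bool,
      if (∀ u, u ∉ Tᶜ → y u = (decide (u = s), decide (u = s'))) then
        (fun I : Finset V => (1 / (1 + (I.card : ℝ)))) ((Tᶜ).filter fun u => y u = (true, false))
        else 0) = _ :=
    (by convert fib Tᶜ (fun u => (decide (u = s), decide (u = s'))) (true, false)
          (fun I : Finset V => (1 / (1 + (I.card : ℝ)))))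
  rw [h1, h8]
  have h6 : ((Fintype.card (Bool × Bool) : ℕ) : ℝ) - 1 = 3 := by
    simp; norm_num
  rw [h6, Finset.sum_powerset_apply_card (fun i : ℕ => (3 : ℝ) ^ ((Tᶜ).card - i) * (1 / (1 + i)))]
  simp only [nsmul_eq_mul]
  exact binom _

open Classical in
private theorem csum {V : Type} [Fintype V] (T : Finset V) (s : V) :
    (∑ a : V → Bool, if (∀ u ∈ T, (a u = true ↔ u = s)) then (1 : ℝ) else 0) =
      2 ^ (Tᶜ).card := by
  have h1 : (∑ a : V → Bool, if (∀ u ∈ T, (a u = true ↔ u = s)) then (1 : ℝ) else 0) =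
      ∑ a : V → Bool, if (∀ u, u ∉ Tᶜ → a u = decide (u = s)) then
        (fun _ : Finset V => (1 : ℝ)) ((Tᶜ).filter fun u => a u = true) else 0 := by
    refine sum_congr rfl fun a _ => ?_
    have h2 : (∀ u ∈ T, (a u = true ↔ u = s)) ↔ (∀ u, u ∉ Tᶜ → a u = decide (u = s)) := by
      refine forall_congr' fun u => ?_
      rw [mem_compl, not_not]
      refine imp_congr_right fun _ => ?_
      rw [Bool.eq_iff_iff (a := a u) (b := decide (u = s)), decide_eq_true_iff]
    by_cases h : (∀ u ∈ T, (a u = true ↔ u = s))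
    · rw [if_pos h, if_pos (h2.1 h)]
    · rw [if_neg h, if_neg (fun h' => h (h2.2 h'))]
  have h8 : (∑ a : V → Bool, if (∀ u, u ∉ Tᶜ → a u = decide (u = s)) then
        (fun _ : Finset V => (1 : ℝ)) ((Tᶜ).filter fun u => a u = true) else 0) = _ :=
    (by convert fib Tᶜ (fun u => decide (u = s)) true (fun _ : Finset V => (1 : ℝ)))
  rw [h1, h8]
  have h6 : ((Fintype.card Bool : ℕ) : ℝ) - 1 = 1 := by
    simp; norm_num
  rw [h6]
  simp

open Classical in
private noncomputable def WW {V : Type} [Fintype V] (K : ℝ) (T : Finset V) (a a' : V → Bool) :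
    ℝ :=
  if ∃ u, a u = true ∧ a' u = true ∧ u ∈ T then (1 : ℝ) else
    K / (Real.sqrt ((univ.filter fun u => a u = true ∧ a' u = false).card) *
      Real.sqrt ((univ.filter fun u => a u = false ∧ a' u = true).card))

open Classical in
private noncomputable def NN {V : Type} [Fintype V] (T : Finset V) : ℝ :=
  ((univ.filter fun a : V → Bool => ∃! u, a u = true ∧ u ∈ T).card : ℝ)

open Classical in
private noncomputable def SS {V : Type} [Fintype V] (K : ℝ) (T : Finset V) : ℝ :=
  ∑ a : V → Bool, ∑ a' : V → Bool,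
    if (∃! u, a u = true ∧ u ∈ T) ∧ (∃! u, a' u = true ∧ u ∈ T) then WW K T a a' / NN T else 0

open Classical in
private theorem uni {V : Type} [Fintype V] (T : Finset V) (a : V → Bool) (g : ℝ) :
    (if (∃! u, a u = true ∧ u ∈ T) then g else 0) =
      ∑ s ∈ T, if (∀ u ∈ T, (a u = true ↔ u = s)) then g else 0 := by
  by_cases h : ∃! u, a u = true ∧ u ∈ T
  · obtain ⟨s, hs, hun⟩ := h
    rw [if_pos ⟨s, hs, hun⟩, Finset.sum_eq_single s]
    · rw [if_pos]
      intro u hu
      exact ⟨fun h => hun u ⟨h, hu⟩, fun h => by rw [h]; exact hs.1⟩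
    · intro s' hs' hne
      rw [if_neg]
      intro h'
      exact hne (hun s' ⟨(h' s' hs').2 rfl, hs'⟩)
    · intro h
      exact absurd hs.2 h
  · rw [if_neg h]
    refine (Finset.sum_eq_zero fun s hs => ?_).symm
    rw [if_neg]
    intro h'
    exact h ⟨s, ⟨(h' s hs).2 rfl, hs⟩, fun u hu => (h' u hu.2).1 hu.1⟩

open Classical in
private theorem nn_eq {V : Type} [Fintype V] (T : Finset V) :
    NN T = T.card * 2 ^ (Tᶜ).card := by
  unfold NN
  rw [Finset.card_filter]
  push_cast
  rw [sum_congr rfl fun a _ => uni T a 1, sum_comm, sum_congr rfl fun s _ => csum T s, sum_const,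
    nsmul_eq_mul]

open Classical in
private theorem ss_eq {V : Type} [Fintype V] (K : ℝ) (T : Finset V) :
    SS K T = ∑ s ∈ T, ∑ s' ∈ T, ∑ a : V → Bool, ∑ a' : V → Bool,
      if (∀ u ∈ T, (a u = true ↔ u = s)) ∧ (∀ u ∈ T, (a' u = true ↔ u = s')) then
        WW K T a a' / NN T else 0 := by
  unfold SS
  have h1 : ∀ a a' : V → Bool,
      (if (∃! u, a u = true ∧ u ∈ T) ∧ (∃! u, a' u = true ∧ u ∈ T) then WW K T a a' / NN T
        else 0) = ∑ s ∈ T, ∑ s' ∈ T,
      if (∀ u ∈ T, (a u = true ↔ u = s)) ∧ (∀ u ∈ T, (a' u = true ↔ u = s')) then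
        WW K T a a' / NN T else 0 := by
    intro a a'
    rw [ite_and, uni T a]
    refine sum_congr rfl fun s _ => ?_
    rw [uni T a']
    by_cases h : ∀ u ∈ T, (a u = true ↔ u = s)
    · rw [if_pos h]
      refine sum_congr rfl fun s' _ => ?_
      by_cases h' : ∀ u ∈ T, (a' u = true ↔ u = s')
      · rw [if_pos h', if_pos ⟨h, h'⟩]
      · rw [if_neg h', if_neg fun hh => h' hh.2]
    · rw [if_neg h]
      refine (Finset.sum_eq_zero fun s' _ => ?_).symm
      rw [if_neg fun hh => h hh.1]
  rw [sum_congr rfl fun a _ => sum_congr rfl fun a' _ => h1 a a']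
  rw [sum_congr rfl fun a _ => sum_comm, sum_comm]
  refine sum_congr rfl fun s _ => ?_
  rw [sum_congr rfl fun a _ => sum_comm, sum_comm]

private theorem amgm (X Y i j : ℕ) (hX : i + 1 ≤ X) (hY : j + 1 ≤ Y) :
    1 / (Real.sqrt X * Real.sqrt Y) ≤ (1 / (1 + i) + 1 / (1 + j)) / 2 := by
  have hx : (0 : ℝ) < X := by
    have : 0 < X := by omega
    exact_mod_cast this
  have hy : (0 : ℝ) < Y := by
    have : 0 < Y := by omega
    exact_mod_cast this
  have h1 : (1 : ℝ) / X ≤ 1 / (1 + i) := by
    refine one_div_le_one_div_of_le (by positivity) ?_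
    have : ((i + 1 : ℕ) : ℝ) ≤ X := by exact_mod_cast hX
    push_cast at this
    linarith
  have h2 : (1 : ℝ) / Y ≤ 1 / (1 + j) := by
    refine one_div_le_one_div_of_le (by positivity) ?_
    have : ((j + 1 : ℕ) : ℝ) ≤ Y := by exact_mod_cast hY
    push_cast at this
    linarith
  have h3 : (1 : ℝ) / (Real.sqrt X * Real.sqrt Y) = (1 / Real.sqrt X) * (1 / Real.sqrt Y) := by
    rw [one_div_mul_one_div]
  have h4 : (1 / Real.sqrt X) ^ 2 = 1 / X := by
    rw [div_pow, one_pow, Real.sq_sqrt hx.le]
  have h5 : (1 / Real.sqrt Y) ^ 2 = 1 / Y := by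
    rw [div_pow, one_pow, Real.sq_sqrt hy.le]
  rw [h3]
  nlinarith [sq_nonneg (1 / Real.sqrt X - 1 / Real.sqrt Y)]

open Classical in
private theorem pair_le {V : Type} [Fintype V] (K : ℝ) (hK : 0 ≤ K) (T : Finset V) (s s' : V)
    (hs : s ∈ T) (hs' : s' ∈ T) :
    (∑ a : V → Bool, ∑ a' : V → Bool,
      if (∀ u ∈ T, (a u = true ↔ u = s)) ∧ (∀ u ∈ T, (a' u = true ↔ u = s')) then
        WW K T a a' / NN T else 0) ≤
      (if s = s' then 4 ^ (Tᶜ).card else K * (4 ^ ((Tᶜ).card + 1) / ((Tᶜ).card + 1))) / NN T := by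
  have hN : 0 ≤ NN T := by
    unfold NN
    exact Nat.cast_nonneg _
  by_cases h : s = s'
  · subst h
    rw [if_pos rfl]
    refine le_of_eq ?_
    have h1 : ∀ a a' : V → Bool,
        (if (∀ u ∈ T, (a u = true ↔ u = s)) ∧ (∀ u ∈ T, (a' u = true ↔ u = s)) then
          WW K T a a' / NN T else 0) =
        (if (∀ u ∈ T, (a u = true ↔ u = s)) then (1 : ℝ) else 0) *
        (if (∀ u ∈ T, (a' u = true ↔ u = s)) then (1 : ℝ) else 0) * (1 / NN T) := by
      intro a a'
      by_cases ha : ∀ u ∈ T, (a u = true ↔ u = s)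
      · by_cases hb : ∀ u ∈ T, (a' u = true ↔ u = s)
        · rw [if_pos ⟨ha, hb⟩, if_pos ha, if_pos hb, one_mul, one_mul]
          unfold WW
          rw [if_pos ⟨s, (ha s hs).2 rfl, (hb s hs).2 rfl, hs⟩]
        · rw [if_neg fun hh => hb hh.2, if_neg hb, mul_zero, zero_mul]
      · rw [if_neg fun hh => ha hh.1, if_neg ha, zero_mul, zero_mul]
    rw [sum_congr rfl fun a _ => sum_congr rfl fun a' _ => h1 a a']
    rw [sum_congr rfl fun a _ => (by rw [← sum_mul, ← mul_sum, csum] : (∑ a' : V → Bool,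
        (if (∀ u ∈ T, (a u = true ↔ u = s)) then (1 : ℝ) else 0) *
        (if (∀ u ∈ T, (a' u = true ↔ u = s)) then (1 : ℝ) else 0) * (1 / NN T)) =
        (if (∀ u ∈ T, (a u = true ↔ u = s)) then (1 : ℝ) else 0) * 2 ^ (Tᶜ).card * (1 / NN T))]
    rw [← sum_mul, ← sum_mul, csum, ← mul_pow]
    norm_num
    rfl
  · rw [if_neg h]
    have h1 : ∀ a a' : V → Bool,
        (if (∀ u ∈ T, (a u = true ↔ u = s)) ∧ (∀ u ∈ T, (a' u = true ↔ u = s')) then
          WW K T a a' / NN T else 0) ≤
        (if (∀ u ∈ T, (a u = true ↔ u = s)) ∧ (∀ u ∈ T, (a' u = true ↔ u = s')) then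
          (1 / (1 + ((Tᶜ).filter fun u => a u = true ∧ a' u = false).card) : ℝ) else 0) *
            (K / 2 / NN T) +
        (if (∀ u ∈ T, (a' u = true ↔ u = s')) ∧ (∀ u ∈ T, (a u = true ↔ u = s)) then
          (1 / (1 + ((Tᶜ).filter fun u => a' u = true ∧ a u = false).card) : ℝ) else 0) *
            (K / 2 / NN T) := by
      intro a a'
      by_cases hh : (∀ u ∈ T, (a u = true ↔ u = s)) ∧ (∀ u ∈ T, (a' u = true ↔ u = s'))
      · rw [if_pos hh, if_pos hh, if_pos hh.symm]
        obtain ⟨ha, hb⟩ := hh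
        have h2 : WW K T a a' ≤
            K * ((1 / (1 + (((Tᶜ).filter fun u => a u = true ∧ a' u = false).card : ℝ)) +
            1 / (1 + (((Tᶜ).filter fun u => a' u = true ∧ a u = false).card : ℝ))) / 2) := by
          unfold WW
          rw [if_neg]
          · rw [div_eq_mul_one_div]
            refine mul_le_mul_of_nonneg_left (amgm _ _ _ _ ?_ ?_) hK
            · have h3 : s ∉ (Tᶜ).filter fun u => a u = true ∧ a' u = false := by
                intro h4
                exact (mem_compl.1 (mem_filter.1 h4).1) hs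
              rw [← card_insert_of_notMem h3]
              refine card_le_card ?_
              intro u hu
              rw [mem_insert] at hu
              rcases hu with rfl | hu
              · refine mem_filter.2 ⟨mem_univ _, (ha u hs).2 rfl, ?_⟩
                have := (hb u hs).not.2 h
                simpa using this
              · exact mem_filter.2 ⟨mem_univ _, (mem_filter.1 hu).2⟩
            · have h3 : s' ∉ (Tᶜ).filter fun u => a' u = true ∧ a u = false := by
                intro h4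
                exact (mem_compl.1 (mem_filter.1 h4).1) hs'
              rw [← card_insert_of_notMem h3]
              refine card_le_card ?_
              intro u hu
              rw [mem_insert] at hu
              rcases hu with rfl | hu
              · refine mem_filter.2 ⟨mem_univ _, ?_, (hb u hs').2 rfl⟩
                have := (ha u hs').not.2 (Ne.symm h)
                simpa using this
              · exact mem_filter.2 ⟨mem_univ _, (mem_filter.1 hu).2.2, (mem_filter.1 hu).2.1⟩
          · rintro ⟨u, h3, h4, h5⟩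
            exact h (((ha u h5).1 h3).symm.trans ((hb u h5).1 h4))
        have h6 := div_le_div_of_nonneg_right h2 hN
        refine h6.trans (le_of_eq ?_)
        ring
      · rw [if_neg hh, if_neg hh, if_neg fun h7 => hh h7.symm]
        simp
    refine (sum_le_sum fun a _ => sum_le_sum fun a' _ => h1 a a').trans ?_
    have hc : 0 ≤ K / 2 / NN T := by positivity
    have h8 := mul_le_mul_of_nonneg_right (dsum T s s') hc
    have h9 := mul_le_mul_of_nonneg_right (dsum T s' s) hc
    simp only [sum_add_distrib, ← sum_mul]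
    rw [sum_comm (f := fun (a : V → Bool) (a' : V → Bool) =>
        (if (∀ u ∈ T, (a' u = true ↔ u = s')) ∧ (∀ u ∈ T, (a u = true ↔ u = s)) then
          (1 / (1 + ((Tᶜ).filter fun u => a' u = true ∧ a u = false).card) : ℝ) else 0))]
    refine (add_le_add h8 h9).trans (le_of_eq ?_)
    ring

open Classical in
private theorem ss_le {V : Type} [Fintype V] (K : ℝ) (hK : 0 ≤ K) (T : Finset V)
    (hT : T.Nonempty) :
    SS K T ≤ 2 ^ (Tᶜ).card +
      K * ((T.card : ℝ) - 1) * (4 * 2 ^ (Tᶜ).card / ((Tᶜ).card + 1)) := by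
  rw [ss_eq]
  refine (sum_le_sum fun s hs => sum_le_sum fun s' hs' => pair_le K hK T s s' hs hs').trans ?_
  have ht : (0 : ℝ) < T.card := by exact_mod_cast hT.card_pos
  have h1 : ∀ s ∈ T, ∑ s' ∈ T, (if s = s' then (4 : ℝ) ^ (Tᶜ).card else
      K * (4 ^ ((Tᶜ).card + 1) / ((Tᶜ).card + 1))) / NN T =
      (4 ^ (Tᶜ).card + ((T.card : ℝ) - 1) *
        (K * (4 ^ ((Tᶜ).card + 1) / ((Tᶜ).card + 1)))) / NN T := by
    intro s hs
    rw [← sum_div]
    congr 1
    rw [← Finset.add_sum_erase T _ hs, if_pos rfl]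
    congr 1
    rw [sum_congr rfl fun s' hs' => if_neg (Finset.ne_of_mem_erase hs').symm, sum_const,
      nsmul_eq_mul, card_erase_of_mem hs, Nat.cast_sub hT.card_pos, Nat.cast_one]
  rw [sum_congr rfl h1, sum_const, nsmul_eq_mul, nn_eq]
  have h2 : (4 : ℝ) ^ (Tᶜ).card = 2 ^ (Tᶜ).card * 2 ^ (Tᶜ).card := by
    rw [← mul_pow]; norm_num
  have h3 : (0 : ℝ) < 2 ^ (Tᶜ).card := by positivity
  have h4 : (0 : ℝ) < ((Tᶜ).card : ℝ) + 1 := by positivity
  rw [pow_succ, h2]
  refine le_of_eq ?_
  field_simp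

private theorem fin (q : ℝ) (hq : 0 ≤ q) (l : ℕ) :
    ∑ t ∈ range (l + 1), (l.choose t : ℝ) * (if t = 0 then 0 else
      q ^ (l - t) + q ^ (l - t) * q ^ 2 * ((t : ℝ) - 1) / (((l - t : ℕ) : ℝ) + 1)) ≤
      (q + 1) ^ (l + 1) := by
  rw [sum_range_succ']
  simp only [if_true, mul_zero, add_zero]
  have h0 : ∀ j ∈ range l, ((l.choose (j + 1) : ℕ) : ℝ) * (if j + 1 = 0 then 0 else
      q ^ (l - (j + 1)) + q ^ (l - (j + 1)) * q ^ 2 * (((j + 1 : ℕ) : ℝ) - 1) /
        (((l - (j + 1) : ℕ) : ℝ) + 1)) ≤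
      (1 : ℝ) ^ (j + 1) * q ^ (l - (j + 1)) * (l.choose (j + 1)) +
        (1 : ℝ) ^ j * q ^ (l - j) * (l.choose j) * q := by
    intro j hj
    have hj' : j < l := mem_range.1 hj
    rw [if_neg (Nat.succ_ne_zero j), mul_add]
    refine add_le_add (le_of_eq (by rw [one_pow]; ring)) ?_
    have h1 : (((l - (j + 1) : ℕ) : ℝ) + 1) = ((l - j : ℕ) : ℝ) := by
      have : l - (j + 1) + 1 = l - j := by omega
      exact_mod_cast this
    have h2 : (0 : ℝ) < ((l - j : ℕ) : ℝ) := by
      have : 0 < l - j := by omega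
      exact_mod_cast this
    have h3 : ((l.choose (j + 1) : ℕ) : ℝ) * ((j : ℝ) + 1) = (l.choose j) * ((l - j : ℕ) : ℝ) := by
      have := Nat.choose_succ_right_eq l j
      exact_mod_cast this
    have h4 : q ^ (l - j) = q ^ (l - (j + 1)) * q := by
      rw [← pow_succ]
      congr 1
      omega
    rw [h1, one_pow, h4]
    have h5 : ((l.choose (j + 1) : ℕ) : ℝ) * (q ^ (l - (j + 1)) * q ^ 2 *
        (((j + 1 : ℕ) : ℝ) - 1) / ((l - j : ℕ) : ℝ)) =
        (q ^ (l - (j + 1)) * q ^ 2) * (((l.choose (j + 1) : ℕ) : ℝ) * j / ((l - j : ℕ) : ℝ)) := by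
      push_cast
      ring
    rw [h5]
    have h6 : ((l.choose (j + 1) : ℕ) : ℝ) * j / ((l - j : ℕ) : ℝ) ≤ l.choose j := by
      rw [div_le_iff₀ h2, ← h3]
      have : (0 : ℝ) ≤ ((l.choose (j + 1) : ℕ) : ℝ) := Nat.cast_nonneg _
      nlinarith
    have h7 : 0 ≤ q ^ (l - (j + 1)) * q ^ 2 := by positivity
    refine (mul_le_mul_of_nonneg_left h6 h7).trans (le_of_eq ?_)
    ring
  refine (sum_le_sum h0).trans ?_
  rw [sum_add_distrib, ← sum_mul]
  have h8 : (1 + q) ^ l = ∑ j ∈ range (l + 1), (1 : ℝ) ^ j * q ^ (l - j) * (l.choose j) :=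
    add_pow 1 q l
  have h9 : ∑ j ∈ range l, (1 : ℝ) ^ (j + 1) * q ^ (l - (j + 1)) * (l.choose (j + 1)) ≤
      (1 + q) ^ l := by
    rw [h8, sum_range_succ']
    have : (0 : ℝ) ≤ (1 : ℝ) ^ 0 * q ^ (l - 0) * (l.choose 0) := by positivity
    linarith
  have h10 : ∑ j ∈ range l, (1 : ℝ) ^ j * q ^ (l - j) * (l.choose j) ≤ (1 + q) ^ l := by
    rw [h8, sum_range_succ]
    have : (0 : ℝ) ≤ (1 : ℝ) ^ l * q ^ (l - l) * (l.choose l) := by positivity
    linarith
  have h11 := mul_le_mul_of_nonneg_right h10 hq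
  have h12 : (q + 1) ^ (l + 1) = (1 + q) ^ l + (1 + q) ^ l * q := by ring
  rw [h12]
  linarith

open Classical in
theorem block (V : Type) [Fintype V] (P : ℕ) (hV : 0 < Fintype.card V) :
    (∑ x : Fin P → V → Bool, ∑ a : V → Bool, ∑ a' : V → Bool,
      if (∃! u, a u = true ∧ ∀ k, x k u = true) ∧ (∃! u, a' u = true ∧ ∀ k, x k u = true) then
        (if ∃ u, a u = true ∧ a' u = true ∧ ∀ k, x k u = true then (1 : ℝ) else
          (2 ^ P - 1) ^ 2 / (Real.sqrt ((univ.filter fun u => a u = true ∧ a' u = false).card) *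
            Real.sqrt ((univ.filter fun u => a u = false ∧ a' u = true).card))) /
          ((univ.filter fun a : V → Bool => ∃! u, a u = true ∧ ∀ k, x k u = true).card : ℝ)
        else 0) ≤ (2 ^ (P + 1) - 1) ^ (Fintype.card V + 1) := by
  have _ := hV
  set K : ℝ := (2 ^ P - 1) ^ 2 with hKd
  have hK : 0 ≤ K := sq_nonneg _
  set c0 : Fin P → Bool := fun _ => true with hc0
  have hQ : (0 : ℝ) ≤ 2 ^ P - 1 := by
    have : (1 : ℝ) ≤ 2 ^ P := one_le_pow₀ (by norm_num)
    linarith
  have h1 : (∑ x : Fin P → V → Bool, ∑ a : V → Bool, ∑ a' : V → Bool,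
      if (∃! u, a u = true ∧ ∀ k, x k u = true) ∧ (∃! u, a' u = true ∧ ∀ k, x k u = true) then
        (if ∃ u, a u = true ∧ a' u = true ∧ ∀ k, x k u = true then (1 : ℝ) else
          K / (Real.sqrt ((univ.filter fun u => a u = true ∧ a' u = false).card) *
            Real.sqrt ((univ.filter fun u => a u = false ∧ a' u = true).card))) /
          ((univ.filter fun a : V → Bool => ∃! u, a u = true ∧ ∀ k, x k u = true).card : ℝ)
        else 0) = ∑ y : V → (Fin P → Bool), SS K (univ.filter fun u => y u = c0) := by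
    rw [← (Equiv.piComm fun (_ : Fin P) (_ : V) => Bool).sum_comp]
    refine sum_congr rfl fun x _ => ?_
    have hm : ∀ u, u ∈ (univ.filter fun u => (Equiv.piComm fun (_ : Fin P) (_ : V) => Bool) x u =
        c0) ↔ ∀ k, x k u = true := by
      intro u
      rw [mem_filter]
      constructor
      · intro h k
        exact congrFun h.2 k
      · intro h
        exact ⟨mem_univ _, funext h⟩
    unfold SS WW NN
    simp only [hm]
  rw [h1]
  have h2 : ∑ y : V → (Fin P → Bool), SS K (univ.filter fun u => y u = c0) = _ :=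
    (by convert fib' c0 (fun I : Finset V => SS K I))
  rw [h2]
  have h3 : ((Fintype.card (Fin P → Bool) : ℕ) : ℝ) = 2 ^ P := by simp
  rw [h3]
  set q : ℝ := 2 * (2 ^ P - 1) with hq
  have hq0 : 0 ≤ q := by positivity
  have h4 : ∀ T : Finset V, ((2 : ℝ) ^ P - 1) ^ (Fintype.card V - T.card) * SS K T ≤
      (if T.card = 0 then 0 else q ^ (Fintype.card V - T.card) +
        q ^ (Fintype.card V - T.card) * q ^ 2 * ((T.card : ℝ) - 1) /
        (((Fintype.card V - T.card : ℕ) : ℝ) + 1)) := by
    intro T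
    have hc : (Tᶜ).card = Fintype.card V - T.card := card_compl T
    by_cases hT : T.card = 0
    · rw [if_pos hT]
      have hT' : T = ∅ := card_eq_zero.1 hT
      rw [ss_eq, hT']
      simp
    · rw [if_neg hT]
      have h5 := ss_le K hK T (card_pos.1 (Nat.pos_of_ne_zero hT))
      rw [hc] at h5
      have h6 : (0 : ℝ) ≤ ((2 : ℝ) ^ P - 1) ^ (Fintype.card V - T.card) := pow_nonneg hQ _
      refine (mul_le_mul_of_nonneg_left h5 h6).trans (le_of_eq ?_)
      rw [hq, mul_pow, hKd]
      ring
  refine (sum_le_sum fun T _ => h4 T).trans ?_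
  rw [← Finset.powerset_univ, Finset.sum_powerset_apply_card (fun t : ℕ => (if t = 0 then 0 else
    q ^ (Fintype.card V - t) + q ^ (Fintype.card V - t) * q ^ 2 * ((t : ℝ) - 1) /
        (((Fintype.card V - t : ℕ) : ℝ) + 1)))]
  simp only [nsmul_eq_mul, card_univ]
  refine (fin q hq0 (Fintype.card V)).trans (le_of_eq ?_)
  congr 1
  rw [hq]
  ring

end Pool.Agent.RQ
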