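import Mathlib
import Pool.Agent.Lib.MP_0a1b52_lc_RQ.Defs

/-!
# Sums over placements and common coordinates
-/

set_option autoImplicit false

namespace Pool.Agent.RQ

open Finset

open Classical in
/-- the number of inputs in `ZZ` whose common coordinates are given by `σ` -/
private noncomputable def cnt (ι : Type) [Fintype ι] (B P : ℕ) (σ : ι → Fin B) : ℕ :=
  ((ZZ ι B P).filter fun q => ∀ τ k, q.1 k (τ, σ τ) = true).card

/-- moving the common coordinates -/
private noncomputable def mv {ι : Type} {B P : ℕ} (σ σ' : ι → Fin B)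
    (q : (Fin P → ι × Fin B → Bool) × (ι × Fin B → Bool)) :
    (Fin P → ι × Fin B → Bool) × (ι × Fin B → Bool) :=
  (fun k u => q.1 k (u.1, Equiv.swap (σ u.1) (σ' u.1) u.2),
    fun u => q.2 (u.1, Equiv.swap (σ u.1) (σ' u.1) u.2))

private theorem mv_mv {ι : Type} {B P : ℕ} (σ σ' : ι → Fin B)
    (q : (Fin P → ι × Fin B → Bool) × (ι × Fin B → Bool)) :
    mv σ' σ (mv σ σ' q) = q := by
  refine Prod.ext ?_ ?_
  · funext k u
    simp only [mv]
    rw [Equiv.swap_comm (σ' u.1) (σ u.1), Equiv.swap_apply_self]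
  · funext u
    simp only [mv]
    rw [Equiv.swap_comm (σ' u.1) (σ u.1), Equiv.swap_apply_self]

private theorem mv_mem {ι : Type} [Fintype ι] {B P : ℕ} (σ σ' : ι → Fin B)
    (q : (Fin P → ι × Fin B → Bool) × (ι × Fin B → Bool)) (hq : q ∈ ZZ ι B P) :
    mv σ σ' q ∈ ZZ ι B P := by
  classical
  simp only [ZZ, Finset.mem_filter, Finset.mem_univ, true_and] at hq ⊢
  refine ⟨?_, ?_⟩
  · intro τ
    obtain ⟨s0, h0, hu⟩ := hq.1 τ
    refine ⟨Equiv.swap (σ τ) (σ' τ) s0, ?_, ?_⟩
    · intro k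
      simp only [mv, Equiv.swap_apply_self]
      exact h0 k
    · intro s hs
      have h1 := hu (Equiv.swap (σ τ) (σ' τ) s) (fun k => hs k)
      rw [← h1, Equiv.swap_apply_self]
  · intro u hu
    exact hq.2 (u.1, Equiv.swap (σ u.1) (σ' u.1) u.2) (fun k => hu k)

private theorem cnt_eq {ι : Type} [Fintype ι] (B P : ℕ) (σ σ' : ι → Fin B) :
    cnt ι B P σ = cnt ι B P σ' := by
  classical
  unfold cnt
  refine Finset.card_bij' (fun q _ => mv σ σ' q) (fun q _ => mv σ' σ q) ?_ ?_ ?_ ?_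
  · intro q hq
    rw [Finset.mem_filter] at hq ⊢
    refine ⟨mv_mem σ σ' q hq.1, ?_⟩
    intro τ k
    simp only [mv, Equiv.swap_apply_right]
    exact hq.2 τ k
  · intro q hq
    rw [Finset.mem_filter] at hq ⊢
    refine ⟨mv_mem σ' σ q hq.1, ?_⟩
    intro τ k
    simp only [mv, Equiv.swap_apply_right]
    exact hq.2 τ k
  · intro q _
    exact mv_mv σ σ' q
  · intro q _
    exact mv_mv σ' σ q

private theorem one_sigma {ι : Type} [Fintype ι] [DecidableEq ι] {B P : ℕ}
    (q : (Fin P → ι × Fin B → Bool) × (ι × Fin B → Bool)) (hq : q ∈ ZZ ι B P) :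
    (univ.filter (fun σ : ι → Fin B => ∀ τ k, q.1 k (τ, σ τ) = true)).card = 1 := by
  classical
  simp only [ZZ, Finset.mem_filter, Finset.mem_univ, true_and] at hq
  choose σ0 h0 hu using hq.1
  rw [Finset.card_eq_one]
  refine ⟨σ0, ?_⟩
  ext σ
  simp only [Finset.mem_filter, Finset.mem_univ, true_and, Finset.mem_singleton]
  constructor
  · intro h
    funext τ
    exact hu τ (σ τ) (h τ)
  · rintro rfl
    exact h0

private theorem sum_cnt {ι : Type} [Fintype ι] [DecidableEq ι] (B P : ℕ) :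
    ∑ σ : ι → Fin B, cnt ι B P σ = (ZZ ι B P).card := by
  classical
  have h1 : ∀ σ : ι → Fin B, cnt ι B P σ =
      ∑ q ∈ ZZ ι B P, if (∀ τ k, q.1 k (τ, σ τ) = true) then 1 else 0 := by
    intro σ
    unfold cnt
    rw [Finset.card_filter]
  rw [Finset.sum_congr rfl (fun σ _ => h1 σ), Finset.sum_comm, Finset.card_eq_sum_ones]
  refine Finset.sum_congr rfl (fun q hq => ?_)
  rw [← Finset.card_filter]
  convert one_sigma q hq

open Classical in
theorem sum_common {ι : Type} [Fintype ι] (B P : ℕ) (f : (ι → Fin B) → ℝ) :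
    (∑ q ∈ ZZ ι B P, ∑ σ ∈ univ.filter (fun σ : ι → Fin B => ∀ τ k, q.1 k (τ, σ τ) = true), f σ) *
      (B : ℝ) ^ Fintype.card ι = (ZZ ι B P).card * ∑ σ, f σ := by
  have h1 : ∑ q ∈ ZZ ι B P, ∑ σ ∈ univ.filter
      (fun σ : ι → Fin B => ∀ τ k, q.1 k (τ, σ τ) = true), f σ =
      ∑ σ, (cnt ι B P σ : ℝ) * f σ := by
    have h2 : ∀ q ∈ ZZ ι B P, ∑ σ ∈ univ.filter
        (fun σ : ι → Fin B => ∀ τ k, q.1 k (τ, σ τ) = true), f σ =
        ∑ σ, if (∀ τ k, q.1 k (τ, σ τ) = true) then f σ else 0 := by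
      intro q _
      rw [Finset.sum_filter]
    rw [Finset.sum_congr rfl h2, Finset.sum_comm]
    refine Finset.sum_congr rfl (fun σ _ => ?_)
    rw [← Finset.sum_filter, Finset.sum_const, nsmul_eq_mul]
    congr 2
  have h3 : ∀ σ : ι → Fin B, (cnt ι B P σ : ℝ) * (B : ℝ) ^ Fintype.card ι =
      ((ZZ ι B P).card : ℝ) := by
    intro σ
    have h4 : (ZZ ι B P).card = B ^ Fintype.card ι * cnt ι B P σ := by
      rw [← sum_cnt, Finset.sum_congr rfl (fun σ' _ => cnt_eq B P σ' σ), Finset.sum_const,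
        Finset.card_univ, Fintype.card_fun, Fintype.card_fin, smul_eq_mul]
    rw [h4]
    push_cast
    ring
  rw [h1, Finset.sum_mul, Finset.mul_sum]
  refine Finset.sum_congr rfl (fun σ _ => ?_)
  rw [← h3 σ]
  ring

theorem ZZ_nonempty {ι : Type} [Fintype ι] {B : ℕ} (P : ℕ) (hP : 0 < P) (hB : 0 < B) :
    (ZZ ι B P).Nonempty := by
  classical
  refine ⟨(fun _ u => decide (u.2 = ⟨0, hB⟩), fun _ => false), ?_⟩
  refine Finset.mem_filter.mpr ⟨Finset.mem_univ _, ?_, fun u _ => rfl⟩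
  intro τ
  refine ⟨⟨0, hB⟩, ?_, ?_⟩
  · intro k
    simp
  · intro s hs
    exact of_decide_eq_true (hs ⟨0, hP⟩)

/-- the number of systems whose value at `s` is in a given set -/
private theorem card_at {α : Type} [Fintype α] [DecidableEq α] {B : ℕ} (Sf : Finset α)
    (s : Fin B) :
    (univ.filter fun χ : Fin B → α => χ s ∈ Sf).card * Fintype.card α =
      Sf.card * Fintype.card α ^ B := by
  classical
  have h1 : (univ.filter fun χ : Fin B → α => χ s ∈ Sf) =
      Fintype.piFinset (fun i => if i = s then Sf else (univ : Finset α)) := by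
    ext χ
    simp only [Finset.mem_filter, Finset.mem_univ, true_and, Fintype.mem_piFinset]
    constructor
    · intro h i
      by_cases hi : i = s
      · rw [if_pos hi, hi]; exact h
      · rw [if_neg hi]; exact Finset.mem_univ _
    · intro h
      have h2 := h s
      rw [if_pos rfl] at h2
      exact h2
  rw [h1, Fintype.card_piFinset]
  have h3 : ∀ i ∈ univ.erase s, (if i = s then Sf else (univ : Finset α)).card =
      Fintype.card α := by
    intro i hi
    rw [if_neg (Finset.ne_of_mem_erase hi), Finset.card_univ]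
  rw [← Finset.mul_prod_erase univ _ (Finset.mem_univ s), if_pos rfl,
    Finset.prod_congr rfl h3, Finset.prod_const, Finset.card_erase_of_mem (Finset.mem_univ s),
    Finset.card_univ, Fintype.card_fin, mul_assoc, ← pow_succ]
  have hB : B - 1 + 1 = B := by
    have := s.pos
    omega
  rw [hB]

open Classical in
theorem good_sum {Jt : Type} [Fintype Jt] (G B N L : ℕ) (S : Set (Jt → Fin N)) (ρ : ℝ)
    (hB : 0 < B) (h0 : 0 ≤ ρ) (hρ : ρ * (N : ℝ) ^ Fintype.card Jt ≤ (Nat.card S : ℝ))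
    (hL : (L : ℝ) / B ≤ ρ / 2) :
    ∑ φ : (Fin G × Fin B) × Jt → Fin N, ∑ σ : Fin G → Fin B, (1 / 2 : ℝ) ^
      (univ.filter fun τ : Fin G => L ≤ (univ.filter fun s : Fin B =>
        (fun j => φ ((τ, s), j)) ∈ S).card ∧ (fun j => φ ((τ, σ τ), j)) ∈ S).card ≤
      (N : ℝ) ^ (Fintype.card (Fin G × Fin B) * Fintype.card Jt) * (B : ℝ) ^ G *
        (2 : ℝ) ^ (-(ρ * G / 4)) := by
  set M : ℝ := (N : ℝ) ^ Fintype.card Jt with hM
  have hM0 : 0 ≤ M := by positivity
  have hBR : (0 : ℝ) < B := by exact_mod_cast hB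
  have hcα : (Fintype.card (Jt → Fin N) : ℝ) = M := by
    rw [Fintype.card_fun, Fintype.card_fin, hM]
    push_cast
    rfl
  let E : ((Fin G × Fin B) × Jt → Fin N) ≃ (Fin G → (Fin B → (Jt → Fin N))) :=
    { toFun := fun φ τ s j => φ ((τ, s), j)
      invFun := fun ψ x => ψ x.1.1 x.1.2 x.2
      left_inv := fun φ => rfl
      right_inv := fun ψ => rfl }
  let A : (Fin B → (Jt → Fin N)) → ℕ := fun χ => (univ.filter fun s => χ s ∈ S).card
  let c : (Fin B → (Jt → Fin N)) → Fin B → ℝ := fun χ s =>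
    if L ≤ A χ ∧ χ s ∈ S then (1 / 2 : ℝ) else 1
  have hprod : ∀ (ψ : Fin G → (Fin B → (Jt → Fin N))) (σ : Fin G → Fin B),
      (1 / 2 : ℝ) ^ (univ.filter fun τ : Fin G => L ≤ A (ψ τ) ∧ ψ τ (σ τ) ∈ S).card =
        ∏ τ, c (ψ τ) (σ τ) := by
    intro ψ σ
    simp only [c]
    rw [Finset.prod_ite, Finset.prod_const, Finset.prod_const_one, mul_one]
  have htot : ∑ φ : (Fin G × Fin B) × Jt → Fin N, ∑ σ : Fin G → Fin B, (1 / 2 : ℝ) ^
      (univ.filter fun τ : Fin G => L ≤ (univ.filter fun s : Fin B =>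
        (fun j => φ ((τ, s), j)) ∈ S).card ∧ (fun j => φ ((τ, σ τ), j)) ∈ S).card =
      (∑ χ : Fin B → (Jt → Fin N), ∑ s, c χ s) ^ G := by
    have h1 : (∑ χ : Fin B → (Jt → Fin N), ∑ s, c χ s) ^ G =
        ∑ ψ : Fin G → (Fin B → (Jt → Fin N)), ∑ σ : Fin G → Fin B, ∏ τ, c (ψ τ) (σ τ) := by
      rw [Fintype.sum_pow]
      refine Finset.sum_congr rfl (fun ψ _ => ?_)
      rw [Finset.prod_univ_sum, Fintype.piFinset_univ]
    rw [h1, ← Equiv.sum_comp E]
    refine Finset.sum_congr rfl (fun φ _ => Finset.sum_congr rfl (fun σ _ => ?_))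
    exact hprod (E φ) σ
  have hcle : ∀ χ : Fin B → (Jt → Fin N), ∑ s, c χ s ≤ B - ((A χ : ℝ) - L) / 2 := by
    intro χ
    by_cases hLA : L ≤ A χ
    · have h2 : ∀ s, c χ s = 1 - (if χ s ∈ S then (1 / 2 : ℝ) else 0) := by
        intro s
        simp only [c]
        by_cases hs : χ s ∈ S
        · rw [if_pos ⟨hLA, hs⟩, if_pos hs]; norm_num
        · rw [if_neg (fun h => hs h.2), if_neg hs]; norm_num
      rw [Finset.sum_congr rfl (fun s _ => h2 s), Finset.sum_sub_distrib, Finset.sum_const,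
        Finset.card_univ, Fintype.card_fin, ← Finset.sum_filter, Finset.sum_const,
        nsmul_eq_mul, nsmul_eq_mul, mul_one]
      have h3 : (0 : ℝ) ≤ L := Nat.cast_nonneg L
      have h4 : ((univ.filter fun s => χ s ∈ S).card : ℝ) = (A χ : ℝ) := rfl
      rw [h4]
      linarith
    · have h2 : ∀ s, c χ s ≤ 1 := by
        intro s
        simp only [c]
        split_ifs
        · norm_num
        · exact le_refl _
      have h3 : ∑ s, c χ s ≤ ∑ s : Fin B, (1 : ℝ) := Finset.sum_le_sum (fun s _ => h2 s)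
      rw [Finset.sum_const, Finset.card_univ, Fintype.card_fin, nsmul_eq_mul, mul_one] at h3
      have h5 : (A χ : ℝ) < L := by exact_mod_cast Nat.lt_of_not_le hLA
      linarith
  have hAsum : ρ * (B * M ^ B) ≤ ∑ χ : Fin B → (Jt → Fin N), (A χ : ℝ) := by
    have h6 : ∑ χ : Fin B → (Jt → Fin N), (A χ : ℝ) =
        ∑ s : Fin B, ((univ.filter fun χ : Fin B → (Jt → Fin N) => χ s ∈ S).card : ℝ) := by
      have h7 : ∀ χ : Fin B → (Jt → Fin N), (A χ : ℝ) = ∑ s, if χ s ∈ S then (1 : ℝ) else 0 := by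
        intro χ
        rw [← Finset.sum_filter, Finset.sum_const, nsmul_eq_mul, mul_one]
      have h8 : ∀ s : Fin B, ((univ.filter fun χ : Fin B → (Jt → Fin N) => χ s ∈ S).card : ℝ) =
          ∑ χ : Fin B → (Jt → Fin N), if χ s ∈ S then (1 : ℝ) else 0 := by
        intro s
        rw [← Finset.sum_filter, Finset.sum_const, nsmul_eq_mul, mul_one]
      rw [Finset.sum_congr rfl (fun χ _ => h7 χ), Finset.sum_congr rfl (fun s _ => h8 s),
        Finset.sum_comm]
    have h9 : ∀ s : Fin B, ρ * M ^ B ≤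
        ((univ.filter fun χ : Fin B → (Jt → Fin N) => χ s ∈ S).card : ℝ) := by
      intro s
      have h10 := card_at (S.toFinset) s
      have h11 : (univ.filter fun χ : Fin B → (Jt → Fin N) => χ s ∈ S.toFinset) =
          (univ.filter fun χ : Fin B → (Jt → Fin N) => χ s ∈ S) := by
        refine Finset.filter_congr (fun χ _ => ?_)
        exact Set.mem_toFinset
      rw [h11] at h10
      have h12 : (Nat.card S : ℝ) = (S.toFinset.card : ℝ) := by
        rw [Nat.card_eq_fintype_card, Set.toFinset_card]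
      have h13 : ((univ.filter fun χ : Fin B → (Jt → Fin N) => χ s ∈ S).card : ℝ) * M =
          (Nat.card S : ℝ) * M ^ B := by
        rw [h12, ← hcα]
        exact_mod_cast h10
      rcases hM0.eq_or_lt with hz | hpos
      · rw [← hz, zero_pow hB.ne', mul_zero]
        exact Nat.cast_nonneg _
      · have h14 : ρ * M ^ B * M ≤
            ((univ.filter fun χ : Fin B → (Jt → Fin N) => χ s ∈ S).card : ℝ) * M := by
          rw [h13]
          calc ρ * M ^ B * M = (ρ * M) * M ^ B := by ring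
            _ ≤ (Nat.card S : ℝ) * M ^ B :=
              mul_le_mul_of_nonneg_right hρ (pow_nonneg hM0 _)
        exact le_of_mul_le_mul_right h14 hpos
    rw [h6]
    calc ρ * (B * M ^ B) = ∑ s : Fin B, ρ * M ^ B := by
          rw [Finset.sum_const, Finset.card_univ, Fintype.card_fin, nsmul_eq_mul]
          ring
      _ ≤ _ := Finset.sum_le_sum (fun s _ => h9 s)
  have hLB : (L : ℝ) ≤ ρ * B / 2 := by
    rw [div_le_iff₀ hBR] at hL
    linarith
  have hMB : (0 : ℝ) ≤ M ^ B := pow_nonneg hM0 _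
  have hbase : ∑ χ : Fin B → (Jt → Fin N), ∑ s, c χ s ≤ B * M ^ B * (1 - ρ / 4) := by
    have h15 : ∑ χ : Fin B → (Jt → Fin N), ∑ s, c χ s ≤
        ∑ χ : Fin B → (Jt → Fin N), ((B : ℝ) - ((A χ : ℝ) - L) / 2) :=
      Finset.sum_le_sum (fun χ _ => hcle χ)
    have hcard : (Fintype.card (Fin B → (Jt → Fin N)) : ℝ) = M ^ B := by
      rw [Fintype.card_fun, Fintype.card_fin, Nat.cast_pow, hcα]
    have h16 : ∑ χ : Fin B → (Jt → Fin N), ((B : ℝ) - ((A χ : ℝ) - L) / 2) =
        (B + L / 2) * M ^ B - (∑ χ : Fin B → (Jt → Fin N), (A χ : ℝ)) / 2 := by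
      have h17 : ∀ χ : Fin B → (Jt → Fin N), ((B : ℝ) - ((A χ : ℝ) - L) / 2) =
          (B + L / 2) - (A χ : ℝ) / 2 := by
        intro χ
        ring
      rw [Finset.sum_congr rfl (fun χ _ => h17 χ), Finset.sum_sub_distrib, Finset.sum_const,
        Finset.card_univ, nsmul_eq_mul, hcard, ← Finset.sum_div]
      ring
    rw [h16] at h15
    have h18 : (L : ℝ) * M ^ B ≤ ρ * B / 2 * M ^ B := mul_le_mul_of_nonneg_right hLB hMB
    nlinarith [h15, h18, hAsum]
  have hbase0 : 0 ≤ ∑ χ : Fin B → (Jt → Fin N), ∑ s, c χ s := by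
    refine Finset.sum_nonneg (fun χ _ => Finset.sum_nonneg (fun s _ => ?_))
    simp only [c]
    split_ifs
    · norm_num
    · norm_num
  have hy : 1 - ρ / 4 ≤ (2 : ℝ) ^ (-(ρ / 4)) := by
    rw [Real.rpow_def_of_pos (by norm_num)]
    have h4 := Real.add_one_le_exp (Real.log 2 * (-(ρ / 4)))
    have h5 : Real.log 2 ≤ 1 := by
      have := Real.log_two_lt_d9
      linarith
    have h6 : Real.log 2 * (ρ / 4) ≤ 1 * (ρ / 4) :=
      mul_le_mul_of_nonneg_right h5 (by linarith)
    linarith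
  rw [htot]
  calc (∑ χ : Fin B → (Jt → Fin N), ∑ s, c χ s) ^ G
      ≤ (B * M ^ B * (2 : ℝ) ^ (-(ρ / 4))) ^ G := by
        refine pow_le_pow_left₀ hbase0 (hbase.trans ?_) G
        exact mul_le_mul_of_nonneg_left hy (by positivity)
    _ = _ := by
        rw [mul_pow, mul_pow, ← pow_mul, ← Real.rpow_natCast ((2 : ℝ) ^ (-(ρ / 4))) G,
          ← Real.rpow_mul (by norm_num), Fintype.card_prod, Fintype.card_fin,
          Fintype.card_fin, hM, ← pow_mul]
        have h19 : Fintype.card Jt * (B * G) = G * B * Fintype.card Jt := by ring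
        have h20 : -(ρ / 4) * (G : ℝ) = -(ρ * G / 4) := by ring
        rw [h19, h20]
        ring

end Pool.Agent.RQ
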