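import Mathlib
import Pool.Agent.Lib.MP_0a1b52_lc_RQ.Defs

set_option autoImplicit false

open Finset

namespace Pool.Agent.RQ

open Classical in
theorem fact {U J C : Type} [Fintype U] [Fintype J] [Fintype C] (γ : U → Option J) (b : U → C)
    (φ : ∀ j, ({u // γ u = some j} → C) → ℝ) :
    (∑ F ∈ (univ.filter fun F : U → C => Off γ b F), ∏ j, φ j fun u => F u.1) =
      ∏ j, ∑ f, φ j f := by
  rw [Finset.prod_univ_sum, Fintype.piFinset_univ]
  refine Finset.sum_bij' (fun F _ => fun (j : J) (u : {u // γ u = some j}) => F u.1)
    (fun g _ => fun u => match h : γ u with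
      | none => b u
      | some j => g j ⟨u, h⟩) ?_ ?_ ?_ ?_ ?_
  · intro F _
    exact Finset.mem_univ _
  · intro g _
    rw [Finset.mem_filter]
    refine ⟨Finset.mem_univ _, ?_⟩
    intro u hu
    dsimp only
    split
    · rfl
    · rename_i j h
      rw [hu] at h
      cases h
  · intro F hF
    rw [Finset.mem_filter] at hF
    funext u
    dsimp only
    split
    · rename_i h
      exact (hF.2 u h).symm
    · rfl
  · intro g _
    funext j u
    dsimp only
    obtain ⟨u, hu⟩ := u
    dsimp only
    split
    · rename_i h
      rw [hu] at h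
      cases h
    · rename_i j' h
      rw [hu] at h
      cases h
      rfl
  · intro F _
    rfl

end Pool.Agent.RQ
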