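import Mathlib
import Pool.Agent.Lib.MP_0a1b52_lc_RQ.Defs
import Pool.Agent.Lib.MP_0a1b52_lc_RQ.Fact
import Pool.Agent.Lib.MP_0a1b52_lc_RQ.Block

/-!
# Local proofs with many sets: all blocks
-/

set_option autoImplicit false

namespace Pool.Agent.RQ

open Finset

/-- sums do not depend on the enumeration of the type -/
private theorem sum_inst {α : Type} (i₁ i₂ : Fintype α) (f : α → ℝ) :
    @Finset.sum α ℝ _ (@Finset.univ α i₁) f = @Finset.sum α ℝ _ (@Finset.univ α i₂) f := by
  rw [Subsingleton.elim i₁ i₂]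

open Classical in
/-- the integrand of `block` -/
private noncomputable def blk (V : Type) [Fintype V] (P : ℕ) (x : Fin P → V → Bool)
    (a a' : V → Bool) : ℝ :=
  if (∃! u, a u = true ∧ ∀ k, x k u = true) ∧ (∃! u, a' u = true ∧ ∀ k, x k u = true) then
    (if ∃ u, a u = true ∧ a' u = true ∧ ∀ k, x k u = true then (1 : ℝ) else
      (2 ^ P - 1) ^ 2 / (Real.sqrt ((univ.filter fun u => a u = true ∧ a' u = false).card) *
        Real.sqrt ((univ.filter fun u => a u = false ∧ a' u = true).card))) /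
      ((univ.filter fun a : V → Bool => ∃! u, a u = true ∧ ∀ k, x k u = true).card : ℝ)
    else 0

private theorem exu_sub {U J : Type} (γ : U → Option J) (j : J) (p : U → Prop) :
    (∃! u, γ u = some j ∧ p u) ↔ ∃! u : {u // γ u = some j}, p u.1 := by
  constructor
  · rintro ⟨u, ⟨hu, hp⟩, hun⟩
    exact ⟨⟨u, hu⟩, hp, fun v hv => Subtype.ext (hun v.1 ⟨v.2, hv⟩)⟩
  · rintro ⟨u, hp, hun⟩
    exact ⟨u.1, ⟨u.2, hp⟩, fun v hv => congrArg Subtype.val (hun ⟨v, hv.1⟩ hv.2)⟩

private theorem one_cons {U J : Type} {P : ℕ} (γ : U → Option J)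
    (x : Fin P → U → Bool) (a : U → Bool) :
    One γ (Fin.cons a x : Fin (P + 1) → U → Bool) ↔
      ∀ j, ∃! u : {u // γ u = some j}, a u.1 = true ∧ ∀ k, x k u.1 = true := by
  unfold One
  refine forall_congr' fun j => ?_
  rw [← exu_sub γ j (fun u => a u = true ∧ ∀ k, x k u = true)]
  refine existsUnique_congr fun u => ?_
  rw [Fin.forall_fin_succ]
  simp

private theorem mem_Nx {U J : Type} [Fintype U] {P : ℕ} (γ : U → Option J)
    (b0 : U → Bool) (x : Fin P → U → Bool) (a : U → Bool) :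
    a ∈ Nx γ b0 x ↔ Off γ b0 a ∧
      ∀ j, ∃! u : {u // γ u = some j}, a u.1 = true ∧ ∀ k, x k u.1 = true := by
  classical
  unfold Nx
  rw [mem_filter, one_cons]
  simp only [mem_univ, true_and]

private theorem card_sub {U J : Type} [Fintype U] (γ : U → Option J) (j : J) (p : U → Prop)
    [DecidablePred fun u => γ u = some j ∧ p u] [Fintype {u // γ u = some j}]
    [DecidablePred fun u : {u // γ u = some j} => p u.1] :
    (univ.filter fun u => γ u = some j ∧ p u).card =
      (univ.filter fun u : {u // γ u = some j} => p u.1).card := by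
  symm
  refine Finset.card_nbij (fun u => u.1) ?_ ?_ ?_
  · intro u hu
    have hu' := (mem_filter.1 hu).2
    exact mem_filter.2 ⟨mem_univ _, u.2, hu'⟩
  · intro u _ v _ h
    exact Subtype.ext h
  · intro u hu
    have hu' := (mem_filter.1 (mem_coe.1 hu)).2
    exact ⟨⟨u, hu'.1⟩, mem_coe.2 (mem_filter.2 ⟨mem_univ _, hu'.2⟩), rfl⟩

open Classical in
private theorem wt_eq {U J : Type} [Fintype U] {P : ℕ} (γ : U → Option J) (a a' : U → Bool)
    (x : Fin P → U → Bool) (j : J) :
    wt γ a a' x j =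
      if ∃ u : {u // γ u = some j}, a u.1 = true ∧ a' u.1 = true ∧ ∀ k, x k u.1 = true then 1 else
      (2 ^ P - 1) ^ 2 / (Real.sqrt ((univ.filter fun u : {u // γ u = some j} => a u.1 = true ∧
      a' u.1 = false).card) * Real.sqrt ((univ.filter fun u : {u // γ u = some j} =>
        a u.1 = false ∧ a' u.1 = true).card)) := by
  unfold wt
  rw [card_sub γ j (fun u => a u = true ∧ a' u = false),
    card_sub γ j (fun u => a u = false ∧ a' u = true)]
  refine if_congr ?_ rfl rfl
  constructor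
  · rintro ⟨u, hu, h1, h2, h3⟩
    exact ⟨⟨u, hu⟩, h1, h2, h3⟩
  · rintro ⟨u, h1, h2, h3⟩
    exact ⟨u.1, u.2, h1, h2, h3⟩

open Classical in
private theorem card_Nx {U J : Type} [Fintype U] [Fintype J] {P : ℕ} (γ : U → Option J)
    (b0 : U → Bool) (x : Fin P → U → Bool) :
    ((Nx γ b0 x).card : ℝ) = ∏ j, ((univ.filter fun a : {u // γ u = some j} → Bool =>
      ∃! u, a u = true ∧ ∀ k, x k u.1 = true).card : ℝ) := by
  have h := fact γ b0 (fun j (f : {u // γ u = some j} → Bool) =>
    if ∃! u, f u = true ∧ ∀ k, x k u.1 = true then (1 : ℝ) else 0)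
  have h2 : ∀ j, (∑ f : {u // γ u = some j} → Bool,
      if ∃! u, f u = true ∧ ∀ k, x k u.1 = true then (1 : ℝ) else 0) =
      ((univ.filter fun a : {u // γ u = some j} → Bool =>
      ∃! u, a u = true ∧ ∀ k, x k u.1 = true).card : ℝ) := by
    intro j
    rw [Finset.card_filter]
    push_cast
    rfl
  have h3 : ((Nx γ b0 x).card : ℝ) = ∑ F ∈ (univ.filter fun F : U → Bool => Off γ b0 F), ∏ j,
      if ∃! u : {u // γ u = some j}, F u.1 = true ∧ ∀ k, x k u.1 = true then (1 : ℝ) else 0 := by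
    have h4 : ∀ F : U → Bool, (∏ j,
      if ∃! u : {u // γ u = some j}, F u.1 = true ∧ ∀ k, x k u.1 = true then (1 : ℝ) else 0) =
      if (∀ j, ∃! u : {u // γ u = some j}, F u.1 = true ∧ ∀ k, x k u.1 = true) then
        (1 : ℝ) else 0 := by
      intro F
      rw [Finset.prod_ite_zero]
      simp
    rw [Finset.sum_congr rfl (fun F _ => h4 F), ← Finset.sum_filter, Finset.filter_filter,
      Finset.sum_const, nsmul_eq_mul, mul_one]
    congr 2
    ext F
    rw [mem_Nx, mem_filter]
    simp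
  rw [h3, h]
  exact Finset.prod_congr rfl fun j _ => h2 j

open Classical in
private theorem prod_blk {U J : Type} [Fintype U] [Fintype J] {P : ℕ} (γ : U → Option J)
    (b0 : U → Bool) (x : Fin P → U → Bool) (a a' : U → Bool) (ha : Off γ b0 a)
    (ha' : Off γ b0 a') :
    (if a ∈ Nx γ b0 x ∧ a' ∈ Nx γ b0 x then
      (∏ j, wt γ a a' x j) / ((Nx γ b0 x).card : ℝ) else 0) =
      ∏ j, blk {u // γ u = some j} P (fun k u => x k u.1) (fun u => a u.1) (fun u => a' u.1) := by
  have hiff : (a ∈ Nx γ b0 x ∧ a' ∈ Nx γ b0 x) ↔ ∀ j ∈ (univ : Finset J),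
      (∃! u : {u // γ u = some j}, a u.1 = true ∧ ∀ k, x k u.1 = true) ∧
      (∃! u : {u // γ u = some j}, a' u.1 = true ∧ ∀ k, x k u.1 = true) := by
    rw [mem_Nx, mem_Nx]
    constructor
    · rintro ⟨⟨_, h1⟩, _, h2⟩ j _
      exact ⟨h1 j, h2 j⟩
    · intro h
      exact ⟨⟨ha, fun j => (h j (mem_univ _)).1⟩, ha', fun j => (h j (mem_univ _)).2⟩
  unfold blk
  rw [Finset.prod_ite_zero, card_Nx]
  by_cases h : a ∈ Nx γ b0 x ∧ a' ∈ Nx γ b0 x
  · rw [if_pos h, if_pos (hiff.1 h), ← Finset.prod_div_distrib]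
    refine Finset.prod_congr rfl fun j _ => ?_
    rw [wt_eq]
    congr
    exact Subsingleton.elim _ _
  · rw [if_neg h, if_neg (fun h' => h (hiff.2 h'))]

/-- the contents of a coordinate -/
private abbrev Ct (P : ℕ) : Type := Bool × Bool × (Fin P → Bool) × Bool

open Classical in
private theorem left_eq {U J : Type} [Fintype U] [Fintype J] (P : ℕ) (γ : U → Option J)
    (b : Fin (P + 1) → U → Bool) (bY : U → Bool) :
    (∑ a ∈ univ.filter (Off γ (b 0)), ∑ a' ∈ univ.filter (Off γ (b 0)),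
      ∑ q ∈ univ.filter (fun q : (Fin P → U → Bool) × (U → Bool) =>
          (∀ k, Off γ (b k.succ) (q.1 k)) ∧ Off γ bY q.2 ∧ a ∈ Nx γ (b 0) q.1 ∧
            a' ∈ Nx γ (b 0) q.1),
        (∏ j, wt γ a a' q.1 j) / (Nx γ (b 0) q.1).card) =
      ∑ F ∈ (univ.filter fun F : U → Ct P =>
          Off γ (fun u => (b 0 u, b 0 u, fun k => b k.succ u, bY u)) F),
        ∏ j, blk {u // γ u = some j} P (fun k u => (F u.1).2.2.1 k) (fun u => (F u.1).1)
          (fun u => (F u.1).2.1) := by
  have h1 : ∀ a ∈ univ.filter (Off γ (b 0)), ∀ a' ∈ univ.filter (Off γ (b 0)),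
      (∑ q ∈ univ.filter (fun q : (Fin P → U → Bool) × (U → Bool) =>
          (∀ k, Off γ (b k.succ) (q.1 k)) ∧ Off γ bY q.2 ∧ a ∈ Nx γ (b 0) q.1 ∧
            a' ∈ Nx γ (b 0) q.1),
        (∏ j, wt γ a a' q.1 j) / ((Nx γ (b 0) q.1).card : ℝ)) =
      ∑ q ∈ univ.filter (fun q : (Fin P → U → Bool) × (U → Bool) =>
          (∀ k, Off γ (b k.succ) (q.1 k)) ∧ Off γ bY q.2),
        ∏ j, blk {u // γ u = some j} P (fun k u => q.1 k u.1) (fun u => a u.1)
          (fun u => a' u.1) := by
    intro a ha a' ha'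
    have ha2 : Off γ (b 0) a := (mem_filter.1 ha).2
    have ha2' : Off γ (b 0) a' := (mem_filter.1 ha').2
    symm
    rw [Finset.sum_congr rfl (fun q _ => (prod_blk γ (b 0) q.1 a a' ha2 ha2').symm),
      ← Finset.sum_filter, Finset.filter_filter]
    refine Finset.sum_congr ?_ fun _ _ => rfl
    refine Finset.filter_congr fun q _ => ?_
    tauto
  rw [Finset.sum_congr rfl (fun a ha => Finset.sum_congr rfl (fun a' ha' => h1 a ha a' ha'))]
  rw [Finset.sum_congr rfl (fun a _ => (Finset.sum_product _ _ (fun t : (U → Bool) ×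
      ((Fin P → U → Bool) × (U → Bool)) =>
        ∏ j, blk {u // γ u = some j} P (fun k u => t.2.1 k u.1) (fun u => a u.1)
          (fun u => t.1 u.1))).symm)]
  rw [← Finset.sum_product _ _ (fun t : (U → Bool) × (U → Bool) ×
      ((Fin P → U → Bool) × (U → Bool)) =>
        ∏ j, blk {u // γ u = some j} P (fun k u => t.2.2.1 k u.1) (fun u => t.1 u.1)
          (fun u => t.2.1 u.1))]
  symm
  refine Finset.sum_nbij' (fun F => (fun u => (F u).1, fun u => (F u).2.1,
      (fun k u => (F u).2.2.1 k, fun u => (F u).2.2.2)))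
    (fun t u => (t.1 u, t.2.1 u, fun k => t.2.2.1 k u, t.2.2.2 u)) ?_ ?_ ?_ ?_ ?_
  · intro F hF
    have hF' := (mem_filter.1 hF).2
    simp only [mem_product, mem_filter, mem_univ, true_and]
    refine ⟨fun u hu => ?_, fun u hu => ?_, fun k u hu => ?_, fun u hu => ?_⟩
    · show (F u).1 = _
      rw [hF' u hu]
    · show (F u).2.1 = _
      rw [hF' u hu]
    · show (F u).2.2.1 k = _
      rw [hF' u hu]
    · show (F u).2.2.2 = _
      rw [hF' u hu]
  · intro t ht
    simp only [mem_product, mem_filter, mem_univ, true_and] at ht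
    refine mem_filter.2 ⟨mem_univ _, fun u hu => ?_⟩
    obtain ⟨h1, h2, h3, h4⟩ := ht
    show (t.1 u, t.2.1 u, (fun k => t.2.2.1 k u), t.2.2.2 u) = _
    rw [h1 u hu, h2 u hu, h4 u hu]
    have h5 : (fun k => t.2.2.1 k u) = fun k => b k.succ u := funext fun k => h3 k u hu
    rw [h5]
  · intro F _
    rfl
  · intro t _
    rfl
  · intro F _
    rfl

open Classical in
private theorem sum_ct (V : Type) [Fintype V] (P : ℕ) (hV : 0 < Fintype.card V) :
    (∑ f : V → Ct P, blk V P (fun k u => (f u).2.2.1 k) (fun u => (f u).1) (fun u => (f u).2.1)) ≤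
      2 ^ Fintype.card V * (2 ^ (P + 1) - 1) ^ (Fintype.card V + 1) := by
  let e : (V → Ct P) ≃ (Fin P → V → Bool) × (V → Bool) × (V → Bool) × (V → Bool) :=
    { toFun := fun f => (fun k u => (f u).2.2.1 k, fun u => (f u).1, fun u => (f u).2.1,
        fun u => (f u).2.2.2)
      invFun := fun t u => (t.2.1 u, t.2.2.1 u, fun k => t.1 k u, t.2.2.2 u)
      left_inv := fun f => rfl
      right_inv := fun t => rfl }
  have h1 : (∑ f : V → Ct P, blk V P (fun k u => (f u).2.2.1 k) (fun u => (f u).1)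
      (fun u => (f u).2.1)) =
      ∑ t : (Fin P → V → Bool) × (V → Bool) × (V → Bool) × (V → Bool),
        blk V P t.1 t.2.1 t.2.2.1 :=
    Fintype.sum_equiv e _ _ fun f => rfl
  rw [h1, Fintype.sum_prod_type]
  have h2 : ∀ x : Fin P → V → Bool, (∑ t : (V → Bool) × (V → Bool) × (V → Bool),
      blk V P x t.1 t.2.1) = 2 ^ Fintype.card V * ∑ a, ∑ a', blk V P x a a' := by
    intro x
    rw [Fintype.sum_prod_type, Finset.mul_sum]
    refine Finset.sum_congr rfl fun a _ => ?_
    rw [Fintype.sum_prod_type, Finset.mul_sum]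
    refine Finset.sum_congr rfl fun a' _ => ?_
    simp
  rw [Finset.sum_congr rfl (fun x _ => h2 x), ← Finset.mul_sum]
  refine mul_le_mul_of_nonneg_left ?_ (by positivity)
  exact block V P hV

open Classical in
private theorem sum_ct_zero (V : Type) [Fintype V] (P : ℕ) (hV : Fintype.card V = 0) :
    (∑ f : V → Ct P, blk V P (fun k u => (f u).2.2.1 k) (fun u => (f u).1) (fun u => (f u).2.1)) =
      0 := by
  have : IsEmpty V := Fintype.card_eq_zero_iff.1 hV
  refine Finset.sum_eq_zero fun f _ => ?_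
  unfold blk
  rw [if_neg]
  rintro ⟨⟨u, _⟩, _⟩
  exact isEmptyElim u

open Classical in
private theorem sum_ct2 (V : Type) [Fintype V] (P : ℕ) :
    (∑ f : V → Bool × (Fin P → Bool) × Bool,
      if ∃! u, (f u).1 = true ∧ ∀ k, (f u).2.1 k = true then (1 : ℝ) else 0) =
      2 ^ Fintype.card V * (Fintype.card V * (2 ^ (P + 1) - 1) ^ (Fintype.card V - 1)) := by
  rw [← block_card]
  let e : (V → Bool × (Fin P → Bool) × Bool) ≃ ((V → Bool) × (Fin P → V → Bool)) × (V → Bool) :=
    { toFun := fun f => ((fun u => (f u).1, fun k u => (f u).2.1 k), fun u => (f u).2.2)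
      invFun := fun t u => (t.1.1 u, fun k => t.1.2 k u, t.2 u)
      left_inv := fun f => rfl
      right_inv := fun t => rfl }
  have h3 : (∑ f : V → Bool × (Fin P → Bool) × Bool,
      if ∃! u, (f u).1 = true ∧ ∀ k, (f u).2.1 k = true then (1 : ℝ) else 0) =
      ∑ t : ((V → Bool) × (Fin P → V → Bool)) × (V → Bool),
        if ∃! u, t.1.1 u = true ∧ ∀ k, t.1.2 k u = true then (1 : ℝ) else 0 :=
    Fintype.sum_equiv e _ _ fun f => rfl
  rw [h3, Fintype.sum_prod_type, Finset.card_filter, Nat.cast_sum, Finset.mul_sum]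
  refine Finset.sum_congr rfl fun q _ => ?_
  change (∑ _y : V → Bool, if ∃! u, q.1 u = true ∧ ∀ k, q.2 k u = true then (1 : ℝ) else 0) = _
  rw [Finset.sum_const, nsmul_eq_mul, Finset.card_univ, Fintype.card_fun, Fintype.card_bool]
  push_cast
  rfl

open Classical in
private theorem card_Adm {U J : Type} [Fintype U] [Fintype J] (P : ℕ) (γ : U → Option J)
    (b : Fin (P + 1) → U → Bool) (bY : U → Bool) :
    ((Adm γ b bY).card : ℝ) = ∏ j, ((2 : ℝ) ^ Fintype.card {u // γ u = some j} *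
      ((Fintype.card {u // γ u = some j} : ℝ) *
        ((2 : ℝ) ^ (P + 1) - 1) ^ (Fintype.card {u // γ u = some j} - 1))) := by
  have h := fact γ (fun u => ((b 0 u, (fun k => b k.succ u), bY u) : Bool × (Fin P → Bool) × Bool))
    (fun j (f : {u // γ u = some j} → Bool × (Fin P → Bool) × Bool) =>
    if ∃! u, (f u).1 = true ∧ ∀ k, (f u).2.1 k = true then (1 : ℝ) else 0)
  have h2 : ∀ j, (∑ f : {u // γ u = some j} → Bool × (Fin P → Bool) × Bool,
      if ∃! u, (f u).1 = true ∧ ∀ k, (f u).2.1 k = true then (1 : ℝ) else 0) =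
      (2 : ℝ) ^ Fintype.card {u // γ u = some j} * ((Fintype.card {u // γ u = some j} : ℝ) *
        ((2 : ℝ) ^ (P + 1) - 1) ^ (Fintype.card {u // γ u = some j} - 1)) := by
    intro j
    exact (sum_inst _ _ _).trans ((Finset.sum_congr rfl fun f _ => if_congr Iff.rfl rfl rfl).trans
      (sum_ct2 {u // γ u = some j} P))
  rw [Finset.prod_congr rfl (fun j _ => (h2 j).symm), ← h]
  have h4 : ∀ F : U → Bool × (Fin P → Bool) × Bool, (∏ j,
      if ∃! u : {u // γ u = some j}, (F u.1).1 = true ∧ ∀ k, (F u.1).2.1 k = true then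
        (1 : ℝ) else 0) =
      if (∀ j, ∃! u : {u // γ u = some j}, (F u.1).1 = true ∧ ∀ k, (F u.1).2.1 k = true) then
        (1 : ℝ) else 0 := by
    intro F
    rw [Finset.prod_ite_zero]
    simp
  rw [Finset.sum_congr rfl (fun F _ => h4 F), ← Finset.sum_filter, Finset.filter_filter,
    Finset.sum_const, nsmul_eq_mul, mul_one]
  congr 1
  refine Finset.card_nbij' (fun q u => (q.1 0 u, fun k => q.1 k.succ u, q.2 u))
    (fun F => ((Fin.cons (fun u => (F u).1) (fun k u => (F u).2.1 k) : Fin (P + 1) → U → Bool),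
      fun u => (F u).2.2)) ?_ ?_ ?_ ?_
  · intro q hq
    obtain ⟨_, h1, h2, h3⟩ := mem_filter.1 hq
    refine mem_filter.2 ⟨mem_univ _, fun u hu => ?_, ?_⟩
    · show (q.1 0 u, (fun k => q.1 (Fin.succ k) u), q.2 u) = _
      rw [h2 0 u hu, h3 u hu]
      have h5 : (fun k : Fin P => q.1 k.succ u) = fun k => b k.succ u :=
        funext fun k => h2 k.succ u hu
      rw [h5]
    · have h6 := (one_cons γ (fun k => q.1 (Fin.succ k)) (q.1 0)).1 (by
        have h7 : (Fin.cons (q.1 0) (fun k => q.1 (Fin.succ k)) : Fin (P + 1) → U → Bool) = q.1 :=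
          Fin.cons_self_tail q.1
        rw [h7]
        exact h1)
      exact h6
  · intro F hF
    obtain ⟨_, h1, h2⟩ := mem_filter.1 hF
    refine mem_filter.2 ⟨mem_univ _, (one_cons γ _ _).2 h2, ?_, fun u hu => ?_⟩
    · intro k
      refine Fin.cases ?_ (fun i => ?_) k
      · intro u hu
        show (F u).1 = _
        rw [h1 u hu]
      · intro u hu
        show (F u).2.1 i = _
        rw [h1 u hu]
    · show (F u).2.2 = _
      rw [h1 u hu]
  · intro q _
    refine Prod.ext ?_ rfl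
    exact Fin.cons_self_tail q.1
  · intro F _
    rfl

open Classical in
theorem blocks {U J : Type} [Fintype U] [Fintype J] (P : ℕ) (γ : U → Option J)
    (b : Fin (P + 1) → U → Bool) (bY : U → Bool) :
    (∑ a ∈ univ.filter (Off γ (b 0)), ∑ a' ∈ univ.filter (Off γ (b 0)),
      ∑ q ∈ univ.filter (fun q : (Fin P → U → Bool) × (U → Bool) =>
          (∀ k, Off γ (b k.succ) (q.1 k)) ∧ Off γ bY q.2 ∧ a ∈ Nx γ (b 0) q.1 ∧
            a' ∈ Nx γ (b 0) q.1),
        (∏ j, wt γ a a' q.1 j) / (Nx γ (b 0) q.1).card) ≤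
      (Adm γ b bY).card * ∏ j, (2 ^ (P + 1) - 1) ^ 2 / (bc γ j : ℝ) := by
  have hbc : ∀ j, bc γ j = Fintype.card {u // γ u = some j} := by
    intro j
    unfold bc
    rw [Fintype.card_subtype]
  rw [left_eq, fact γ (fun u => ((b 0 u, b 0 u, (fun k => b k.succ u), bY u) : Ct P))
    (fun j (f : {u // γ u = some j} → Ct P) =>
      blk {u // γ u = some j} P (fun k u => (f u).2.2.1 k) (fun u => (f u).1)
        (fun u => (f u).2.1)), card_Adm, ← Finset.prod_mul_distrib]
  simp only [hbc]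
  have hm : (1 : ℝ) ≤ 2 ^ (P + 1) - 1 := by
    have h2 : (2 : ℝ) ^ 1 ≤ 2 ^ (P + 1) := pow_le_pow_right₀ (by norm_num) (by omega)
    linarith
  by_cases hz : ∃ j, Fintype.card {u // γ u = some j} = 0
  · obtain ⟨j, hj⟩ := hz
    rw [Finset.prod_eq_zero (mem_univ j) (by
      exact (sum_inst _ _ _).trans (sum_ct_zero {u // γ u = some j} P hj))]
    refine Finset.prod_nonneg fun i _ => ?_
    have h0 : (0 : ℝ) ≤ 2 ^ (P + 1) - 1 := by linarith
    positivity
  · push Not at hz
    refine Finset.prod_le_prod (fun j _ => ?_) (fun j _ => ?_)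
    · refine Finset.sum_nonneg fun f _ => ?_
      unfold blk
      positivity
    · have hv : 0 < Fintype.card {u // γ u = some j} := Nat.pos_of_ne_zero (hz j)
      have h := sum_ct {u // γ u = some j} P hv
      refine (le_of_eq ?_).trans (h.trans (le_of_eq ?_))
      · congr
        exact Subsingleton.elim _ _
      have hv' : (0 : ℝ) < Fintype.card {u // γ u = some j} := by exact_mod_cast hv
      obtain ⟨v, hv2⟩ : ∃ v, Fintype.card {u // γ u = some j} = v + 1 :=
        ⟨_, (Nat.succ_pred_eq_of_pos hv).symm⟩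
      rw [hv2]
      rw [hv2] at hv'
      simp only [Nat.add_sub_cancel]
      field_simp
      ring

end Pool.Agent.RQ
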