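import Mathlib
import Pool.Agent.Lib.MP_0a1b52_lc_RQ.Defs
import Pool.Agent.Lib.MP_0a1b52_lc_RQ.Prod

/-!
# Local proofs with many sets: the discrepancy, by induction on the number of parties
-/

set_option autoImplicit false

namespace Pool.Agent.RQ

open Finset

/-- no common coordinate of `a`, `a'` and `x` in the block `j` -/
private def Ee {U J : Type} {P : ℕ} (γ : U → Option J) (a a' : U → Bool)
    (x : Fin P → U → Bool) (j : J) : Prop :=
  ¬ ∃ u, γ u = some j ∧ a u = true ∧ a' u = true ∧ ∀ k, x k u = true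

/-- the coordinates of the new blocks -/
private def Zz {U J : Type} (γ : U → Option J) (a a' : U → Bool) (E : J → Prop) (u : U) : Prop :=
  ∃ j, γ u = some j ∧ E j ∧ a u ≠ a' u

open Classical in
/-- the new blocks: `a` minus `a'` and `a'` minus `a` inside a block -/
private noncomputable def gm {U J : Type} (γ : U → Option J) (a a' : U → Bool) (E : J → Prop)
    (u : U) : Option ({j // E j} × Bool) :=
  match γ u with
  | none => none
  | some j => if h : E j ∧ a u ≠ a' u then some (⟨j, h.1⟩, a u) else none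

private theorem gm_some {U J : Type} (γ : U → Option J) (a a' : U → Bool) (E : J → Prop) (u : U)
    (β : {j // E j} × Bool) :
    gm γ a a' E u = some β ↔ γ u = some β.1.1 ∧ a u = β.2 ∧ a' u = !β.2 := by
  obtain ⟨⟨j, hj⟩, v⟩ := β
  unfold gm
  cases h : γ u with
  | none => simp
  | some i =>
    by_cases h1 : E i ∧ a u ≠ a' u
    · simp only [dif_pos h1, Option.some.injEq, Prod.mk.injEq, Subtype.mk.injEq]
      constructor
      · rintro ⟨rfl, rfl⟩
        refine ⟨rfl, rfl, ?_⟩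
        have h2 := h1.2
        revert h2
        cases a u <;> cases a' u <;> simp
      · rintro ⟨rfl, rfl, _⟩
        exact ⟨rfl, rfl⟩
    · simp only [dif_neg h1, reduceCtorEq, Option.some.injEq, false_iff]
      rintro ⟨rfl, h3, h4⟩
      refine h1 ⟨hj, ?_⟩
      rw [h3, h4]
      cases v <;> simp

private theorem gm_none {U J : Type} (γ : U → Option J) (a a' : U → Bool) (E : J → Prop) (u : U) :
    gm γ a a' E u = none ↔ ¬ Zz γ a a' E u := by
  unfold gm Zz
  cases h : γ u with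
  | none => simp
  | some i =>
    by_cases h1 : E i ∧ a u ≠ a' u
    · simp only [dif_pos h1, reduceCtorEq, Option.some.injEq, false_iff, not_not]
      exact ⟨i, rfl, h1.1, h1.2⟩
    · simp only [dif_neg h1, Option.some.injEq, true_iff]
      rintro ⟨j, rfl, h2, h3⟩
      exact h1 ⟨h2, h3⟩

private theorem mem_nx {U J : Type} [Fintype U] {P : ℕ} (γ : U → Option J)
    (b0 : U → Bool) (x : Fin P → U → Bool) (a : U → Bool) :
    a ∈ Nx γ b0 x ↔ Off γ b0 a ∧
      ∀ j, ∃! u, γ u = some j ∧ a u = true ∧ ∀ k, x k u = true := by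
  classical
  unfold Nx One
  rw [mem_filter]
  simp only [mem_univ, true_and]
  refine and_congr_right fun _ => forall_congr' fun j => existsUnique_congr fun u => ?_
  rw [Fin.forall_fin_succ]
  simp

/-- the pairs `(x, Y)` such that `a`, `a'` both extend `x` -/
private def Cc {U J : Type} [Fintype U] {P : ℕ} (γ : U → Option J) (b0 : U → Bool)
    (b : Fin P → U → Bool) (bY : U → Bool) (a a' : U → Bool)
    (q : (Fin P → U → Bool) × (U → Bool)) : Prop :=
  (∀ k, Off γ (b k) (q.1 k)) ∧ Off γ bY q.2 ∧ a ∈ Nx γ b0 q.1 ∧ a' ∈ Nx γ b0 q.1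

/-- the class of `q₀` -/
private def Sm {U J : Type} {P : ℕ} (γ : U → Option J) (a a' : U → Bool)
    (q₀ q : (Fin P → U → Bool) × (U → Bool)) : Prop :=
  (∀ j, Ee γ a a' q.1 j ↔ Ee γ a a' q₀.1 j) ∧
    ∀ u, ¬ Zz γ a a' (Ee γ a a' q₀.1) u → (∀ k, q.1 k u = q₀.1 k u) ∧ q.2 u = q₀.2 u

private theorem mem_adm {U J : Type} [Fintype U] {P : ℕ} (γ : U → Option J)
    (b : Fin P → U → Bool) (bY : U → Bool) (q : (Fin P → U → Bool) × (U → Bool)) :
    q ∈ Adm γ b bY ↔ One γ q.1 ∧ (∀ k, Off γ (b k) (q.1 k)) ∧ Off γ bY q.2 := by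
  classical
  unfold Adm
  rw [mem_filter]
  simp only [mem_univ, true_and]

private theorem fib_mem {U J : Type} [Fintype U] {P : ℕ} (γ : U → Option J) (b0 : U → Bool)
    (b : Fin P → U → Bool) (bY : U → Bool) (a a' : U → Bool)
    (q₀ q : (Fin P → U → Bool) × (U → Bool)) (h0 : Cc γ b0 b bY a a' q₀) :
    (Cc γ b0 b bY a a' q ∧ Sm γ a a' q₀ q) ↔
      q ∈ Adm (gm γ a a' (Ee γ a a' q₀.1)) q₀.1 q₀.2 := by
  rw [mem_adm]
  obtain ⟨h1, h2, h3, h4⟩ := h0
  rw [mem_nx] at h3 h4
  constructor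
  · rintro ⟨⟨g1, g2, g3, g4⟩, g5, g6⟩
    rw [mem_nx] at g3 g4
    refine ⟨?_, ?_, ?_⟩
    · rintro ⟨⟨j, hj⟩, v⟩
      have hj' := (g5 j).2 hj
      cases v with
      | true =>
        obtain ⟨u, ⟨k1, k2, k3⟩, k4⟩ := g3.2 j
        refine ⟨u, ⟨(gm_some _ _ _ _ _ _).2 ⟨k1, k2, ?_⟩, k3⟩, ?_⟩
        · by_contra hc
          refine hj' ⟨u, k1, k2, ?_, k3⟩
          simpa using hc
        · rintro w ⟨w1, w2⟩
          rw [gm_some] at w1
          exact k4 w ⟨w1.1, w1.2.1, w2⟩
      | false =>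
        obtain ⟨u, ⟨k1, k2, k3⟩, k4⟩ := g4.2 j
        refine ⟨u, ⟨(gm_some _ _ _ _ _ _).2 ⟨k1, ?_, k2⟩, k3⟩, ?_⟩
        · by_contra hc
          refine hj' ⟨u, k1, ?_, k2, k3⟩
          simpa using hc
        · rintro w ⟨w1, w2⟩
          rw [gm_some] at w1
          exact k4 w ⟨w1.1, w1.2.2, w2⟩
    · intro k u hu
      rw [gm_none] at hu
      exact (g6 u hu).1 k
    · intro u hu
      rw [gm_none] at hu
      exact (g6 u hu).2
  · rintro ⟨g1, g2, g3⟩
    have e1 : ∀ u, ¬ Zz γ a a' (Ee γ a a' q₀.1) u →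
        (∀ k, q.1 k u = q₀.1 k u) ∧ q.2 u = q₀.2 u := by
      intro u hu
      rw [← gm_none] at hu
      exact ⟨fun k => g2 k u hu, g3 u hu⟩
    have e2 : ∀ u, γ u = none → ¬ Zz γ a a' (Ee γ a a' q₀.1) u := by
      rintro u hu ⟨j, hj, _⟩
      rw [hu] at hj
      simp at hj
    have e3 : ∀ j, ¬ Ee γ a a' q₀.1 j → ∀ u, γ u = some j →
        ¬ Zz γ a a' (Ee γ a a' q₀.1) u := by
      rintro j hj u hu ⟨i, hi, hi2, _⟩
      rw [hu, Option.some.injEq] at hi
      exact hj (hi ▸ hi2)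
    have e4 : ∀ j, ∀ u, γ u = some j → a u = a' u → ¬ Zz γ a a' (Ee γ a a' q₀.1) u := by
      rintro j u hu huu ⟨i, hi, hi2, hi3⟩
      exact hi3 huu
    have e5 : ∀ j, Ee γ a a' q.1 j ↔ Ee γ a a' q₀.1 j := by
      intro j
      constructor
      · intro hj
        by_contra hn
        obtain ⟨u, u1, u2, u3, u4⟩ := not_not.1 hn
        refine hj ⟨u, u1, u2, u3, fun k => ?_⟩
        rw [(e1 u (e3 j hn u u1)).1 k]
        exact u4 k
      · rintro hj ⟨u, u1, u2, u3, u4⟩
        refine hj ⟨u, u1, u2, u3, fun k => ?_⟩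
        rw [← (e1 u (e4 j u u1 (u2.trans u3.symm))).1 k]
        exact u4 k
    refine ⟨⟨?_, ?_, ?_, ?_⟩, e5, e1⟩
    · intro k u hu
      rw [(e1 u (e2 u hu)).1 k]
      exact h1 k u hu
    · intro u hu
      rw [(e1 u (e2 u hu)).2]
      exact h2 u hu
    · rw [mem_nx]
      refine ⟨h3.1, fun j => ?_⟩
      by_cases hj : Ee γ a a' q₀.1 j
      · obtain ⟨u, ⟨u1, u2⟩, u3⟩ := g1 (⟨j, hj⟩, true)
        rw [gm_some] at u1
        refine ⟨u, ⟨u1.1, u1.2.1, u2⟩, ?_⟩
        rintro w ⟨w1, w2, w3⟩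
        by_cases hw : a' w = true
        · exfalso
          refine hj ⟨w, w1, w2, hw, fun k => ?_⟩
          rw [← (e1 w (e4 j w w1 (w2.trans hw.symm))).1 k]
          exact w3 k
        · refine u3 w ⟨(gm_some _ _ _ _ _ _).2 ⟨w1, w2, ?_⟩, w3⟩
          simpa using hw
      · obtain ⟨u, ⟨u1, u2, u3⟩, u4⟩ := h3.2 j
        refine ⟨u, ⟨u1, u2, fun k => ?_⟩, ?_⟩
        · rw [(e1 u (e3 j hj u u1)).1 k]
          exact u3 k
        · rintro w ⟨w1, w2, w3⟩
          refine u4 w ⟨w1, w2, fun k => ?_⟩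
          rw [← (e1 w (e3 j hj w w1)).1 k]
          exact w3 k
    · rw [mem_nx]
      refine ⟨h4.1, fun j => ?_⟩
      by_cases hj : Ee γ a a' q₀.1 j
      · obtain ⟨u, ⟨u1, u2⟩, u3⟩ := g1 (⟨j, hj⟩, false)
        rw [gm_some] at u1
        refine ⟨u, ⟨u1.1, u1.2.2, u2⟩, ?_⟩
        rintro w ⟨w1, w2, w3⟩
        by_cases hw : a w = true
        · exfalso
          refine hj ⟨w, w1, hw, w2, fun k => ?_⟩
          rw [← (e1 w (e4 j w w1 (hw.trans w2.symm))).1 k]
          exact w3 k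
        · refine u3 w ⟨(gm_some _ _ _ _ _ _).2 ⟨w1, ?_, w2⟩, w3⟩
          simpa using hw
      · obtain ⟨u, ⟨u1, u2, u3⟩, u4⟩ := h4.2 j
        refine ⟨u, ⟨u1, u2, fun k => ?_⟩, ?_⟩
        · rw [(e1 u (e3 j hj u u1)).1 k]
          exact u3 k
        · rintro w ⟨w1, w2, w3⟩
          refine u4 w ⟨w1, w2, fun k => ?_⟩
          rw [← (e1 w (e3 j hj w w1)).1 k]
          exact w3 k

/-- `Nx` has the same size if a permutation of the coordinates carries one to the other -/
private theorem card_perm {U J : Type} [Fintype U] {P : ℕ} (γ : U → Option J) (b0 : U → Bool)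
    (x y : Fin P → U → Bool) (π : U → U) (h1 : ∀ u, π (π u) = u) (h2 : ∀ u, γ (π u) = γ u)
    (h3 : ∀ u, γ u = none → π u = u)
    (h4 : ∀ u, (∀ k, x k (π u) = true) ↔ ∀ k, y k u = true) :
    (Nx γ b0 x).card = (Nx γ b0 y).card := by
  have key : ∀ x y : Fin P → U → Bool, (∀ u, (∀ k, x k (π u) = true) ↔ ∀ k, y k u = true) →
      ∀ a, a ∈ Nx γ b0 x → (a ∘ π) ∈ Nx γ b0 y := by
    intro x y h4 a ha
    rw [mem_nx] at ha ⊢
    refine ⟨fun u hu => ?_, fun j => ?_⟩
    · rw [Function.comp_apply, h3 u hu]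
      exact ha.1 u hu
    · obtain ⟨u, ⟨u1, u2, u3⟩, u4⟩ := ha.2 j
      refine ⟨π u, ⟨?_, ?_, ?_⟩, ?_⟩
      · rw [h2, u1]
      · rw [Function.comp_apply, h1, u2]
      · rw [← h4, h1]
        exact u3
      · rintro w ⟨w1, w2, w3⟩
        have := u4 (π w) ⟨by rw [h2, w1], w2, (h4 w).2 w3⟩
        rw [← this, h1]
  refine Finset.card_nbij' (fun a => a ∘ π) (fun a => a ∘ π) (key x y h4) (key y x ?_) ?_ ?_
  · intro u
    rw [← h4 (π u), h1]
  · intro a _
    funext u
    simp [h1]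
  · intro a _
    funext u
    simp [h1]

private theorem card_fib {U J : Type} [Fintype U] {P : ℕ} (γ : U → Option J) (b0 : U → Bool)
    (b : Fin P → U → Bool) (bY : U → Bool) (a a' : U → Bool)
    (q₀ q : (Fin P → U → Bool) × (U → Bool)) (h0 : Cc γ b0 b bY a a' q₀)
    (hq : Cc γ b0 b bY a a' q) (hs : Sm γ a a' q₀ q) :
    (Nx γ b0 q.1).card = (Nx γ b0 q₀.1).card := by
  classical
  have m1 := (fib_mem γ b0 b bY a a' q₀ q h0).1 ⟨hq, hs⟩
  have m0 := (fib_mem γ b0 b bY a a' q₀ q₀ h0).1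
    ⟨h0, fun j => Iff.rfl, fun u _ => ⟨fun k => rfl, rfl⟩⟩
  rw [mem_adm] at m1 m0
  obtain ⟨g, hg⟩ : ∃ g, g = gm γ a a' (Ee γ a a' q₀.1) := ⟨_, rfl⟩
  rw [← hg] at m1 m0
  choose s hs1 hs2 using m1.1
  choose t ht1 ht2 using m0.1
  have hgγ : ∀ u w β, g u = some β → g w = some β → γ u = γ w := by
    intro u w β hu hw
    rw [hg, gm_some] at hu hw
    rw [hu.1, hw.1]
  obtain ⟨π, hπ⟩ : ∃ π : U → U, ∀ u, π u = match g u with
      | none => u
      | some β => Equiv.swap (s β) (t β) u := ⟨_, fun u => rfl⟩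
  have p0 : ∀ u, g u = none → π u = u := by
    intro u hu
    rw [hπ, hu]
  have p1 : ∀ u β, g u = some β → π u = Equiv.swap (s β) (t β) u := by
    intro u β hu
    rw [hπ, hu]
  have p2 : ∀ u, g (π u) = g u := by
    intro u
    cases hu : g u with
    | none => rw [p0 u hu, hu]
    | some β =>
      rw [p1 u β hu, Equiv.swap_apply_def]
      split_ifs
      · exact (ht1 β).1
      · exact (hs1 β).1
      · exact hu
  refine card_perm γ b0 q.1 q₀.1 π ?_ ?_ ?_ ?_
  · intro u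
    cases hu : g u with
    | none => rw [p0 u hu, p0 u hu]
    | some β =>
      have h1 := p2 u
      rw [hu] at h1
      rw [p1 (π u) β h1, p1 u β hu, Equiv.swap_apply_self]
  · intro u
    cases hu : g u with
    | none => rw [p0 u hu]
    | some β =>
      have h1 := p2 u
      rw [hu] at h1
      exact hgγ _ _ β h1 hu
  · intro u hu
    apply p0
    rw [hg, gm_none]
    rintro ⟨j, hj, _⟩
    rw [hu] at hj
    simp at hj
  · intro u
    cases hu : g u with
    | none =>
      rw [p0 u hu]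
      have : ∀ k, q.1 k u = q₀.1 k u := fun k => m1.2.1 k u hu
      simp only [this]
    | some β =>
      have h1 := p2 u
      rw [hu] at h1
      constructor
      · intro h
        have h2 := hs2 β (π u) ⟨h1, h⟩
        rw [p1 u β hu] at h2
        have h3 : u = t β := by
          have h4 := congrArg (Equiv.swap (s β) (t β)) h2
          rwa [Equiv.swap_apply_self, Equiv.swap_apply_left] at h4
        rw [h3]
        exact (ht1 β).2
      · intro h
        have h2 := ht2 β u ⟨hu, h⟩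
        rw [p1 u β hu, h2, Equiv.swap_apply_right]
        exact (hs1 β).2

private theorem sgn_fib {U J : Type} [Fintype U] {P : ℕ} (γ : U → Option J) (b0 : U → Bool)
    (b : Fin P → U → Bool) (bY : U → Bool) (a a' : U → Bool)
    (q₀ q : (Fin P → U → Bool) × (U → Bool))
    (hq : Cc γ b0 b bY a a' q) (hs : Sm γ a a' q₀ q) :
    sgn γ (Fin.cons a q.1 : Fin (P + 1) → U → Bool) q.2 *
      sgn γ (Fin.cons a' q.1 : Fin (P + 1) → U → Bool) q.2 =
      sgn (gm γ a a' (Ee γ a a' q₀.1)) q.1 q.2 := by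
  classical
  obtain ⟨g1, g2, g3, g4⟩ := hq
  rw [mem_nx] at g3 g4
  unfold sgn
  rw [← Finset.prod_mul_distrib]
  refine Finset.prod_congr rfl fun u _ => ?_
  have c1 : ∀ f : U → Bool, (γ u ≠ none ∧ (∀ k, (Fin.cons f q.1 : Fin (P + 1) → U → Bool) k u =
      true) ∧ q.2 u = true) ↔ ((γ u ≠ none ∧ (∀ k, q.1 k u = true) ∧ q.2 u = true) ∧
        f u = true) := by
    intro f
    rw [Fin.forall_fin_succ]
    simp only [Fin.cons_zero, Fin.cons_succ]
    tauto
  by_cases hx : γ u ≠ none ∧ (∀ k, q.1 k u = true) ∧ q.2 u = true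
  · have hg : gm γ a a' (Ee γ a a' q₀.1) u ≠ none ↔ a u ≠ a' u := by
      rw [Ne, gm_none, not_not]
      constructor
      · rintro ⟨j, _, _, h⟩
        exact h
      · intro h
        obtain ⟨j, hj⟩ := Option.ne_none_iff_exists'.1 hx.1
        refine ⟨j, hj, ?_, h⟩
        rw [← hs.1 j]
        rintro ⟨w, w1, w2, w3, w4⟩
        by_cases ha : a u = true
        · have h5 := (g3.2 j).unique ⟨hj, ha, hx.2.1⟩ ⟨w1, w2, w4⟩
          rw [h5, w2, w3] at h
          exact h rfl
        · by_cases ha' : a' u = true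
          · have h5 := (g4.2 j).unique ⟨hj, ha', hx.2.1⟩ ⟨w1, w3, w4⟩
            rw [h5, w2, w3] at h
            exact h rfl
          · rw [Bool.not_eq_true] at ha ha'
            rw [ha, ha'] at h
            exact h rfl
    have hr : (gm γ a a' (Ee γ a a' q₀.1) u ≠ none ∧ (∀ k, q.1 k u = true) ∧ q.2 u = true) ↔
        a u ≠ a' u := by
      rw [hg]
      exact ⟨fun h => h.1, fun h => ⟨h, hx.2⟩⟩
    rw [if_congr ((c1 a).trans (and_iff_right hx)) rfl rfl,
      if_congr ((c1 a').trans (and_iff_right hx)) rfl rfl, if_congr hr rfl rfl]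
    cases a u <;> cases a' u <;> simp
  · have hr : ¬ (gm γ a a' (Ee γ a a' q₀.1) u ≠ none ∧ (∀ k, q.1 k u = true) ∧
        q.2 u = true) := by
      rintro ⟨h1, h2⟩
      refine hx ⟨?_, h2⟩
      rw [Ne, gm_none, not_not] at h1
      obtain ⟨j, hj, _⟩ := h1
      rw [hj]
      simp
    rw [if_neg (fun h => hx ((c1 a).1 h).1), if_neg (fun h => hx ((c1 a').1 h).1), if_neg hr,
      one_mul]

private theorem wt_fib {U J : Type} [Fintype U] [Fintype J] {P : ℕ} (γ : U → Option J)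
    (a a' : U → Bool) (x : Fin P → U → Bool) (E : J → Prop) [Fintype ({j // E j} × Bool)]
    (hE : ∀ j, Ee γ a a' x j ↔ E j) :
    ∏ j, wt γ a a' x j = ∏ β : {j // E j} × Bool, (2 ^ P - 1) / Real.sqrt (bc (gm γ a a' E) β) := by
  classical
  obtain ⟨F, hF⟩ : ∃ F : J → ℝ, ∀ j, F j = (2 ^ P - 1) ^ 2 / (Real.sqrt ((univ.filter fun u =>
      γ u = some j ∧ a u = true ∧ a' u = false).card) * Real.sqrt ((univ.filter fun u =>
      γ u = some j ∧ a u = false ∧ a' u = true).card)) := ⟨_, fun j => rfl⟩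
  have h1 : ∀ j, wt γ a a' x j = if E j then F j else 1 := by
    intro j
    rw [hF]
    unfold wt
    by_cases h : E j
    · rw [if_pos h, if_neg ((hE j).2 h)]
    · rw [if_neg h, if_pos (not_not.1 (fun hn => h ((hE j).1 hn)))]
  have h2 : ∀ j : {j // E j}, F j.1 = ∏ v : Bool,
      (2 ^ P - 1) / Real.sqrt (bc (gm γ a a' E) (j, v)) := by
    intro j
    rw [Fintype.prod_bool, hF]
    unfold bc
    simp only [gm_some]
    rw [sq]
    simp only [Bool.not_true, Bool.not_false]
    rw [div_mul_div_comm]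
  have h3 : ∏ β : {j // E j} × Bool, (2 ^ P - 1) / Real.sqrt (bc (gm γ a a' E) β) =
      ∏ j : {j // E j}, ∏ v : Bool, (2 ^ P - 1) / Real.sqrt (bc (gm γ a a' E) (j, v)) := by
    rw [← Fintype.prod_prod_type (fun β : {j // E j} × Bool =>
      ((2 : ℝ) ^ P - 1) / Real.sqrt (bc (gm γ a a' E) β))]
    exact Finset.prod_congr (by ext β; simp) fun _ _ => rfl
  rw [h3]
  simp only [h1, ← h2]
  rw [← Finset.prod_filter]
  exact Finset.prod_subtype _ (fun j => by simp) F

private theorem class_sum {α κ : Type} (S : Finset α) (key : α → κ) (g h : α → ℝ)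
    (hh : ∀ q₀ ∈ S, ∀ T : Finset α, (∀ q, q ∈ T ↔ q ∈ S ∧ key q = key q₀) →
      |∑ q ∈ T, g q| ≤ ∑ q ∈ T, h q) : |∑ q ∈ S, g q| ≤ ∑ q ∈ S, h q := by
  classical
  have hm : ∀ q ∈ S, key q ∈ S.image key := fun q hq => Finset.mem_image_of_mem _ hq
  rw [← Finset.sum_fiberwise_of_maps_to hm g, ← Finset.sum_fiberwise_of_maps_to hm h]
  refine (Finset.abs_sum_le_sum_abs _ _).trans (Finset.sum_le_sum fun y hy => ?_)
  obtain ⟨q₀, hq₀, rfl⟩ := Finset.mem_image.1 hy
  exact hh q₀ hq₀ _ fun q => by rw [Finset.mem_filter]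

open Classical in
private noncomputable def ky {U J : Type} {P : ℕ} (γ : U → Option J) (a a' : U → Bool)
    (q : (Fin P → U → Bool) × (U → Bool)) :
    (J → Prop) × (Fin P → U → Bool) × (U → Bool) :=
  (Ee γ a a' q.1, (fun k u => if Zz γ a a' (Ee γ a a' q.1) u then false else q.1 k u),
    fun u => if Zz γ a a' (Ee γ a a' q.1) u then false else q.2 u)

private theorem ky_eq {U J : Type} {P : ℕ} (γ : U → Option J) (a a' : U → Bool)
    (q₀ q : (Fin P → U → Bool) × (U → Bool)) :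
    ky γ a a' q = ky γ a a' q₀ ↔ Sm γ a a' q₀ q := by
  classical
  unfold ky Sm
  constructor
  · intro h
    rw [Prod.mk.injEq, Prod.mk.injEq] at h
    obtain ⟨h1, h2, h3⟩ := h
    refine ⟨fun j => by rw [h1], fun u hu => ⟨fun k => ?_, ?_⟩⟩
    · have h4 := congrFun (congrFun h2 k) u
      rwa [h1, if_neg hu, if_neg hu] at h4
    · have h4 := congrFun h3 u
      rwa [h1, if_neg hu, if_neg hu] at h4
  · rintro ⟨h1, h2⟩
    have h3 : Ee γ a a' q.1 = Ee γ a a' q₀.1 := funext fun j => propext (h1 j)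
    rw [h3, Prod.mk.injEq, Prod.mk.injEq]
    refine ⟨rfl, ?_, ?_⟩
    · funext k u
      by_cases hu : Zz γ a a' (Ee γ a a' q₀.1) u
      · rw [if_pos hu, if_pos hu]
      · rw [if_neg hu, if_neg hu, (h2 u hu).1 k]
    · funext u
      by_cases hu : Zz γ a a' (Ee γ a a' q₀.1) u
      · rw [if_pos hu, if_pos hu]
      · rw [if_neg hu, if_neg hu, (h2 u hu).2]

/-- the sum over `Adm` for `P + 1` parties -/
private theorem adm_succ {U J : Type} [Fintype U] {P : ℕ} (γ : U → Option J)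
    (b : Fin (P + 1) → U → Bool) (bY : U → Bool)
    (F : (Fin (P + 1) → U → Bool) × (U → Bool) → ℝ)
    (X : Finset ((Fin P → U → Bool) × (U → Bool)))
    (hX : ∀ q, q ∈ X ↔ (∀ k, Off γ (b k.succ) (q.1 k)) ∧ Off γ bY q.2) :
    ∑ q ∈ Adm γ b bY, F q = ∑ q ∈ X, ∑ a ∈ Nx γ (b 0) q.1,
      F ((Fin.cons a q.1 : Fin (P + 1) → U → Bool), q.2) := by
  classical
  rw [Finset.sum_sigma']
  have hN : ∀ (x : Fin P → U → Bool) (a : U → Bool), a ∈ Nx γ (b 0) x ↔
      Off γ (b 0) a ∧ One γ (Fin.cons a x : Fin (P + 1) → U → Bool) := by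
    intro x a
    unfold Nx
    rw [mem_filter]
    simp only [mem_univ, true_and]
  refine Finset.sum_bij' (fun q _ => ⟨(Fin.tail q.1, q.2), q.1 0⟩)
    (fun p _ => ((Fin.cons p.2 p.1.1 : Fin (P + 1) → U → Bool), p.1.2)) ?_ ?_ ?_ ?_ ?_
  · intro q hq
    rw [mem_adm] at hq
    rw [Finset.mem_sigma]
    refine ⟨(hX _).2 ⟨fun k => hq.2.1 k.succ, hq.2.2⟩, (hN _ _).2 ⟨hq.2.1 0, ?_⟩⟩
    simp only [Fin.cons_self_tail]
    exact hq.1
  · intro p hp
    rw [Finset.mem_sigma] at hp
    have h1 := (hX _).1 hp.1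
    have h2 := (hN _ _).1 hp.2
    rw [mem_adm]
    refine ⟨h2.2, ?_, h1.2⟩
    intro k
    refine Fin.cases ?_ (fun k => ?_) k
    · exact h2.1
    · exact h1.1 k
  · intro q _
    simp only [Fin.cons_self_tail]
  · intro p _
    simp only [Fin.tail_cons, Fin.cons_zero]
  · intro q _
    simp only [Fin.cons_self_tail]

private theorem sgn_abs {U J : Type} [Fintype U] {P : ℕ} (γ : U → Option J)
    (x : Fin P → U → Bool) (Y : U → Bool) : |sgn γ x Y| = 1 := by
  classical
  unfold sgn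
  rw [Finset.abs_prod]
  refine Finset.prod_eq_one fun u _ => ?_
  split_ifs <;> simp

private theorem base {U J : Type} [Fintype U] [Fintype J] (γ : U → Option J)
    (b : Fin 0 → U → Bool) (bY : U → Bool) (c' : (Fin 0 → U → Bool) → ℝ)
    (hc' : ∀ x, |c' x| ≤ 1) :
    |∑ q ∈ Adm γ b bY, sgn γ q.1 q.2 * c' q.1| ≤
      (Adm γ b bY).card * ∏ j, (2 ^ 0 - 1) / Real.sqrt (bc γ j) := by
  classical
  by_cases hJ : Nonempty J
  · obtain ⟨j⟩ := hJ
    have h0 : ∑ q ∈ Adm γ b bY, sgn γ q.1 q.2 * c' q.1 = 0 := by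
      by_cases hne : (Adm γ b bY).Nonempty
      · obtain ⟨q₁, hq₁⟩ := hne
        rw [mem_adm] at hq₁
        obtain ⟨u, ⟨hu, _⟩, _⟩ := hq₁.1 j
        have hsg : ∀ q : (Fin 0 → U → Bool) × (U → Bool),
            sgn γ q.1 (Function.update q.2 u (!q.2 u)) = - sgn γ q.1 q.2 := by
          intro q
          unfold sgn
          rw [← Finset.mul_prod_erase _ _ (mem_univ u), ← Finset.mul_prod_erase _ _ (mem_univ u)]
          have e1 : ∏ w ∈ univ.erase u, (if γ w ≠ none ∧ (∀ k, q.1 k w = true) ∧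
              Function.update q.2 u (!q.2 u) w = true then (-1 : ℝ) else 1) =
              ∏ w ∈ univ.erase u, (if γ w ≠ none ∧ (∀ k, q.1 k w = true) ∧
              q.2 w = true then (-1 : ℝ) else 1) := by
            refine Finset.prod_congr rfl fun w hw => ?_
            rw [Function.update_of_ne (Finset.ne_of_mem_erase hw)]
          rw [e1, ← neg_mul]
          congr 1
          have hk : ∀ k : Fin 0, q.1 k u = true := fun k => k.elim0
          rw [Function.update_self, hu]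
          cases q.2 u <;> simp [hk]
        refine Finset.sum_involution
          (fun q _ => (q.1, Function.update q.2 u (!q.2 u))) ?_ ?_ ?_ ?_
        · intro q _
          show sgn γ q.1 q.2 * c' q.1 + sgn γ q.1 (Function.update q.2 u (!q.2 u)) * c' q.1 = 0
          rw [hsg]
          ring
        · intro q _ _ he
          have h1 := congrArg (fun p : (Fin 0 → U → Bool) × (U → Bool) => p.2 u) he
          simp at h1
        · intro q hq
          rw [mem_adm] at hq ⊢
          refine ⟨hq.1, hq.2.1, fun w hw => ?_⟩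
          have : w ≠ u := by
            rintro rfl
            rw [hu] at hw
            simp at hw
          show Function.update q.2 u (!q.2 u) w = bY w
          rw [Function.update_of_ne this]
          exact hq.2.2 w hw
        · intro q _
          refine Prod.ext rfl ?_
          funext w
          by_cases hw : w = u
          · subst hw
            simp
          · simp [Function.update_of_ne hw]
      · rw [Finset.not_nonempty_iff_eq_empty.1 hne, Finset.sum_empty]
    rw [h0, abs_zero]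
    have h1 : ∏ j, ((2 : ℝ) ^ 0 - 1) / Real.sqrt (bc γ j) = 0 :=
      Finset.prod_eq_zero (mem_univ j) (by norm_num)
    rw [h1, mul_zero]
  · have : IsEmpty J := not_nonempty_iff.1 hJ
    rw [Finset.univ_eq_empty, Finset.prod_empty, mul_one]
    refine (Finset.abs_sum_le_sum_abs _ _).trans ?_
    rw [Finset.cast_card]
    refine Finset.sum_le_sum fun q _ => ?_
    rw [abs_mul, sgn_abs, one_mul]
    exact hc' _

private theorem disc_aux {U : Type} [Fintype U] : ∀ (P : ℕ) (J : Type) [Fintype J]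
    (γ : U → Option J) (b : Fin P → U → Bool) (bY : U → Bool)
    (c : Fin P → (Fin P → U → Bool) → (U → Bool) → ℝ) (c' : (Fin P → U → Bool) → ℝ),
    (∀ k x Y, |c k x Y| ≤ 1) → (∀ x, |c' x| ≤ 1) →
    (∀ k x x' Y, (∀ j, j ≠ k → x j = x' j) → c k x Y = c k x' Y) →
    |∑ q ∈ Adm γ b bY, sgn γ q.1 q.2 * c' q.1 * ∏ k, c k q.1 q.2| ≤
      (Adm γ b bY).card * ∏ j, (2 ^ P - 1) / Real.sqrt (bc γ j) := by
  classical
  intro P
  induction P with
  | zero =>
    intro J _ γ b bY c c' hc hc' hi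
    have := base γ b bY c' hc'
    simpa using this
  | succ P ih =>
    intro J _ γ b bY c c' hc hc' hi
    obtain ⟨X, hXd⟩ : ∃ X : Finset ((Fin P → U → Bool) × (U → Bool)), X = univ.filter
      (fun q => (∀ k, Off γ (b k.succ) (q.1 k)) ∧ Off γ bY q.2) := ⟨_, rfl⟩
    have hX : ∀ q, q ∈ X ↔ (∀ k, Off γ (b k.succ) (q.1 k)) ∧ Off γ bY q.2 := by
      intro q
      rw [hXd, mem_filter]
      simp only [mem_univ, true_and]
    obtain ⟨N, hN⟩ : ∃ N : (Fin P → U → Bool) → ℝ, ∀ x, N x = ((Nx γ (b 0) x).card : ℝ) :=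
      ⟨_, fun x => rfl⟩
    obtain ⟨G, hG⟩ : ∃ G : (U → Bool) → (Fin P → U → Bool) × (U → Bool) → ℝ, ∀ a q, G a q =
        sgn γ (Fin.cons a q.1 : Fin (P + 1) → U → Bool) q.2 *
          c' (Fin.cons a q.1 : Fin (P + 1) → U → Bool) *
          ∏ k : Fin P, c k.succ (Fin.cons a q.1 : Fin (P + 1) → U → Bool) q.2 :=
      ⟨_, fun a q => rfl⟩
    obtain ⟨I, hI⟩ : ∃ I : (Fin P → U → Bool) × (U → Bool) → ℝ, ∀ q, I q =
        ∑ a ∈ Nx γ (b 0) q.1, G a q := ⟨_, fun q => rfl⟩
    have hN0 : ∀ x, 0 ≤ N x := by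
      intro x
      rw [hN]
      positivity
    -- the first factor
    have s1 : ∑ q ∈ X, N q.1 = (Adm γ b bY).card := by
      rw [Finset.cast_card, adm_succ γ b bY (fun _ => 1) X hX]
      refine Finset.sum_congr rfl fun q _ => ?_
      rw [hN, Finset.cast_card]
    -- the sum
    have s2 : |∑ q ∈ Adm γ b bY, sgn γ q.1 q.2 * c' q.1 * ∏ k, c k q.1 q.2| ≤
        ∑ q ∈ X, |I q| := by
      rw [adm_succ γ b bY (fun q => sgn γ q.1 q.2 * c' q.1 * ∏ k, c k q.1 q.2) X hX]
      refine (Finset.abs_sum_le_sum_abs _ _).trans (Finset.sum_le_sum fun q _ => ?_)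
      have e1 : ∑ a ∈ Nx γ (b 0) q.1, sgn γ (Fin.cons a q.1 : Fin (P + 1) → U → Bool) q.2 *
          c' (Fin.cons a q.1 : Fin (P + 1) → U → Bool) *
          ∏ k, c k (Fin.cons a q.1 : Fin (P + 1) → U → Bool) q.2 =
          c 0 (Fin.cons (fun _ => false) q.1 : Fin (P + 1) → U → Bool) q.2 * I q := by
        rw [hI, Finset.mul_sum]
        refine Finset.sum_congr rfl fun a _ => ?_
        rw [hG, Fin.prod_univ_succ, hi 0 (Fin.cons a q.1 : Fin (P + 1) → U → Bool)
          (Fin.cons (fun _ => false) q.1 : Fin (P + 1) → U → Bool) q.2 ?_]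
        · ring
        · intro j hj
          obtain ⟨i, rfl⟩ := Fin.exists_succ_eq.2 hj
          rfl
      rw [e1, abs_mul]
      exact mul_le_of_le_one_left (abs_nonneg _) (hc _ _ _)
    have s3 : (∑ q ∈ X, |I q|) ^ 2 ≤ (∑ q ∈ X, N q.1) * ∑ q ∈ X, I q ^ 2 / N q.1 := by
      refine Finset.sum_sq_le_sum_mul_sum_of_sq_le_mul X (fun q _ => hN0 _)
        (fun q _ => div_nonneg (sq_nonneg _) (hN0 _)) fun q _ => le_of_eq ?_
      rw [sq_abs]
      by_cases h : N q.1 = 0
      · have h1 : Nx γ (b 0) q.1 = ∅ := by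
          rw [hN, Nat.cast_eq_zero] at h
          exact Finset.card_eq_zero.1 h
        rw [hI, h1, Finset.sum_empty]
        simp
      · field_simp
    -- the second factor
    have s4 : ∑ q ∈ X, I q ^ 2 / N q.1 =
        ∑ a ∈ univ.filter (Off γ (b 0)), ∑ a' ∈ univ.filter (Off γ (b 0)),
        ∑ q ∈ univ.filter (fun q : (Fin P → U → Bool) × (U → Bool) =>
          (∀ k, Off γ (b k.succ) (q.1 k)) ∧ Off γ bY q.2 ∧ a ∈ Nx γ (b 0) q.1 ∧
            a' ∈ Nx γ (b 0) q.1), G a q * G a' q / N q.1 := by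
      have e1 : ∀ q ∈ X, I q ^ 2 / N q.1 = ∑ a ∈ univ.filter (Off γ (b 0)),
          ∑ a' ∈ univ.filter (Off γ (b 0)),
            if a ∈ Nx γ (b 0) q.1 ∧ a' ∈ Nx γ (b 0) q.1 then G a q * G a' q / N q.1 else 0 := by
        intro q _
        have hsub : Nx γ (b 0) q.1 ⊆ univ.filter (Off γ (b 0)) := by
          intro a ha
          rw [mem_nx] at ha
          rw [mem_filter]
          exact ⟨mem_univ _, ha.1⟩
        have e2 : ∀ f : (U → Bool) → ℝ, ∑ a ∈ Nx γ (b 0) q.1, f a =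
            ∑ a ∈ univ.filter (Off γ (b 0)), if a ∈ Nx γ (b 0) q.1 then f a else 0 := by
          intro f
          rw [← Finset.sum_filter]
          refine Finset.sum_congr ?_ fun _ _ => rfl
          ext a
          rw [mem_filter]
          exact ⟨fun h => ⟨hsub h, h⟩, fun h => h.2⟩
        rw [sq, hI, Finset.sum_mul_sum, Finset.sum_div, e2]
        refine Finset.sum_congr rfl fun a _ => ?_
        rw [Finset.sum_div, e2]
        by_cases ha : a ∈ Nx γ (b 0) q.1
        · rw [if_pos ha]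
          refine Finset.sum_congr rfl fun a' _ => ?_
          simp only [ha, true_and]
        · rw [if_neg ha]
          symm
          refine Finset.sum_eq_zero fun a' _ => ?_
          rw [if_neg fun h => ha h.1]
      rw [Finset.sum_congr rfl e1, Finset.sum_comm]
      refine Finset.sum_congr rfl fun a _ => ?_
      rw [Finset.sum_comm]
      refine Finset.sum_congr rfl fun a' _ => ?_
      rw [← Finset.sum_filter]
      refine Finset.sum_congr ?_ fun _ _ => rfl
      ext q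
      rw [mem_filter, mem_filter, hX]
      simp only [mem_univ, true_and, and_assoc]
    have s5 : ∑ q ∈ X, I q ^ 2 / N q.1 ≤
        (Adm γ b bY).card * ∏ j, (2 ^ (P + 1) - 1) ^ 2 / (bc γ j : ℝ) := by
      rw [s4]
      refine le_trans (Finset.sum_le_sum fun a _ => Finset.sum_le_sum fun a' _ => ?_)
        (blocks P γ b bY)
      refine (le_abs_self _).trans ?_
      refine class_sum _ (ky γ a a') _ _ ?_
      intro q₀ hq₀ T hT
      rw [mem_filter] at hq₀
      have h0 : Cc γ (b 0) (fun k => b k.succ) bY a a' q₀ := hq₀.2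
      have hT' : T = Adm (gm γ a a' (Ee γ a a' q₀.1)) q₀.1 q₀.2 := by
        ext q
        rw [hT, ky_eq, mem_filter, ← fib_mem γ (b 0) (fun k => b k.succ) bY a a' q₀ q h0]
        simp only [mem_univ, true_and]
        rfl
      have hTm : ∀ q ∈ T, Cc γ (b 0) (fun k => b k.succ) bY a a' q ∧ Sm γ a a' q₀ q := by
        intro q hq
        rw [hT', ← fib_mem γ (b 0) (fun k => b k.succ) bY a a' q₀ q h0] at hq
        exact hq
      have hNq : ∀ q ∈ T, N q.1 = N q₀.1 := by
        intro q hq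
        rw [hN, hN, card_fib γ (b 0) (fun k => b k.succ) bY a a' q₀ q h0 (hTm q hq).1
          (hTm q hq).2]
      have hw : ∀ q ∈ T, ∏ j, wt γ a a' q.1 j = ∏ β : {j // Ee γ a a' q₀.1 j} × Bool,
          (2 ^ P - 1) / Real.sqrt (bc (gm γ a a' (Ee γ a a' q₀.1)) β) := by
        intro q hq
        exact wt_fib γ a a' q.1 (Ee γ a a' q₀.1) (hTm q hq).2.1
      have r1 : ∑ q ∈ T, G a q * G a' q / N q.1 = (∑ q ∈ T, G a q * G a' q) / N q₀.1 := by
        rw [Finset.sum_div]
        refine Finset.sum_congr rfl fun q hq => ?_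
        rw [hNq q hq]
      have r2 : ∑ q ∈ T, (∏ j, wt γ a a' q.1 j) / ((Nx γ (b 0) q.1).card : ℝ) =
          (T.card * ∏ β : {j // Ee γ a a' q₀.1 j} × Bool,
          (2 ^ P - 1) / Real.sqrt (bc (gm γ a a' (Ee γ a a' q₀.1)) β)) / N q₀.1 := by
        rw [← nsmul_eq_mul, ← Finset.sum_const, Finset.sum_div]
        refine Finset.sum_congr rfl fun q hq => ?_
        rw [hw q hq, ← hN, hNq q hq]
      have r3 : ∑ q ∈ T, G a q * G a' q = ∑ q ∈ T, sgn (gm γ a a' (Ee γ a a' q₀.1)) q.1 q.2 *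
          (c' (Fin.cons a q.1 : Fin (P + 1) → U → Bool) *
            c' (Fin.cons a' q.1 : Fin (P + 1) → U → Bool)) *
          ∏ k : Fin P, (c k.succ (Fin.cons a q.1 : Fin (P + 1) → U → Bool) q.2 *
            c k.succ (Fin.cons a' q.1 : Fin (P + 1) → U → Bool) q.2) := by
        refine Finset.sum_congr rfl fun q hq => ?_
        rw [← sgn_fib γ (b 0) (fun k => b k.succ) bY a a' q₀ q (hTm q hq).1 (hTm q hq).2, hG,
          hG, Finset.prod_mul_distrib]
        ring
      rw [r1, r2, abs_div, abs_of_nonneg (hN0 q₀.1)]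
      refine div_le_div_of_nonneg_right ?_ (hN0 _)
      rw [r3, hT']
      refine ih ({j // Ee γ a a' q₀.1 j} × Bool) (gm γ a a' (Ee γ a a' q₀.1)) q₀.1 q₀.2
        (fun k x Y => c k.succ (Fin.cons a x : Fin (P + 1) → U → Bool) Y *
          c k.succ (Fin.cons a' x : Fin (P + 1) → U → Bool) Y)
        (fun x => c' (Fin.cons a x : Fin (P + 1) → U → Bool) *
          c' (Fin.cons a' x : Fin (P + 1) → U → Bool)) ?_ ?_ ?_
      · intro k x Y
        rw [abs_mul]
        exact mul_le_one₀ (hc _ _ _) (abs_nonneg _) (hc _ _ _)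
      · intro x
        rw [abs_mul]
        exact mul_le_one₀ (hc' _) (abs_nonneg _) (hc' _)
      · intro k x x' Y hx
        have hj : ∀ f : U → Bool, ∀ j, j ≠ k.succ → (Fin.cons f x : Fin (P + 1) → U → Bool) j =
            (Fin.cons f x' : Fin (P + 1) → U → Bool) j := by
          intro f j
          refine Fin.cases ?_ (fun i => ?_) j
          · intro _
            rfl
          · intro hne
            rw [Fin.cons_succ, Fin.cons_succ]
            exact hx i fun he => hne (by rw [he])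
        rw [hi k.succ _ _ Y (hj a), hi k.succ _ _ Y (hj a')]
    -- conclusion
    have hA : (0 : ℝ) ≤ (Adm γ b bY).card := by positivity
    have hm : (0 : ℝ) ≤ 2 ^ (P + 1) - 1 := by
      have : (1 : ℝ) ≤ 2 ^ (P + 1) := one_le_pow₀ (by norm_num)
      linarith
    refine s2.trans ?_
    refine le_of_sq_le_sq ?_ ?_
    · refine s3.trans ?_
      rw [s1]
      refine (mul_le_mul_of_nonneg_left s5 hA).trans (le_of_eq ?_)
      rw [mul_pow, ← Finset.prod_pow]
      have e : ∀ j, ((2 ^ (P + 1) - 1) / Real.sqrt (bc γ j)) ^ 2 =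
          (2 ^ (P + 1) - 1) ^ 2 / (bc γ j : ℝ) := by
        intro j
        rw [div_pow, Real.sq_sqrt (Nat.cast_nonneg _)]
      simp only [e]
      ring
    · refine mul_nonneg hA (Finset.prod_nonneg fun j _ => div_nonneg hm (Real.sqrt_nonneg _))

/-- **the discrepancy** -/
theorem disc {U J : Type} [Fintype U] [Fintype J] (P : ℕ) (γ : U → Option J)
    (b : Fin P → U → Bool) (bY : U → Bool)
    (c : Fin P → (Fin P → U → Bool) → (U → Bool) → ℝ) (c' : (Fin P → U → Bool) → ℝ)
    (hc : ∀ k x Y, |c k x Y| ≤ 1) (hc' : ∀ x, |c' x| ≤ 1)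
    (hi : ∀ k x x' Y, (∀ j, j ≠ k → x j = x' j) → c k x Y = c k x' Y) :
    |∑ q ∈ Adm γ b bY, sgn γ q.1 q.2 * c' q.1 * ∏ k, c k q.1 q.2| ≤
      (Adm γ b bY).card * ∏ j, (2 ^ P - 1) / Real.sqrt (bc γ j) :=
  disc_aux P J γ b bY c c' hc hc' hi

end Pool.Agent.RQ
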