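import Mathlib
import Pool.Agent.Lib.MP_0a1b52_lc_RQ.Defs
import Pool.Agent.Lib.MP_0a1b52_lc_RQ.Disc

/-!
# The measure of star-closed sets of zeros
-/

set_option autoImplicit false

namespace Pool.Agent.RQ

open Finset

section

variable {ι : Type} [Fintype ι] {B P : ℕ}

open Classical in
/-- the groups whose block is large and contains the common coordinate -/
private noncomputable def EE (A : ι → Finset (Fin B)) (x : Fin P → ι × Fin B → Bool) :
    Finset ι :=
  univ.filter fun τ => 4 ^ (P + 2) ≤ (A τ).card ∧ ∃ s ∈ A τ, ∀ k, x k (τ, s) = true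

private lemma mem_ZZ {q : (Fin P → ι × Fin B → Bool) × (ι × Fin B → Bool)} :
    q ∈ ZZ ι B P ↔ Prom q.1 ∧ ∀ u, (∀ k, q.1 k u = true) → q.2 u = false := by
  simp [ZZ]

private lemma mem_Adm {U J : Type} [Fintype U] {P : ℕ} {γ : U → Option J} {b : Fin P → U → Bool}
    {bY : U → Bool} {q : (Fin P → U → Bool) × (U → Bool)} :
    q ∈ Adm γ b bY ↔ One γ q.1 ∧ (∀ k, Off γ (b k) (q.1 k)) ∧ Off γ bY q.2 := by
  simp [Adm]

private lemma mem_EE {A : ι → Finset (Fin B)} {x : Fin P → ι × Fin B → Bool} {τ : ι} :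
    τ ∈ EE A x ↔ 4 ^ (P + 2) ≤ (A τ).card ∧ ∃ s ∈ A τ, ∀ k, x k (τ, s) = true := by
  simp [EE]

open Classical in
/-- the blocks -/
private noncomputable def gam (A : ι → Finset (Fin B)) (E : Finset ι) (u : ι × Fin B) :
    Option {τ // τ ∈ E} :=
  if h : u.1 ∈ E ∧ u.2 ∈ A u.1 then some ⟨u.1, h.1⟩ else none

omit [Fintype ι] in
private lemma gam_none {A : ι → Finset (Fin B)} {E : Finset ι} {u : ι × Fin B} :
    gam A E u = none ↔ ¬ (u.1 ∈ E ∧ u.2 ∈ A u.1) := by
  unfold gam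
  split_ifs with h
  · simp [h]
  · simp [h]

omit [Fintype ι] in
private lemma gam_some {A : ι → Finset (Fin B)} {E : Finset ι} {u : ι × Fin B}
    {j : {τ // τ ∈ E}} : gam A E u = some j ↔ u.1 = j.1 ∧ u.2 ∈ A u.1 := by
  unfold gam
  split_ifs with h
  · simp only [Option.some.injEq, Subtype.ext_iff]
    exact ⟨fun e => ⟨e, h.2⟩, fun e => e.1⟩
  · constructor
    · intro e
      cases e
    · intro e
      exact absurd ⟨e.1 ▸ j.2, e.2⟩ h

private lemma bc_gam (A : ι → Finset (Fin B)) (E : Finset ι) (j : {τ // τ ∈ E}) :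
    bc (gam A E) j = (A j.1).card := by
  classical
  unfold bc
  refine (Finset.card_bij (fun s _ => (j.1, s)) ?_ ?_ ?_).symm
  · intro s hs
    simp only [mem_filter, mem_univ, true_and]
    exact gam_some.2 ⟨rfl, hs⟩
  · intro s _ s' _ h
    exact (Prod.mk.inj h).2
  · intro u hu
    simp only [mem_filter, mem_univ, true_and] at hu
    obtain ⟨h1, h2⟩ := gam_some.1 hu
    refine ⟨u.2, ?_, ?_⟩
    · rw [← h1]
      exact h2
    · exact Prod.ext h1.symm rfl

private lemma cl_struct {A : ι → Finset (Fin B)} {x0 x : Fin P → ι × Fin B → Bool}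
    (h0 : Prom x0) (h1 : One (gam A (EE A x0)) x)
    (h2 : ∀ k, Off (gam A (EE A x0)) (x0 k) (x k)) :
    EE A x = EE A x0 ∧ Prom x := by
  have hoff : ∀ τ s, ¬ (τ ∈ EE A x0 ∧ s ∈ A τ) → ∀ k, x k (τ, s) = x0 k (τ, s) := by
    intro τ s h k
    exact h2 k (τ, s) (gam_none.2 h)
  constructor
  · ext τ
    constructor
    · intro h
      rw [mem_EE] at h
      obtain ⟨hA, s, hs, hk⟩ := h
      by_contra hn
      apply hn
      rw [mem_EE]
      refine ⟨hA, s, hs, fun k => ?_⟩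
      rw [← hoff τ s (fun hh => hn hh.1) k]
      exact hk k
    · intro h
      have h' := h
      rw [mem_EE] at h'
      obtain ⟨u, ⟨hu1, hu2⟩, -⟩ := h1 ⟨τ, h⟩
      obtain ⟨hu3, hu4⟩ := gam_some.1 hu1
      rw [mem_EE]
      have e : u = (τ, u.2) := Prod.ext hu3 rfl
      refine ⟨h'.1, u.2, ?_, fun k => ?_⟩
      · have : u.1 = τ := hu3
        rw [← this]
        exact hu4
      · rw [← e]
        exact hu2 k
  · intro τ
    by_cases hτ : τ ∈ EE A x0
    · obtain ⟨u, ⟨hu1, hu2⟩, hu3⟩ := h1 ⟨τ, hτ⟩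
      obtain ⟨hu4, hu5⟩ := gam_some.1 hu1
      have hu4' : u.1 = τ := hu4
      have e : u = (τ, u.2) := Prod.ext hu4' rfl
      refine ⟨u.2, fun k => ?_, ?_⟩
      · rw [← e]
        exact hu2 k
      · intro s hs
        by_cases hsA : s ∈ A τ
        · have := hu3 (τ, s) ⟨gam_some.2 ⟨rfl, hsA⟩, hs⟩
          rw [← this]
        · exfalso
          have hs0 : ∀ k, x0 k (τ, s) = true := by
            intro k
            rw [← hoff τ s (fun hh => hsA hh.2) k]
            exact hs k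
          rw [mem_EE] at hτ
          obtain ⟨-, s1, hs1, hs2⟩ := hτ
          have := (h0 τ).unique hs0 hs2
          rw [this] at hsA
          exact hsA hs1
    · obtain ⟨s, hs, hu⟩ := h0 τ
      refine ⟨s, fun k => ?_, ?_⟩
      · show x k (τ, s) = true
        rw [hoff τ s (fun hh => hτ hh.1) k]
        exact hs k
      · intro s' hs'
        apply hu
        intro k
        rw [← hoff τ s' (fun hh => hτ hh.1) k]
        exact hs' k

private lemma one_of {A : ι → Finset (Fin B)} {x : Fin P → ι × Fin B → Bool}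
    (h0 : Prom x) : One (gam A (EE A x)) x := by
  intro j
  have hj := j.2
  rw [mem_EE] at hj
  obtain ⟨-, s, hs, hk⟩ := hj
  refine ⟨(j.1, s), ⟨gam_some.2 ⟨rfl, hs⟩, hk⟩, ?_⟩
  intro u hu
  obtain ⟨hu1, hu2⟩ := gam_some.1 hu.1
  have e : u = (j.1, u.2) := Prod.ext hu1 rfl
  have h3 : u.2 = s := by
    apply (h0 j.1).unique _ hk
    intro k
    rw [← e]
    exact hu.2 k
  rw [e, h3]

/-- the class of `q0` has at most `2 ^ |E|` times the number of its zeros -/
private lemma card_cl {A : ι → Finset (Fin B)}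
    {q0 : (Fin P → ι × Fin B → Bool) × (ι × Fin B → Bool)} (h0 : q0 ∈ ZZ ι B P)
    [DecidableEq ((Fin P → ι × Fin B → Bool) × (ι × Fin B → Bool))] :
    (Adm (gam A (EE A q0.1)) q0.1 q0.2).card ≤
      (Adm (gam A (EE A q0.1)) q0.1 q0.2 ∩ ZZ ι B P).card * 2 ^ (EE A q0.1).card := by
  classical
  set E := EE A q0.1 with hE
  set γ := gam A E with hγ
  have hP0 : Prom q0.1 := (mem_ZZ.1 h0).1
  have hZ0 := (mem_ZZ.1 h0).2
  have hc : (2 : ℕ) ^ E.card = (univ : Finset ({τ // τ ∈ E} → Bool)).card := by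
    rw [Finset.card_univ, Fintype.card_fun]
    simp
  rw [hc, ← Finset.card_product]
  refine Finset.card_le_card_of_injOn
    (fun q => ((q.1, fun u => if γ u ≠ none ∧ (∀ k, q.1 k u = true) then false else q.2 u),
      fun j => decide (∃ u, γ u = some j ∧ (∀ k, q.1 k u = true) ∧ q.2 u = true))) ?_ ?_
  · intro q hq
    have hq' := mem_Adm.1 (Finset.mem_coe.1 hq)
    obtain ⟨hq1, hq2, hq3⟩ := hq'
    obtain ⟨hEE, hProm⟩ := cl_struct hP0 hq1 hq2
    simp only [Finset.coe_product, Set.mem_prod, Finset.mem_coe, mem_univ, and_true, mem_inter]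
    constructor
    · refine mem_Adm.2 ⟨hq1, hq2, ?_⟩
      intro u hu
      show (if γ u ≠ none ∧ (∀ k, q.1 k u = true) then false else q.2 u) = q0.2 u
      rw [if_neg (fun h => h.1 hu)]
      exact hq3 u hu
    · refine mem_ZZ.2 ⟨hProm, ?_⟩
      intro u hu
      show (if γ u ≠ none ∧ (∀ k, q.1 k u = true) then false else q.2 u) = false
      by_cases hn : γ u = none
      · rw [if_neg (fun h => h.1 hn), hq3 u hn]
        apply hZ0
        intro k
        rw [← hq2 k u hn]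
        exact hu k
      · rw [if_pos ⟨hn, hu⟩]
  · intro q hq q' hq' h
    have hq1 := (mem_Adm.1 (Finset.mem_coe.1 hq)).1
    simp only [Prod.mk.injEq] at h
    obtain ⟨⟨hx, hY⟩, he⟩ := h
    refine Prod.ext hx ?_
    funext u
    by_cases hu : γ u ≠ none ∧ (∀ k, q.1 k u = true)
    · obtain ⟨hn, hk⟩ := hu
      obtain ⟨j, hj⟩ := Option.ne_none_iff_exists'.1 hn
      have key : ∀ r : (Fin P → ι × Fin B → Bool) × (ι × Fin B → Bool), r.1 = q.1 →
          (r.2 u = true ↔ ∃ u, γ u = some j ∧ (∀ k, r.1 k u = true) ∧ r.2 u = true) := by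
        intro r hr
        constructor
        · intro h
          refine ⟨u, hj, ?_, h⟩
          rw [hr]
          exact hk
        · rintro ⟨u', h1, h2, h3⟩
          rw [hr] at h2
          have := (hq1 j).unique ⟨h1, h2⟩ ⟨hj, hk⟩
          rw [← this]
          exact h3
      have e1 := key q rfl
      have e2 := key q' hx.symm
      have e3 := congrFun he j
      rw [decide_eq_decide] at e3
      rw [Bool.eq_iff_iff, e1, e2]
      exact e3
    · have e := congrFun hY u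
      have hu' : ¬ (γ u ≠ none ∧ (∀ k, q'.1 k u = true)) := by
        rw [← hx]
        exact hu
      simp only [if_neg hu, if_neg hu'] at e
      exact e

/-- the bound on one class -/
private lemma card_class {A : ι → Finset (Fin B)}
    {S : Finset ((Fin P → ι × Fin B → Bool) × (ι × Fin B → Bool))} (hS : S ⊆ ZZ ι B P)
    (hstar : ∀ q : (Fin P → ι × Fin B → Bool) × (ι × Fin B → Bool), Prom q.1 →
      (∀ k, ∃ x : Fin P → ι × Fin B → Bool, (∀ j, j ≠ k → x j = q.1 j) ∧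
        (∀ τ s, s ∉ A τ → x k (τ, s) = q.1 k (τ, s)) ∧ (x, q.2) ∈ S) →
      (∃ Y : ι × Fin B → Bool, (∀ τ s, s ∉ A τ → Y (τ, s) = q.2 (τ, s)) ∧ (q.1, Y) ∈ S) →
      q ∈ S)
    {q0 : (Fin P → ι × Fin B → Bool) × (ι × Fin B → Bool)} (h0 : q0 ∈ ZZ ι B P)
    [DecidableEq ((Fin P → ι × Fin B → Bool) × (ι × Fin B → Bool))] :
    ((Adm (gam A (EE A q0.1)) q0.1 q0.2 ∩ S).card : ℝ) ≤
      (Adm (gam A (EE A q0.1)) q0.1 q0.2).card * (1 / 4 : ℝ) ^ (EE A q0.1).card := by
  classical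
  set E := EE A q0.1 with hE
  set γ := gam A E with hγ
  have hP0 : Prom q0.1 := (mem_ZZ.1 h0).1
  have hd := disc P γ q0.1 q0.2
    (fun k x Y => if ∃ x' : Fin P → ι × Fin B → Bool, (∀ j, j ≠ k → x' j = x j) ∧
      Off γ (q0.1 k) (x' k) ∧ (x', Y) ∈ S then 1 else 0)
    (fun x => if ∃ Y : ι × Fin B → Bool, Off γ q0.2 Y ∧ (x, Y) ∈ S then 1 else 0)
    (by
      intro k x Y
      show |(if _ then (1 : ℝ) else 0)| ≤ 1
      split_ifs <;> simp)
    (by
      intro x
      show |(if _ then (1 : ℝ) else 0)| ≤ 1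
      split_ifs <;> simp)
    (by
      intro k x x' Y h
      have : (∃ z : Fin P → ι × Fin B → Bool, (∀ j, j ≠ k → z j = x j) ∧
          Off γ (q0.1 k) (z k) ∧ (z, Y) ∈ S) ↔
          (∃ z : Fin P → ι × Fin B → Bool, (∀ j, j ≠ k → z j = x' j) ∧
          Off γ (q0.1 k) (z k) ∧ (z, Y) ∈ S) := by
        constructor
        · rintro ⟨z, h1, h2⟩
          exact ⟨z, fun j hj => (h1 j hj).trans (h j hj), h2⟩
        · rintro ⟨z, h1, h2⟩
          exact ⟨z, fun j hj => (h1 j hj).trans (h j hj).symm, h2⟩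
      show (if _ then (1 : ℝ) else 0) = if _ then 1 else 0
      simp only [this])
  have hsum : (∑ q ∈ Adm γ q0.1 q0.2, sgn γ q.1 q.2 *
      (if ∃ Y : ι × Fin B → Bool, Off γ q0.2 Y ∧ (q.1, Y) ∈ S then (1 : ℝ) else 0) *
      ∏ k, (if ∃ x' : Fin P → ι × Fin B → Bool, (∀ j, j ≠ k → x' j = q.1 j) ∧
        Off γ (q0.1 k) (x' k) ∧ (x', q.2) ∈ S then (1 : ℝ) else 0)) =
      ((Adm γ q0.1 q0.2 ∩ S).card : ℝ) := by
    rw [Finset.card_eq_sum_ones, Nat.cast_sum, ← Finset.filter_mem_eq_inter, Finset.sum_filter]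
    refine Finset.sum_congr rfl fun q hq => ?_
    obtain ⟨hq1, hq2, hq3⟩ := mem_Adm.1 hq
    obtain ⟨hEE, hProm⟩ := cl_struct hP0 hq1 hq2
    by_cases hqS : q ∈ S
    · have h1 : sgn γ q.1 q.2 = 1 := by
        unfold sgn
        refine Finset.prod_eq_one fun u _ => ?_
        rw [if_neg]
        rintro ⟨-, h2, h3⟩
        have := (mem_ZZ.1 (hS hqS)).2 u h2
        rw [h3] at this
        cases this
      rw [if_pos hqS, h1, if_pos ⟨q.2, hq3, hqS⟩, Finset.prod_eq_one]
      · norm_num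
      · intro k _
        exact if_pos ⟨q.1, fun _ _ => rfl, hq2 k, hqS⟩
    · rw [if_neg hqS]
      by_cases hc' : ∃ Y : ι × Fin B → Bool, Off γ q0.2 Y ∧ (q.1, Y) ∈ S
      · by_cases hc : ∀ k, ∃ x' : Fin P → ι × Fin B → Bool, (∀ j, j ≠ k → x' j = q.1 j) ∧
            Off γ (q0.1 k) (x' k) ∧ (x', q.2) ∈ S
        · exfalso
          apply hqS
          apply hstar q hProm
          · intro k
            obtain ⟨x', h1, h2, h3⟩ := hc k
            refine ⟨x', h1, ?_, h3⟩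
            intro τ s hs
            have hn : γ (τ, s) = none := gam_none.2 fun h => hs h.2
            rw [h2 _ hn, hq2 k _ hn]
          · obtain ⟨Y, h1, h2⟩ := hc'
            refine ⟨Y, ?_, h2⟩
            intro τ s hs
            have hn : γ (τ, s) = none := gam_none.2 fun h => hs h.2
            rw [h1 _ hn, hq3 _ hn]
        · push Not at hc
          obtain ⟨k, hk⟩ := hc
          rw [Finset.prod_eq_zero (mem_univ k), mul_zero]
          rw [if_neg]
          rintro ⟨x', h1, h2, h3⟩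
          exact hk x' h1 h2 h3
      · rw [if_neg hc', mul_zero, zero_mul]
  have hd' : |((Adm γ q0.1 q0.2 ∩ S).card : ℝ)| ≤
      (Adm γ q0.1 q0.2).card * ∏ j, (2 ^ P - 1) / Real.sqrt (bc γ j) := by
    rw [← hsum]
    exact hd
  refine (le_abs_self _).trans (hd'.trans ?_)
  refine mul_le_mul_of_nonneg_left ?_ (Nat.cast_nonneg _)
  have h2 : (1 / 4 : ℝ) ^ E.card = ∏ _j : {τ // τ ∈ E}, (1 / 4 : ℝ) := by
    rw [Finset.prod_const, Finset.card_univ, Fintype.card_coe]
  rw [h2]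
  have hP1 : (1 : ℝ) ≤ 2 ^ P := one_le_pow₀ (by norm_num)
  refine Finset.prod_le_prod (fun j _ => div_nonneg (by linarith) (Real.sqrt_nonneg _)) ?_
  intro j _
  have hj : j.1 ∈ EE A q0.1 := j.2
  rw [mem_EE] at hj
  have h3 : (2 : ℝ) ^ (P + 2) ≤ Real.sqrt (bc γ j) := by
    rw [hγ, bc_gam]
    apply Real.le_sqrt_of_sq_le
    have h4 : ((4 ^ (P + 2) : ℕ) : ℝ) ≤ (A j.1).card := by
      exact_mod_cast hj.1
    calc ((2 : ℝ) ^ (P + 2)) ^ 2 = ((4 ^ (P + 2) : ℕ) : ℝ) := by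
          push_cast
          rw [← pow_mul, mul_comm, pow_mul]
          norm_num
      _ ≤ _ := h4
  have h5 : (0 : ℝ) < 2 ^ (P + 2) := by positivity
  rw [div_le_div_iff₀ (lt_of_lt_of_le h5 h3) (by norm_num)]
  have h6 : (2 : ℝ) ^ (P + 2) = 2 ^ P * 4 := by
    rw [pow_add]
    norm_num
  rw [h6] at h3
  linarith

end

open Classical in
/-- the measure of a star-closed set of zeros: every large block which contains the common
coordinate contributes a factor `1 / 2` -/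
theorem measure {ι : Type} [Fintype ι] {B P : ℕ} (A : ι → Finset (Fin B))
    (S : Finset ((Fin P → ι × Fin B → Bool) × (ι × Fin B → Bool))) (hS : S ⊆ ZZ ι B P)
    (hstar : ∀ q : (Fin P → ι × Fin B → Bool) × (ι × Fin B → Bool), Prom q.1 →
      (∀ k, ∃ x : Fin P → ι × Fin B → Bool, (∀ j, j ≠ k → x j = q.1 j) ∧
        (∀ τ s, s ∉ A τ → x k (τ, s) = q.1 k (τ, s)) ∧ (x, q.2) ∈ S) →
      (∃ Y : ι × Fin B → Bool, (∀ τ s, s ∉ A τ → Y (τ, s) = q.2 (τ, s)) ∧ (q.1, Y) ∈ S) →
      q ∈ S) :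
    (S.card : ℝ) ≤ ∑ q ∈ ZZ ι B P, (1 / 2 : ℝ) ^ (univ.filter fun τ =>
      4 ^ (P + 2) ≤ (A τ).card ∧ ∃ s ∈ A τ, ∀ k, q.1 k (τ, s) = true).card := by
  set key : (Fin P → ι × Fin B → Bool) × (ι × Fin B → Bool) →
      Finset ι × ((Fin P → ι × Fin B → Bool) × (ι × Fin B → Bool)) := fun q =>
    (EE A q.1, (fun k u => if gam A (EE A q.1) u = none then q.1 k u else false,
      fun u => if gam A (EE A q.1) u = none then q.2 u else false)) with hkey
  have hcl : ∀ q0 ∈ ZZ ι B P, ∀ q ∈ ZZ ι B P, key q = key q0 ↔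
      q ∈ Adm (gam A (EE A q0.1)) q0.1 q0.2 := by
    intro q0 hq0 q hq
    have h0 := (mem_ZZ.1 hq0).1
    have h1 := (mem_ZZ.1 hq).1
    rw [mem_Adm]
    constructor
    · intro h
      simp only [hkey, Prod.mk.injEq] at h
      obtain ⟨hE, hx, hY⟩ := h
      rw [hE] at hx hY
      refine ⟨?_, ?_, ?_⟩
      · rw [← hE]
        exact one_of h1
      · intro k u hu
        have := congrFun (congrFun hx k) u
        simpa only [if_pos hu] using this
      · intro u hu
        have := congrFun hY u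
        simpa only [if_pos hu] using this
    · rintro ⟨h2, h3, h4⟩
      obtain ⟨hE, -⟩ := cl_struct h0 h2 h3
      simp only [hkey, Prod.mk.injEq]
      refine ⟨hE, ?_, ?_⟩
      · rw [hE]
        funext k u
        split_ifs with hu
        · exact h3 k u hu
        · rfl
      · rw [hE]
        funext u
        split_ifs with hu
        · exact h4 u hu
        · rfl
  have hmaps : ∀ q ∈ ZZ ι B P, key q ∈ (ZZ ι B P).image key :=
    fun q hq => Finset.mem_image_of_mem key hq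
  have hmapsS : ∀ q ∈ S, key q ∈ (ZZ ι B P).image key := fun q hq => hmaps q (hS hq)
  rw [Finset.card_eq_sum_card_fiberwise hmapsS, Nat.cast_sum]
  rw [← Finset.sum_fiberwise_of_maps_to hmaps]
  refine Finset.sum_le_sum fun y hy => ?_
  obtain ⟨q0, hq0, rfl⟩ := Finset.mem_image.1 hy
  have e1 : S.filter (fun q => key q = key q0) =
      Adm (gam A (EE A q0.1)) q0.1 q0.2 ∩ S := by
    ext q
    rw [mem_filter, mem_inter]
    constructor
    · rintro ⟨h1, h2⟩
      exact ⟨(hcl q0 hq0 q (hS h1)).1 h2, h1⟩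
    · rintro ⟨h1, h2⟩
      exact ⟨h2, (hcl q0 hq0 q (hS h2)).2 h1⟩
  have e2 : (ZZ ι B P).filter (fun q => key q = key q0) =
      Adm (gam A (EE A q0.1)) q0.1 q0.2 ∩ ZZ ι B P := by
    ext q
    rw [mem_filter, mem_inter]
    constructor
    · rintro ⟨h1, h2⟩
      exact ⟨(hcl q0 hq0 q h1).1 h2, h1⟩
    · rintro ⟨h1, h2⟩
      exact ⟨h2, (hcl q0 hq0 q h2).2 h1⟩
  rw [e1, e2]
  have e3 : ∀ q ∈ Adm (gam A (EE A q0.1)) q0.1 q0.2 ∩ ZZ ι B P,
      (1 / 2 : ℝ) ^ (univ.filter fun τ =>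
        4 ^ (P + 2) ≤ (A τ).card ∧ ∃ s ∈ A τ, ∀ k, q.1 k (τ, s) = true).card =
      (1 / 2 : ℝ) ^ (EE A q0.1).card := by
    intro q hq
    obtain ⟨h1, h2⟩ := mem_inter.1 hq
    obtain ⟨h3, h4, h5⟩ := mem_Adm.1 h1
    rw [← (cl_struct (mem_ZZ.1 hq0).1 h3 h4).1]
    rfl
  rw [Finset.sum_congr rfl e3, Finset.sum_const, nsmul_eq_mul]
  have h1 := card_class hS hstar hq0
  have h2 : ((Adm (gam A (EE A q0.1)) q0.1 q0.2).card : ℝ) ≤
      (Adm (gam A (EE A q0.1)) q0.1 q0.2 ∩ ZZ ι B P).card * 2 ^ (EE A q0.1).card := by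
    exact_mod_cast card_cl (A := A) hq0
  calc ((Adm (gam A (EE A q0.1)) q0.1 q0.2 ∩ S).card : ℝ)
      ≤ (Adm (gam A (EE A q0.1)) q0.1 q0.2).card * (1 / 4 : ℝ) ^ (EE A q0.1).card := h1
    _ ≤ ((Adm (gam A (EE A q0.1)) q0.1 q0.2 ∩ ZZ ι B P).card * 2 ^ (EE A q0.1).card) *
        (1 / 4 : ℝ) ^ (EE A q0.1).card := by gcongr
    _ = _ := by
        rw [mul_assoc, ← mul_pow]
        norm_num

end Pool.Agent.RQ
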