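import Mathlib
import Pool.Agent.Lib.MP_0a1b52_lc_RP.Bad
import Pool.Agent.Lib.MP_0a1b52_lc_RP.Struct
import Pool.Agent.Lib.MP_0a1b52_lc_RK.Dens
import Pool.Agent.Lib.MP_0a1b52_lc_RK.Clq
import Pool.Agent.Lib.MP_0a1b52_lc_RQ.Meas
import Pool.Agent.Lib.MP_0a1b52_lc_RQ.Good

/-!
# Local proofs with many sets, module Core: one family of graphs for all sets `X k`
-/

set_option autoImplicit false

namespace Pool.Agent.RQ

open Finset Pool.Agent.FP Pool.Agent.RP Pool.Agent.RK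

private theorem core_pr {n : ℕ} {X : Finset (EdgeVar n)} {u v : Fin n} (h : Pr X u v)
    (e : EdgeVar n) (he : e ∉ X) : ¬ (e.1 = (u, v) ∨ e.1 = (v, u)) := by
  obtain ⟨e', h1, h2⟩ := h
  have a1 := e.2
  have a2 := e'.2
  rintro (h3 | h3)
  · rcases h2 with h2 | h2
    · exact he ((Subtype.ext (h3.trans h2.symm) : e = e') ▸ h1)
    · rw [h3] at a1
      rw [h2] at a2
      exact lt_asymm a1 a2
  · rcases h2 with h2 | h2
    · rw [h3] at a1
      rw [h2] at a2
      exact lt_asymm a1 a2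
    · exact he ((Subtype.ext (h3.trans h2.symm) : e = e') ▸ h1)

theorem core_card (K z : ℕ) : Fintype.card (RK.J K z) = z + 2 * K := by
  simp only [RK.J, Fintype.card_sum, Fintype.card_prod, Fintype.card_fin, Fintype.card_bool]
  omega

/-- the clique property in the larger set of vertices -/
theorem core_clique {I : Type} {K a h n N z : ℕ} (hK : 1 ≤ K) (hN : N ≤ n)
    {w : I → RK.J K z → Fin N} (hw : NoBad a h w) (ha : 1 ≤ a) (hh : 2 ≤ h)
    (hz : a * h ^ 2 ≤ z + 2 * K) (S : Finset (Fin n)) (hS : z + 2 * K ≤ S.card)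
    (hcov : ∀ u ∈ S, ∀ v ∈ S, u ≠ v → ∃ i j j', Fin.castLE hN (w i j) = u ∧
      Fin.castLE hN (w i j') = v) :
    ∃ i, ∀ u ∈ S, ∃ j, Fin.castLE hN (w i j) = u := by
  classical
  have hcard := core_card K z
  have hinj : Function.Injective (Fin.castLE hN) := Fin.castLE_injective hN
  set S0 : Finset (Fin N) := univ.filter fun u => Fin.castLE hN u ∈ S with hS0
  have hrange : ∀ u ∈ S, ∃ u0 ∈ S0, Fin.castLE hN u0 = u := by
    intro u hu
    obtain ⟨v, hv, hvu⟩ : ∃ v ∈ S, v ≠ u := by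
      have h1 : 1 < S.card := by omega
      exact Finset.exists_mem_ne h1 u
    obtain ⟨i, j, j', h1, -⟩ := hcov u hu v hv (Ne.symm hvu)
    exact ⟨w i j, by simp [hS0, h1, hu], h1⟩
  have himg : S0.image (Fin.castLE hN) = S := by
    ext u
    rw [mem_image]
    constructor
    · rintro ⟨u0, h0, rfl⟩
      rw [hS0, mem_filter] at h0
      exact h0.2
    · intro hu
      obtain ⟨u0, h0, h1⟩ := hrange u hu
      exact ⟨u0, h0, h1⟩
  have hcard0 : S0.card = S.card := by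
    rw [← himg, card_image_of_injective _ hinj]
  obtain ⟨i, hi⟩ := hw.clique ha hh (by rw [hcard]; exact hz) S0 (by rw [hcard, hcard0]; exact hS)
    (by
      intro u hu v hv huv
      rw [hS0, mem_filter] at hu hv
      obtain ⟨i, j, j', h1, h2⟩ := hcov _ hu.2 _ hv.2 fun h => huv (hinj h)
      exact ⟨i, j, j', hinj h1, hinj h2⟩)
  refine ⟨i, fun u hu => ?_⟩
  obtain ⟨u0, h0, rfl⟩ := hrange u hu
  obtain ⟨j, hj⟩ := hi u0 h0
  exact ⟨j, by rw [hj]⟩

open Classical in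
theorem mem_ZZ {ι : Type} [Fintype ι] {B P : ℕ}
    (q : (Fin P → ι × Fin B → Bool) × (ι × Fin B → Bool)) :
    q ∈ ZZ ι B P ↔ Prom q.1 ∧ ∀ u, (∀ k, q.1 k u = true) → q.2 u = false := by
  unfold ZZ
  rw [mem_filter]
  exact ⟨fun h => h.2, fun h => ⟨mem_univ _, h⟩⟩

/-- the inputs: `P` sets and `Y` -/
abbrev Inp (G B P : ℕ) : Type := (Fin P → Fin G × Fin B → Bool) × (Fin G × Fin B → Bool)

/-- the graph of an input with the gadgets of the groups in `Λ` -/
noncomputable def core_gr {G B P n z : ℕ} (Λ : Finset (Fin G))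
    (w : Fin G × Fin B → RK.J (P + 1) z → Fin n) (q : Inp G B P) : EdgeVar n → Bool :=
  GG (fun i : {i : Fin G × Fin B // i.1 ∈ Λ} => w i.1)
    (fun t i => (Fin.cons q.2 q.1 : Fin (P + 1) → Fin G × Fin B → Bool) t i.1)

private theorem core_indep {G B P n z : ℕ} (Λ : Finset (Fin G))
    (w : Fin G × Fin B → RK.J (P + 1) z → Fin n) (X : Fin (P + 1) → Finset (EdgeVar n))
    (A : Fin G → Finset (Fin B))
    (hA : ∀ τ, ∀ s ∈ A τ, ∀ t, Pr (X t) (w (τ, s) (.inl (t, false))) (w (τ, s) (.inl (t, true))))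
    (t₀ : Fin (P + 1)) (q q' : Inp G B P)
    (hd : ∀ t i, (Fin.cons q.2 q.1 : Fin (P + 1) → Fin G × Fin B → Bool) t i ≠
      (Fin.cons q'.2 q'.1 : Fin (P + 1) → Fin G × Fin B → Bool) t i → t = t₀ ∧ i.2 ∈ A i.1)
    (e : EdgeVar n) (he : e ∉ X t₀) : core_gr Λ w q e = core_gr Λ w q' e := by
  refine clq_indep _ _ _ e fun t i hne => ?_
  obtain ⟨rfl, hi⟩ := hd t i.1 hne
  exact core_pr (hA i.1.1 i.1.2 hi t) e he

open Classical in
/-- the measure of a star-closed set for one placement -/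
theorem core_one {G B P n z : ℕ} (Λ : Finset (Fin G))
    (w : Fin G × Fin B → RK.J (P + 1) z → Fin n) (X : Fin (P + 1) → Finset (EdgeVar n))
    (hcl : ∀ q : Inp G B P, Clq (core_gr Λ w q) ↔ ∃ i : Fin G × Fin B, i.1 ∈ Λ ∧
      ∀ t, (Fin.cons q.2 q.1 : Fin (P + 1) → Fin G × Fin B → Bool) t i = true)
    (T : (EdgeVar n → Bool) → Prop) (hT : StarK X T) (hTC : ∀ x, T x → ¬ Clq x)
    (A : Fin G → Finset (Fin B)) (hAΛ : ∀ τ, τ ∉ Λ → A τ = ∅)
    (hA : ∀ τ, ∀ s ∈ A τ, ∀ t, Pr (X t) (w (τ, s) (.inl (t, false)))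
      (w (τ, s) (.inl (t, true)))) :
    (((ZZ (Fin G) B P).filter fun q => T (core_gr Λ w q)).card : ℝ) ≤
      ∑ q ∈ ZZ (Fin G) B P, (1 / 2 : ℝ) ^ (univ.filter fun τ =>
        4 ^ (P + 2) ≤ (A τ).card ∧ ∃ s ∈ A τ, ∀ k, q.1 k (τ, s) = true).card := by
  refine measure A _ (filter_subset _ _) ?_
  rintro ⟨x, Y⟩ hprom hx ⟨Y', hY1, hY2⟩
  rw [mem_filter] at hY2
  have hTq : T (core_gr Λ w (x, Y)) := by
    choose x' hx1 hx2 hx3 using hx
    refine hT _ (Fin.cons (core_gr Λ w (x, Y')) fun k => core_gr Λ w (x' k, Y)) ?_ ?_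
    · intro t e he
      refine Fin.cases (fun he => ?_) (fun k he => ?_) t he
      · rw [Fin.cons_zero]
        refine core_indep Λ w X A hA 0 _ _ ?_ e he
        intro t i hne
        refine Fin.cases (fun hne => ?_) (fun k hne => ?_) t hne
        · refine ⟨rfl, ?_⟩
          by_contra hc
          exact hne (hY1 i.1 i.2 hc)
        · exact absurd rfl hne
      · rw [Fin.cons_succ]
        refine core_indep Λ w X A hA k.succ _ _ ?_ e he
        intro t i hne
        refine Fin.cases (fun hne => ?_) (fun k' hne => ?_) t hne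
        · exact absurd rfl hne
        · simp only [Fin.cons_succ] at hne
          have hk : k' = k := by
            by_contra hc
            exact hne (by rw [hx1 k k' hc])
          subst hk
          refine ⟨rfl, ?_⟩
          by_contra hc
          exact hne (hx2 k' i.1 i.2 hc)
    · intro t
      refine Fin.cases ?_ (fun k => ?_) t
      · rw [Fin.cons_zero]
        exact hY2.2
      · rw [Fin.cons_succ]
        exact (mem_filter.1 (hx3 k)).2
  have hzz : (x, Y) ∈ ZZ (Fin G) B P := by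
    rw [mem_ZZ]
    refine ⟨hprom, ?_⟩
    rintro ⟨τ, s⟩ hu
    by_cases hτ : τ ∈ Λ
    · by_contra hc
      refine hTC _ hTq ((hcl (x, Y)).2 ⟨(τ, s), hτ, fun t => ?_⟩)
      refine Fin.cases ?_ (fun k => ?_) t
      · rw [Fin.cons_zero]
        simpa using hc
      · rw [Fin.cons_succ]
        exact hu k
    · have h1 := hY1 τ s (by rw [hAΛ τ hτ]; exact notMem_empty _)
      have h3 := ((mem_ZZ _).1 hY2.1).2 (τ, s) hu
      exact h1.symm.trans h3
  exact mem_filter.2 ⟨hzz, hTq⟩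

/-- the good gadgets have the right density -/
private theorem core_dens {n N P z : ℕ} (hN : N ≤ n) (X : Fin (P + 1) → Finset (EdgeVar n)) (d : ℝ)
    (hd0 : 0 ≤ d) (hd : ∀ t, d * (N : ℝ) ^ 2 ≤ (Nat.card {q : Fin N × Fin N //
      Pr (X t) (Fin.castLE hN q.1) (Fin.castLE hN q.2)} : ℝ)) :
    d ^ (P + 1) * (N : ℝ) ^ Fintype.card (RK.J (P + 1) z) ≤
      (Nat.card {χ : RK.J (P + 1) z → Fin N | ∀ t, Pr (X t) (Fin.castLE hN (χ (.inl (t, false))))
        (Fin.castLE hN (χ (.inl (t, true))))} : ℝ) := by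
  classical
  have h1 := good_card (P := Unit) (z := z) hN X d hd0 (fun t => by
    refine (hd t).trans (le_of_eq ?_)
    rw [Nat.card_eq_fintype_card, Fintype.card_subtype])
  rw [Fintype.card_unit, mul_one, one_mul] at h1
  refine h1.trans (le_of_eq ?_)
  congr 1
  refine Nat.card_congr ⟨fun χ => ⟨fun j => χ.1 ((), j), fun t => χ.2 () t⟩,
    fun χ => ⟨fun q => χ.1 q.2, fun _ t => χ.2 t⟩, fun χ => rfl, fun χ => rfl⟩

open Classical in
theorem core {a h n N G B P z : ℕ} (hP : 0 < P) (hN : N + (Nat.sqrt n + 2) ≤ n) (hN1 : 1 ≤ N)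
    (ha : 1 ≤ a) (hh : 2 ≤ h) (hz : a * h ^ 2 ≤ z + 2 * (P + 1))
    (hzn : z + 2 * (P + 1) ≤ Nat.sqrt n) (hB : 0 < B) (b : ℝ) (hb0 : 0 < b)
    (hb : bad (G * B) (z + 2 * (P + 1)) N a h ≤ b) :
    ∃ (M : ℕ) (Q : Fin M → EdgeVar n → Bool), 0 < M ∧ (∀ i, ¬ Clq (Q i)) ∧
      ∀ (X : Fin (P + 1) → Finset (EdgeVar n)) (d : ℝ), 0 ≤ d → d ≤ 1 →
      (∀ t, d * (N : ℝ) ^ 2 ≤ ((univ.filter fun q : Fin N × Fin N =>
        Pr (X t) (Fin.castLE (by omega) q.1) (Fin.castLE (by omega) q.2)).card : ℝ)) →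
      (4 : ℝ) ^ (P + 2) / B ≤ d ^ (P + 1) / 2 →
      ∀ T : (EdgeVar n → Bool) → Prop, StarK X T → (∀ x, T x → ¬ Clq x) →
        ((univ.filter fun i => T (Q i)).card : ℝ) ≤
          M * (2 * (2 : ℝ) ^ (2 * b) * (2 : ℝ) ^ (-(d ^ (P + 1) * G / 4))) := by
  have hNn : N ≤ n := by omega
  have hJ : Fintype.card (RK.J (P + 1) z) = z + 2 * (P + 1) := core_card _ _
  have hI : Fintype.card (Fin G × Fin B) = G * B := by simp [Fintype.card_prod]
  obtain ⟨R, hR1, hR2⟩ := bad_sum (I := Fin G × Fin B) (Jt := RK.J (P + 1) z) N a h hN1 ha hh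
  set U : ℝ := (N : ℝ) ^ (Fintype.card (Fin G × Fin B) * Fintype.card (RK.J (P + 1) z)) with hU
  have hNpos : (0 : ℝ) < (N : ℝ) := by exact_mod_cast hN1
  have hUpos : 0 < U := pow_pos hNpos _
  have hUcard : ((univ : Finset ((Fin G × Fin B) × RK.J (P + 1) z → Fin N)).card : ℝ) = U := by
    rw [Finset.card_univ, Fintype.card_fun, Fintype.card_prod (Fin G × Fin B) (RK.J (P + 1) z),
      Fintype.card_fin, Nat.cast_pow]
  -- few functions have a large set `R φ`
  set S1 : Finset ((Fin G × Fin B) × RK.J (P + 1) z → Fin N) :=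
    univ.filter fun φ => 2 * b < ((R φ).card : ℝ) with hS1
  have h1 : (S1.card : ℝ) ≤ U / 2 := by
    have e1 : (S1.card : ℝ) * (2 * b) ≤ ∑ φ, ((R φ).card : ℝ) := by
      calc (S1.card : ℝ) * (2 * b) = ∑ _φ ∈ S1, (2 * b) := by
            rw [Finset.sum_const, nsmul_eq_mul]
        _ ≤ ∑ φ ∈ S1, ((R φ).card : ℝ) := by
            apply Finset.sum_le_sum
            intro φ hφ
            exact (Finset.mem_filter.mp hφ).2.le
        _ ≤ ∑ φ, ((R φ).card : ℝ) := by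
            apply Finset.sum_le_sum_of_subset_of_nonneg (Finset.subset_univ _)
            intro φ _ _
            exact Nat.cast_nonneg _
    have e2 : U * bad (Fintype.card (Fin G × Fin B)) (Fintype.card (RK.J (P + 1) z)) N a h ≤
        U * b := by
      rw [hJ, hI]
      exact mul_le_mul_of_nonneg_left hb hUpos.le
    have e3 : (S1.card : ℝ) * (2 * b) ≤ U / 2 * (2 * b) := by
      calc (S1.card : ℝ) * (2 * b) ≤ U * b := (e1.trans hR2).trans e2
        _ = U / 2 * (2 * b) := by ring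
    exact le_of_mul_le_mul_right e3 (by linarith)
  let Φ : Type := {φ : (Fin G × Fin B) × RK.J (P + 1) z → Fin N // ((R φ).card : ℝ) ≤ 2 * b}
  have hΦ : U ≤ 2 * (Fintype.card Φ : ℝ) := by
    have hsub : (univ : Finset ((Fin G × Fin B) × RK.J (P + 1) z → Fin N)) ⊆
        S1 ∪ univ.filter fun φ => ((R φ).card : ℝ) ≤ 2 * b := by
      intro φ _
      rcases lt_or_ge (2 * b) ((R φ).card : ℝ) with hlt | hge
      · exact Finset.mem_union_left _ (Finset.mem_filter.mpr ⟨Finset.mem_univ _, hlt⟩)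
      · exact Finset.mem_union_right _ (Finset.mem_filter.mpr ⟨Finset.mem_univ _, hge⟩)
    have hle := (Finset.card_le_card hsub).trans (Finset.card_union_le _ _)
    rw [← Fintype.card_subtype (fun φ : (Fin G × Fin B) × RK.J (P + 1) z → Fin N =>
      ((R φ).card : ℝ) ≤ 2 * b)] at hle
    have hle' : U ≤ (S1.card : ℝ) + (Fintype.card Φ : ℝ) := by
      rw [← hUcard]
      exact_mod_cast hle
    linarith
  have hΦ0 : (0 : ℝ) < Fintype.card Φ := by linarith
  let Λ : Φ → Finset (Fin G) := fun φ => univ.filter fun τ => ∀ s, (τ, s) ∉ R φ.1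
  let w : Φ → Fin G × Fin B → RK.J (P + 1) z → Fin n := fun φ i j => Fin.castLE hNn (φ.1 (i, j))
  have hNB : ∀ φ : Φ, NoBad a h fun i : {i : Fin G × Fin B // i.1 ∈ Λ φ} => fun j =>
      φ.1 (i.1, j) := by
    intro φ
    refine hR1 φ.1 {i : Fin G × Fin B // i.1 ∈ Λ φ} Subtype.val Subtype.val_injective ?_
    rintro ⟨⟨τ, s⟩, hi⟩
    exact (Finset.mem_filter.mp hi).2 s
  have hcl : ∀ (φ : Φ) (q : Inp G B P), Clq (core_gr (Λ φ) (w φ) q) ↔
      ∃ i : Fin G × Fin B, i.1 ∈ Λ φ ∧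
        ∀ t, (Fin.cons q.2 q.1 : Fin (P + 1) → Fin G × Fin B → Bool) t i = true := by
    intro φ q
    unfold core_gr
    rw [clq_iff (Nat.succ_pos P) (fun i : {i : Fin G × Fin B // i.1 ∈ Λ φ} => w φ i.1) hzn ?_ ?_
      ?_ ?_]
    · constructor
      · rintro ⟨i, hi⟩
        exact ⟨i.1, i.2, hi⟩
      · rintro ⟨i, hi, h⟩
        exact ⟨⟨i, hi⟩, h⟩
    · intro i j
      have h4 := (φ.1 (i.1, j)).2
      show (φ.1 (i.1, j) : ℕ) + (Nat.sqrt n + 1) ≤ n - 1
      omega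
    · intro i
      exact (Fin.castLE_injective hNn).comp ((hNB φ).inj i)
    · intro i i' j k j' k' hne hj e1 e2
      have e1 := Fin.castLE_injective hNn e1
      have e2 := Fin.castLE_injective hNn e2
      refine (hNB φ).share i i' j k j' k' hne hj ?_ e1 e2
      rintro rfl
      exact hj ((hNB φ).inj i (e1.trans e2.symm))
    · intro S hS hcov
      exact core_clique (Nat.succ_pos P) hNn (hNB φ) ha hh hz S hS hcov
  have hZpos : 0 < (ZZ (Fin G) B P).card := card_pos.2 (ZZ_nonempty P hP hB)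
  let E := (Fintype.equivFin (Φ × ↥(ZZ (Fin G) B P))).symm
  have hM : Fintype.card (Φ × ↥(ZZ (Fin G) B P)) = Fintype.card Φ * (ZZ (Fin G) B P).card := by
    rw [Fintype.card_prod, Fintype.card_coe]
  refine ⟨Fintype.card (Φ × ↥(ZZ (Fin G) B P)),
    fun i => core_gr (Λ (E i).1) (w (E i).1) (E i).2.1, ?_, ?_, ?_⟩
  · rw [hM]
    exact Nat.mul_pos (by exact_mod_cast hΦ0) hZpos
  · intro i hc
    rw [hcl] at hc
    obtain ⟨j, -, hj⟩ := hc
    have h2 := ((mem_ZZ _).1 (E i).2.2).2 j fun k => by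
      have h3 := hj k.succ
      rw [Fin.cons_succ] at h3
      exact h3
    have h4 := hj 0
    rw [Fin.cons_zero, h2] at h4
    exact absurd h4 (by simp)
  intro X d hd0 hd1 hX hBd T hT hTC
  -- the good gadgets
  let Sg : Set (RK.J (P + 1) z → Fin N) := {χ | ∀ t, Pr (X t) (Fin.castLE hNn (χ (.inl (t, false))))
    (Fin.castLE hNn (χ (.inl (t, true))))}
  let A' : ((Fin G × Fin B) × RK.J (P + 1) z → Fin N) → Fin G → Finset (Fin B) := fun φ τ =>
    univ.filter fun s => (fun j => φ ((τ, s), j)) ∈ Sg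
  let A : Φ → Fin G → Finset (Fin B) := fun φ τ => if τ ∈ Λ φ then A' φ.1 τ else ∅
  let f : ((Fin G × Fin B) × RK.J (P + 1) z → Fin N) → (Fin G → Fin B) → ℝ := fun φ σ =>
    (1 / 2 : ℝ) ^ (univ.filter fun τ : Fin G => 4 ^ (P + 2) ≤ (univ.filter fun s : Fin B =>
      (fun j => φ ((τ, s), j)) ∈ Sg).card ∧ (fun j => φ ((τ, σ τ), j)) ∈ Sg).card
  have hf0 : ∀ φ σ, 0 ≤ f φ σ := fun φ σ => by positivity
  let S : Φ → Finset (Inp G B P) := fun φ =>
    (ZZ (Fin G) B P).filter fun q => T (core_gr (Λ φ) (w φ) q)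
  have hS : ∀ φ, ((S φ).card : ℝ) * (B : ℝ) ^ G ≤
      (2 : ℝ) ^ (2 * b) * ((ZZ (Fin G) B P).card * ∑ σ, f φ.1 σ) := by
    intro φ
    have e1 := core_one (Λ φ) (w φ) X (hcl φ) T hT hTC (A φ)
      (fun τ hτ => by simp only [A, if_neg hτ]) (fun τ s hs t => by
        by_cases hτ : τ ∈ Λ φ
        · simp only [A, if_pos hτ, A', mem_filter] at hs
          exact hs.2 t
        · simp only [A, if_neg hτ] at hs
          exact absurd hs (notMem_empty _))
    have e2 : ∀ q ∈ ZZ (Fin G) B P, (1 / 2 : ℝ) ^ (univ.filter fun τ =>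
        4 ^ (P + 2) ≤ (A φ τ).card ∧ ∃ s ∈ A φ τ, ∀ k, q.1 k (τ, s) = true).card ≤
        (2 : ℝ) ^ (2 * b) * ∑ σ ∈ univ.filter (fun σ : Fin G → Fin B =>
          ∀ τ k, q.1 k (τ, σ τ) = true), f φ.1 σ := by
      intro q hq
      have hprom := ((mem_ZZ q).1 hq).1
      choose σ hσ _ using hprom
      have e3 : f φ.1 σ ≤ ∑ σ ∈ univ.filter (fun σ : Fin G → Fin B =>
          ∀ τ k, q.1 k (τ, σ τ) = true), f φ.1 σ :=
        single_le_sum (f := f φ.1) (fun σ _ => hf0 φ.1 σ) (mem_filter.2 ⟨mem_univ _, hσ⟩)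
      refine le_trans ?_ (mul_le_mul_of_nonneg_left e3 (by positivity))
      -- the removed groups
      have e4 : (univ.filter fun τ : Fin G => 4 ^ (P + 2) ≤ (univ.filter fun s : Fin B =>
          (fun j => φ.1 ((τ, s), j)) ∈ Sg).card ∧ (fun j => φ.1 ((τ, σ τ), j)) ∈ Sg) ⊆
          (univ.filter fun τ => 4 ^ (P + 2) ≤ (A φ τ).card ∧
            ∃ s ∈ A φ τ, ∀ k, q.1 k (τ, s) = true) ∪ (R φ.1).image Prod.fst := by
        intro τ hτ
        have hτ := (mem_filter.1 hτ).2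
        by_cases hΛ : τ ∈ Λ φ
        · refine mem_union_left _ (mem_filter.2 ⟨mem_univ _, ?_⟩)
          simp only [A, if_pos hΛ]
          exact ⟨hτ.1, σ τ, mem_filter.2 ⟨mem_univ _, hτ.2⟩, hσ τ⟩
        · have h5 : ¬ ∀ s, (τ, s) ∉ R φ.1 := fun hc => hΛ (mem_filter.2 ⟨mem_univ _, hc⟩)
          push Not at h5
          obtain ⟨s, hs⟩ := h5
          exact mem_union_right _ (mem_image.2 ⟨(τ, s), hs, rfl⟩)
      have e5 := (card_le_card e4).trans (card_union_le _ _)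
      have e6 : ((R φ.1).image Prod.fst).card ≤ (R φ.1).card := card_image_le
      have e7 := φ.2
      set k1 := (univ.filter fun τ : Fin G => 4 ^ (P + 2) ≤ (univ.filter fun s : Fin B =>
          (fun j => φ.1 ((τ, s), j)) ∈ Sg).card ∧ (fun j => φ.1 ((τ, σ τ), j)) ∈ Sg).card with hk1
      set k2 := (univ.filter fun τ => 4 ^ (P + 2) ≤ (A φ τ).card ∧
            ∃ s ∈ A φ τ, ∀ k, q.1 k (τ, s) = true).card with hk2
      have e8 : (k1 : ℝ) ≤ k2 + 2 * b := by
        have e9 : k1 ≤ k2 + (R φ.1).card := e5.trans (Nat.add_le_add_left e6 _)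
        have e10 : (k1 : ℝ) ≤ k2 + ((R φ.1).card : ℝ) := by exact_mod_cast e9
        linarith
      have e11 : ∀ k : ℕ, (1 / 2 : ℝ) ^ k = (2 : ℝ) ^ (-(k : ℝ)) := by
        intro k
        rw [Real.rpow_neg (by norm_num), Real.rpow_natCast, one_div, inv_pow]
      show (1 / 2 : ℝ) ^ k2 ≤ (2 : ℝ) ^ (2 * b) * (1 / 2 : ℝ) ^ k1
      rw [e11, e11, ← Real.rpow_add (by norm_num)]
      exact Real.rpow_le_rpow_of_exponent_le (by norm_num) (by linarith)
    have e12 : (∑ q ∈ ZZ (Fin G) B P, ∑ σ ∈ univ.filter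
        (fun σ : Fin G → Fin B => ∀ τ k, q.1 k (τ, σ τ) = true), f φ.1 σ) * (B : ℝ) ^ G =
        (ZZ (Fin G) B P).card * ∑ σ, f φ.1 σ := by
      have h := sum_common (ι := Fin G) B P (f φ.1)
      rw [Fintype.card_fin] at h
      refine Eq.trans ?_ (h.trans ?_)
      · refine congrArg (fun y : ℝ => y * (B : ℝ) ^ G) ?_
        refine Finset.sum_congr rfl fun q _ => Finset.sum_congr ?_ fun _ _ => rfl
        ext σ
        simp only [mem_filter, mem_univ, true_and]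
      · refine congrArg (fun y : ℝ => ((ZZ (Fin G) B P).card : ℝ) * y) ?_
        exact Finset.sum_congr (by ext σ; simp only [mem_univ]) fun _ _ => rfl
    calc ((S φ).card : ℝ) * (B : ℝ) ^ G ≤ (∑ q ∈ ZZ (Fin G) B P, (2 : ℝ) ^ (2 * b) *
          ∑ σ ∈ univ.filter (fun σ : Fin G → Fin B => ∀ τ k, q.1 k (τ, σ τ) = true), f φ.1 σ) *
            (B : ℝ) ^ G := by
          refine mul_le_mul_of_nonneg_right ?_ (by positivity)
          exact e1.trans (sum_le_sum e2)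
      _ = (2 : ℝ) ^ (2 * b) * ((∑ q ∈ ZZ (Fin G) B P, ∑ σ ∈ univ.filter
          (fun σ : Fin G → Fin B => ∀ τ k, q.1 k (τ, σ τ) = true), f φ.1 σ) * (B : ℝ) ^ G) := by
          rw [← mul_sum]
          ring
      _ = _ := by rw [e12]
  have hall : ∑ φ : Φ, ∑ σ, f φ.1 σ ≤ U * (B : ℝ) ^ G * (2 : ℝ) ^ (-(d ^ (P + 1) * G / 4)) := by
    have e1 : ∑ φ : (Fin G × Fin B) × RK.J (P + 1) z → Fin N, ∑ σ, f φ σ ≤
        U * (B : ℝ) ^ G * (2 : ℝ) ^ (-(d ^ (P + 1) * G / 4)) := by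
      have h := good_sum (Jt := RK.J (P + 1) z) G B N (4 ^ (P + 2)) Sg (d ^ (P + 1)) hB
        (pow_nonneg hd0 _) (core_dens hNn X d hd0 fun t => by
          rw [Nat.card_eq_fintype_card, Fintype.card_subtype]
          exact hX t) (by
          push_cast
          exact hBd)
      refine le_trans (le_of_eq ?_) (h.trans (le_of_eq ?_))
      · refine Finset.sum_congr (by ext φ; simp only [mem_univ]) fun φ _ =>
          Finset.sum_congr (by ext σ; simp only [mem_univ]) fun σ _ => ?_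
        refine congrArg (fun m : ℕ => (1 / 2 : ℝ) ^ m) (congrArg Finset.card ?_)
        ext τ
        simp only [mem_filter, mem_univ, true_and]
        refine and_congr (iff_of_eq (congrArg (fun m : ℕ => 4 ^ (P + 2) ≤ m)
          (congrArg Finset.card ?_))) Iff.rfl
        ext s
        simp only [mem_filter, mem_univ, true_and]
      · rfl
    refine le_trans ?_ e1
    have e2 : ∑ φ : Φ, ∑ σ, f φ.1 σ = ∑ φ ∈ univ.filter (fun φ => ((R φ).card : ℝ) ≤ 2 * b),
        ∑ σ, f φ σ := by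
      rw [← Finset.sum_subtype_eq_sum_filter, Finset.subtype_univ]
    rw [e2]
    exact sum_le_sum_of_subset_of_nonneg (subset_univ _) fun φ _ _ =>
      sum_nonneg fun σ _ => hf0 φ σ
  have hsum : (univ.filter fun i : Fin (Fintype.card (Φ × ↥(ZZ (Fin G) B P))) =>
      T (core_gr (Λ (E i).1) (w (E i).1) (E i).2.1)).card = ∑ φ : Φ, (S φ).card := by
    rw [Finset.card_filter]
    rw [Equiv.sum_comp E (fun b : Φ × ↥(ZZ (Fin G) B P) =>
      if T (core_gr (Λ b.1) (w b.1) b.2.1) then (1 : ℕ) else 0), Fintype.sum_prod_type]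
    refine Finset.sum_congr rfl fun φ _ => ?_
    rw [Finset.card_filter]
    exact Finset.sum_coe_sort (ZZ (Fin G) B P)
      (fun q => if T (core_gr (Λ φ) (w φ) q) then (1 : ℕ) else 0)
  have hBG : (0 : ℝ) < (B : ℝ) ^ G := pow_pos (by exact_mod_cast hB) _
  have hfin : (∑ φ : Φ, ((S φ).card : ℝ)) * (B : ℝ) ^ G ≤
      (Fintype.card Φ * (ZZ (Fin G) B P).card *
        (2 * (2 : ℝ) ^ (2 * b) * (2 : ℝ) ^ (-(d ^ (P + 1) * G / 4)))) * (B : ℝ) ^ G := by
    calc (∑ φ : Φ, ((S φ).card : ℝ)) * (B : ℝ) ^ G = ∑ φ : Φ, ((S φ).card : ℝ) * (B : ℝ) ^ G := by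
          rw [sum_mul]
      _ ≤ ∑ φ : Φ, (2 : ℝ) ^ (2 * b) * ((ZZ (Fin G) B P).card * ∑ σ, f φ.1 σ) :=
          sum_le_sum fun φ _ => hS φ
      _ = ((2 : ℝ) ^ (2 * b) * (ZZ (Fin G) B P).card) * ∑ φ : Φ, ∑ σ, f φ.1 σ := by
          rw [mul_sum]
          exact sum_congr rfl fun φ _ => by ring
      _ ≤ ((2 : ℝ) ^ (2 * b) * (ZZ (Fin G) B P).card) *
          (U * (B : ℝ) ^ G * (2 : ℝ) ^ (-(d ^ (P + 1) * G / 4))) :=
          mul_le_mul_of_nonneg_left hall (by positivity)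
      _ ≤ ((2 : ℝ) ^ (2 * b) * (ZZ (Fin G) B P).card) *
          ((2 * (Fintype.card Φ : ℝ)) * (B : ℝ) ^ G * (2 : ℝ) ^ (-(d ^ (P + 1) * G / 4))) := by
          gcongr
      _ = _ := by ring
  have hfin2 := le_of_mul_le_mul_right hfin hBG
  rw [hsum, hM]
  push_cast
  exact hfin2

end Pool.Agent.RQ
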