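import Mathlib
import Pool.Agent.Lib.MP_0a1b52_lc_RP.Dens
import Pool.Agent.Lib.MP_0a1b52_lc_RK.Local
import Pool.Agent.Lib.MP_0a1b52_lc_RQ.Core
import Pool.Agent.Lib.MP_0a1b52_lc_RQ.Arith

/-!
# Local proofs with many sets: the theorem
-/

set_option autoImplicit false

namespace Pool.Agent.RQ

open Finset Pool.Agent.FP Pool.Agent.RP Pool.Agent.RK

open Classical in
theorem embed (ε : ℝ) (hε : 0 < ε) (hε1 : ε ≤ 1) : ∃ n₀ : ℕ, ∀ n ≥ n₀, ∀ K : ℕ, 2 ≤ K →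
    (K : ℝ) ≤ ε / 16 * Real.logb 2 n →
    ∃ (N : ℕ) (Q : Fin N → EdgeVar n → Bool), 0 < N ∧ (∀ i, ¬ Clq (Q i)) ∧
      ∀ X : Fin K → Finset (EdgeVar n),
      (∀ t, (n : ℝ) ^ (2 - ε / (16 * K)) ≤ ((X t).card : ℝ)) →
      ∀ T : (EdgeVar n → Bool) → Prop, StarK X T → (∀ x, T x → ¬ Clq x) →
        ((univ.filter fun i => T (Q i)).card : ℝ) ≤
          N * (2 : ℝ) ^ (-((n : ℝ) ^ (2 - 7 / 8 * ε))) := by
  obtain ⟨a, h, z, n₀, ha, hh, hz, hA⟩ := arith ε hε hε1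
  refine ⟨max n₀ 1, fun n hn K hK2 hK => ?_⟩
  obtain ⟨h1, h2, h3, G, B, b, hB, hb0, hb, hBd, hfin⟩ :=
    hA n (le_trans (le_max_left _ _) hn) K (by omega) hK
  obtain ⟨P, rfl⟩ : ∃ P, K = P + 1 := ⟨K - 1, by omega⟩
  set N := n - (Nat.sqrt n + 2) with hNdef
  have hN : N + (Nat.sqrt n + 2) ≤ n := by omega
  have hn1 : (1 : ℝ) ≤ n := by exact_mod_cast le_trans (le_max_right _ _) hn
  have hn0 : (0 : ℝ) < n := by linarith
  obtain ⟨M, Q, hM, hQ, hE⟩ := core (P := P) (by omega) hN h2 ha hh (by omega) h1 hB b hb0 hb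
  refine ⟨M, Q, hM, hQ, fun X hX T hT hTC => ?_⟩
  have hδ0 : 0 ≤ ε / (16 * ((P + 1 : ℕ) : ℝ)) := by positivity
  refine (hE X ((n : ℝ) ^ (-(ε / (16 * ((P + 1 : ℕ) : ℝ))))) (by positivity)
    (Real.rpow_le_one_of_one_le_of_nonpos hn1 (by linarith)) ?_ hBd T hT hTC).trans ?_
  · intro t
    have h4 := pair_card (N := N) (by omega : N ≤ n) (X t)
    have h5 : n - N = Nat.sqrt n + 2 := by omega
    rw [h5] at h4
    have h6 : 2 * ((X t).card : ℝ) ≤ ((univ.filter fun q : Fin N × Fin N =>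
      Pr (X t) (Fin.castLE (by omega) q.1) (Fin.castLE (by omega) q.2)).card : ℝ) +
        2 * (Nat.sqrt n + 2) * n := by exact_mod_cast h4
    have h7 := hX t
    linarith
  · exact mul_le_mul_of_nonneg_left hfin (Nat.cast_nonneg _)

private theorem main_large (ε : ℝ) (hε : 0 < ε) (hε1 : ε ≤ 1) : ∃ n₀ : ℕ, ∀ n ≥ n₀, ∀ K : ℕ,
    (K : ℝ) ≤ ε / 16 * Real.logb 2 n →
    (3 * K + 3 : ℝ) * (n : ℝ) ^ (2 - ε) ≤ (n : ℝ) ^ (2 - 7 / 8 * ε) := by
  have hlim : Filter.Tendsto (fun n : ℕ => (n : ℝ) ^ (ε / 16)) Filter.atTop Filter.atTop :=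
    (tendsto_rpow_atTop (by positivity)).comp tendsto_natCast_atTop_atTop
  obtain ⟨n₀, h₀⟩ := Filter.eventually_atTop.1 (hlim.eventually_ge_atTop 6)
  refine ⟨max n₀ 2, fun n hn K hK => ?_⟩
  have hn2 : (2 : ℝ) ≤ n := by exact_mod_cast le_trans (le_max_right _ _) hn
  have hn0 : (0 : ℝ) < n := by linarith
  have h1 : (6 : ℝ) ≤ (n : ℝ) ^ (ε / 16) := h₀ n (le_trans (le_max_left _ _) hn)
  have h2 : (K : ℝ) ≤ (n : ℝ) ^ (ε / 16) := by
    have h3 : (2 : ℝ) ^ (K : ℝ) ≤ (n : ℝ) ^ (ε / 16) := by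
      calc (2 : ℝ) ^ (K : ℝ) ≤ (2 : ℝ) ^ (Real.logb 2 n * (ε / 16)) :=
            Real.rpow_le_rpow_of_exponent_le (by norm_num) (by linarith)
        _ = (n : ℝ) ^ (ε / 16) := by
            rw [Real.rpow_mul (by norm_num), Real.rpow_logb (by norm_num) (by norm_num) hn0]
    have h4 : (K : ℝ) ≤ (2 : ℝ) ^ (K : ℝ) := by
      rw [Real.rpow_natCast]
      exact_mod_cast (Nat.lt_two_pow_self (n := K)).le
    exact h4.trans h3
  have h5 : (n : ℝ) ^ (2 - 7 / 8 * ε) = (n : ℝ) ^ (ε / 16) * (n : ℝ) ^ (ε / 16) *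
      (n : ℝ) ^ (2 - ε) := by
    rw [← Real.rpow_add hn0, ← Real.rpow_add hn0]
    congr 1
    ring
  rw [h5]
  refine mul_le_mul_of_nonneg_right ?_ (by positivity)
  nlinarith

open Classical in
/-- For all `0 < ε ≤ 1` there is `n₀` such that for all `n ≥ n₀` and `2 ≤ K ≤ (ε / 16) log₂ n` there
are graphs `Q 1, ..., Q N` with `n` vertices and without a clique of more than `√n` vertices such
that for each family `F` of at most `2 ^ (n ^ (2 - ε))` sets of at least `n ^ (2 - ε / (16 K))`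
variables and for any functions `p 1, ..., p s` of a graph: if `r log₂ (s + 1) ≤ n ^ (2 - ε)`, then
for at most `N 2 ^ (- n ^ (2 - ε))` of the graphs `Q i` there are `X 1, ..., X K` in `F` and a local
proof with `r` lines that `Q i` has no clique of more than `√n` vertices. -/
theorem main (ε : ℝ) (hε : 0 < ε) (hε1 : ε ≤ 1) : ∃ n₀ : ℕ, ∀ n ≥ n₀, ∀ K : ℕ, 2 ≤ K →
    (K : ℝ) ≤ ε / 16 * Real.logb 2 n →
    ∃ (N : ℕ) (Q : Fin N → EdgeVar n → Bool), 0 < N ∧ (∀ i, ¬ Clq (Q i)) ∧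
      ∀ F : Finset (Finset (EdgeVar n)),
      (∀ B ∈ F, (n : ℝ) ^ (2 - ε / (16 * K)) ≤ (B.card : ℝ)) →
      Real.logb 2 F.card ≤ (n : ℝ) ^ (2 - ε) →
      ∀ (s r : ℕ) (p : Fin s → (EdgeVar n → Bool) → Bool),
        r * Real.logb 2 (s + 1) ≤ (n : ℝ) ^ (2 - ε) →
        ((univ.filter fun i => ∃ X : Fin K → Finset (EdgeVar n), (∀ k, X k ∈ F) ∧
          LocalProof p X (Q i) r).card : ℝ) ≤ N * (2 : ℝ) ^ (-((n : ℝ) ^ (2 - ε))) := by
  obtain ⟨n₁, hE⟩ := embed ε hε hε1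
  obtain ⟨n₃, h₃⟩ := main_large ε hε hε1
  refine ⟨max n₁ (max n₃ 1), fun n hn K hK2 hK => ?_⟩
  have hn1 : n₁ ≤ n := le_trans (le_max_left _ _) hn
  have hn3 : n₃ ≤ n := le_trans (le_trans (le_max_left _ _) (le_max_right _ _)) hn
  have hn4 : 1 ≤ n := le_trans (le_trans (le_max_right _ _) (le_max_right _ _)) hn
  obtain ⟨N, Q, hN, hQ, hE⟩ := hE n hn1 K hK2 hK
  have hbig := h₃ n hn3 K hK
  obtain ⟨M, rfl⟩ : ∃ M, K = M + 1 := ⟨K - 1, by omega⟩
  refine ⟨N, Q, hN, hQ, fun F hF1 hF2 s r p hrs => ?_⟩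
  rcases Finset.eq_empty_or_nonempty F with hF0 | hF0
  · have h0 : (univ.filter fun i => ∃ X : Fin (M + 1) → Finset (EdgeVar n), (∀ k, X k ∈ F) ∧
        LocalProof p X (Q i) r) = ∅ := by
      rw [filter_eq_empty_iff]
      rintro i - ⟨X, hX, -⟩
      have := hX 0
      rw [hF0] at this
      exact absurd this (Finset.notMem_empty _)
    rw [h0, card_empty, Nat.cast_zero]
    positivity
  have hbig' : (3 * (M + 1) + 3 : ℝ) * (n : ℝ) ^ (2 - ε) ≤ (n : ℝ) ^ (2 - 7 / 8 * ε) := by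
    have h := hbig
    push_cast at h
    exact h
  set a : ℝ := N * (2 : ℝ) ^ (-((n : ℝ) ^ (2 - 7 / 8 * ε))) with ha
  set m : ℕ := ((M + 1) * (s * 2)) ^ r * (M + 1) with hm
  have hX : ∀ X ∈ Fintype.piFinset (fun _ : Fin (M + 1) => F),
      ((univ.filter fun i => LocalProof p X (Q i) r).card : ℝ) ≤ m * a := by
    intro X hX
    rw [Fintype.mem_piFinset] at hX
    obtain ⟨m', T, hm', hT1, hT2, hT3⟩ := local_cover p X r
    have hθ : ∀ θ, ((univ.filter fun i => T θ (Q i)).card : ℝ) ≤ a := fun θ =>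
      hE X (fun t => hF1 _ (hX t)) (T θ) (hT1 θ) fun x hx => hT2 θ x hx
    have hsub : (univ.filter fun i => LocalProof p X (Q i) r) ⊆
        univ.biUnion fun θ : Fin m' => univ.filter fun i => T θ (Q i) := by
      intro i hi
      obtain ⟨θ, hθ⟩ := hT3 (Q i) (mem_filter.1 hi).2
      exact mem_biUnion.2 ⟨θ, mem_univ _, mem_filter.2 ⟨mem_univ _, hθ⟩⟩
    have h9 := (card_le_card hsub).trans (card_biUnion_le (s := univ)
      (t := fun θ : Fin m' => univ.filter fun i => T θ (Q i)))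
    have h10 : ((univ.filter fun i => LocalProof p X (Q i) r).card : ℝ) ≤
        ∑ θ : Fin m', ((univ.filter fun i => T θ (Q i)).card : ℝ) := by exact_mod_cast h9
    refine h10.trans ((sum_le_sum fun θ _ => hθ θ).trans (le_of_eq ?_))
    rw [sum_const, card_univ, Fintype.card_fin, nsmul_eq_mul, hm']
  have hsub : (univ.filter fun i => ∃ X : Fin (M + 1) → Finset (EdgeVar n), (∀ k, X k ∈ F) ∧
      LocalProof p X (Q i) r) ⊆ (Fintype.piFinset (fun _ : Fin (M + 1) => F)).biUnion fun X =>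
        univ.filter fun i => LocalProof p X (Q i) r := by
    intro i hi
    obtain ⟨X, hX1, hX2⟩ := (mem_filter.1 hi).2
    exact mem_biUnion.2 ⟨X, Fintype.mem_piFinset.2 hX1, mem_filter.2 ⟨mem_univ _, hX2⟩⟩
  have h9 := (card_le_card hsub).trans (card_biUnion_le
    (s := Fintype.piFinset (fun _ : Fin (M + 1) => F))
    (t := fun X => univ.filter fun i => LocalProof p X (Q i) r))
  have h10 : ((univ.filter fun i => ∃ X : Fin (M + 1) → Finset (EdgeVar n), (∀ k, X k ∈ F) ∧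
      LocalProof p X (Q i) r).card : ℝ) ≤ ∑ X ∈ Fintype.piFinset (fun _ : Fin (M + 1) => F),
        ((univ.filter fun i => LocalProof p X (Q i) r).card : ℝ) := by exact_mod_cast h9
  have h11 : ((univ.filter fun i => ∃ X : Fin (M + 1) → Finset (EdgeVar n), (∀ k, X k ∈ F) ∧
      LocalProof p X (Q i) r).card : ℝ) ≤ ((F.card ^ (M + 1) : ℕ) : ℝ) * (m * a) := by
    refine h10.trans ((sum_le_sum hX).trans (le_of_eq ?_))
    rw [sum_const, Fintype.card_piFinset, prod_const, card_univ, Fintype.card_fin, nsmul_eq_mul]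
  have h12 := local_arith (M := M) (s := s) (r := r) (n := n) (f := F.card) (ε := ε)
    (ε' := 7 / 8 * ε) hn4 (by linarith) hF2 (Finset.card_pos.2 hF0) hrs hbig'
  calc _ ≤ ((F.card ^ (M + 1) : ℕ) : ℝ) * (m * a) := h11
    _ = N * (((F.card ^ (M + 1) : ℕ) : ℝ) * ((m : ℕ) *
        (2 : ℝ) ^ (-((n : ℝ) ^ (2 - 7 / 8 * ε))))) := by
        rw [ha]
        ring
    _ ≤ N * (2 : ℝ) ^ (-((n : ℝ) ^ (2 - ε))) := mul_le_mul_of_nonneg_left h12 (Nat.cast_nonneg _)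

end Pool.Agent.RQ
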